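import Pool.Agent.Lib.MP_b9d07b_gt.Defs

set_option autoImplicit false

/-!
# The explicit polyhedron with eight vertices
-/

open MeasureTheory Set
open scoped ENNReal RealInnerProductSpace

namespace Pool.Agent.Lib.MP_b9d07b_gt

/-- The angle `φ` with `sin φ = (√13 - 1) / 4`. -/
noncomputable def phi : ℝ := Real.arcsin ((Real.sqrt 13 - 1) / 4)

/-- `exp (i t)`, as a pair of reals. -/
noncomputable def ex (t : ℝ) : ℂ := ⟨Real.cos t, Real.sin t⟩

/-- The vertices other than the north pole, in the plane. -/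
noncomputable def zU : ℂ := ⟨-1 / (2 * Real.cos phi), 0⟩
/-- The vertices other than the north pole, in the plane. -/
noncomputable def zQ : ℂ := ⟨-2 * Real.cos phi, 0⟩

/-- The seven points of the plane: `0, e^{±iφ}, e^{±3iφ}, -1/(2 cos φ), -2 cos φ`. -/
noncomputable def Z0 : Finset ℂ :=
  open Classical in {0, ex phi, ex (-phi), ex (3 * phi), ex (-(3 * phi)), zU, zQ}

/-- The vertex set of the polyhedron. -/
noncomputable def S0 : Finset E3 := open Classical in insert north (Z0.image lift)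

/-- Its seven triangles. -/
noncomputable def tri0 : Fin 7 → Set ℂ :=
  ![{0, ex (-phi), ex phi}, {0, ex phi, ex (3 * phi)}, {0, ex (-phi), ex (-(3 * phi))},
    {0, ex (3 * phi), zU}, {0, ex (-(3 * phi)), zU}, {zU, ex (3 * phi), zQ},
    {zU, ex (-(3 * phi)), zQ}]

/-- Module EX1. -/
def IrrationalAngle : Prop :=
  ∀ θ : ℝ, Real.cos θ = (Real.sqrt 13 - 3) / 4 → ∀ r : ℚ, θ ≠ r * Real.pi

/-- Module EX2. -/
def S0Ideal : Prop := IsIdealPoly 8 S0

/-- Module EX3 (the edge over the segment from `e^{-iφ}` to `e^{iφ}`). -/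
def S0Angle : Prop := IsDihedralAngle S0 (lift (ex phi)) (lift (ex (-phi))) (2 * phi)

/-- Module EX4. -/
def S0Disjoint : Prop :=
  Pairwise fun i j : Fin 7 => AEDisjoint volume (convexHull ℝ (tri0 i)) (convexHull ℝ (tri0 j))

/-- Module EX5: elementary facts about `φ`. -/
def PhiFacts : Prop :=
  0 < phi ∧ 3 * phi < Real.pi ∧ Real.sin phi = (Real.sqrt 13 - 1) / 4 ∧
    4 * Real.sin phi ^ 2 + 2 * Real.sin phi = 3 ∧ 4 * Real.cos phi ^ 2 = 1 + 2 * Real.sin phi ∧
    0 < Real.sin phi ∧ 0 < Real.cos phi ∧ Real.cos (2 * phi) = (Real.sqrt 13 - 3) / 4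

end Pool.Agent.Lib.MP_b9d07b_gt
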