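import Pool.Agent.Lib.MP_b9d07b_gt.Upper

section
set_option autoImplicit false

/-!
# Faces of the polyhedron, seen from different vertices
-/

open MeasureTheory Set Filter Topology Real
open scoped ENNReal RealInnerProductSpace

namespace Pool.Agent.Lib.MP_b9d07b_gt

theorem inner_co (n p : E3) : ⟪n, p⟫ = co 0 n * co 0 p + co 1 n * co 1 p + co 2 n * co 2 p := by
  rw [PiLp.inner_apply, Fin.sum_univ_three]
  simp [co_apply, mul_comm]

theorem inner_north (n : E3) : ⟪n, north⟫ = co 2 n := by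
  rw [inner_co]; simp

theorem key_lift (n : E3) (c : ℝ) (z : ℂ) : (⟪n, lift z⟫ - c) * (Complex.normSq z + 1) =
    2 * (co 0 n * z.re + co 1 n * z.im) + (co 2 n - c) * Complex.normSq z - (co 2 n + c) := by
  rw [inner_co, co_lift0, co_lift1, co_lift2]
  have := (normSq_add_one_pos z).ne'
  field_simp
  ring

theorem inner_lift_eq {n : E3} {c : ℝ} {z : ℂ} : ⟪n, lift z⟫ = c ↔
    2 * (co 0 n * z.re + co 1 n * z.im) + (co 2 n - c) * Complex.normSq z - (co 2 n + c) = 0 := by
  rw [← key_lift]
  constructor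
  · intro h; rw [h, sub_self, zero_mul]
  · intro h
    have := (mul_eq_zero.1 h).resolve_right (normSq_add_one_pos z).ne'
    linarith

theorem inner_lift_lt {n : E3} {c : ℝ} {z : ℂ} : ⟪n, lift z⟫ < c ↔
    2 * (co 0 n * z.re + co 1 n * z.im) + (co 2 n - c) * Complex.normSq z - (co 2 n + c) < 0 := by
  rw [← key_lift]
  have hp := normSq_add_one_pos z
  constructor
  · intro h
    exact mul_neg_of_neg_of_pos (by linarith) hp
  · intro h
    by_contra hge
    push Not at hge
    have := mul_nonneg (sub_nonneg.2 hge) hp.le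
    linarith

/-- A vector with given coordinates. -/
noncomputable def vec3 (a b c : ℝ) : E3 := !₂[a, b, c]
@[simp] theorem co_vec0 (a b c : ℝ) : co 0 (vec3 a b c) = a := rfl
@[simp] theorem co_vec1 (a b c : ℝ) : co 1 (vec3 a b c) = b := rfl
@[simp] theorem co_vec2 (a b c : ℝ) : co 2 (vec3 a b c) = c := rfl

/-- General position on the sphere. -/
structure GPS (S : Finset E3) : Prop where
  unit : ∀ p ∈ S, ‖p‖ = 1
  gen : ∀ T ⊆ S, T.card = 4 → ∀ (n : E3) (c : ℝ), (∀ p ∈ T, ⟪n, p⟫ = c) → n = 0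

theorem card_SZ (Z : Finset ℂ) : (SZ Z).card = Z.card + 1 := by
  classical
  unfold SZ
  rw [Finset.card_insert_of_notMem, Finset.card_image_of_injective _ lift_injective]
  rw [Finset.mem_image]
  rintro ⟨z, -, hz⟩
  exact lift_ne_north z hz

theorem GPS.gp {Z : Finset ℂ} (h : GPS (SZ Z)) : GP Z := by
  classical
  constructor
  · intro p hp q hq r hr hpq hqr hpr ho
    have hcr : cr (q - p) (r - p) = 0 := by rw [← orient_eq]; exact ho
    have hc := h.gen (SZ {p, q, r}) ?_ ?_
      (vec3 (-(q - p).im) (q - p).re (cr (q - p) p)) (cr (q - p) p) ?_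
    · have h0 := congrArg (co 0) hc
      have h1 := congrArg (co 1) hc
      simp only [co_vec0, co_vec1, map_zero] at h0 h1
      exact hpq (sub_eq_zero.1 (Complex.ext h1 (by
        rw [Complex.sub_im] at h0 ⊢; rw [Complex.zero_im]; linarith))).symm
    · intro y hy
      rcases mem_SZ.1 hy with h1 | ⟨z, hz, h1⟩
      · exact mem_SZ.2 (Or.inl h1)
      · refine mem_SZ.2 (Or.inr ⟨z, ?_, h1⟩)
        simp only [Finset.mem_insert, Finset.mem_singleton] at hz
        rcases hz with rfl | rfl | rfl <;> assumption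
    · rw [card_SZ, Finset.card_insert_of_notMem (by simp [hpq, hpr]),
        Finset.card_insert_of_notMem (by simp [hqr]), Finset.card_singleton]
    · intro y hy
      rcases mem_SZ.1 hy with rfl | ⟨z, hz, rfl⟩
      · rw [inner_north, co_vec2]
      · rw [inner_lift_eq, co_vec0, co_vec1, co_vec2]
        simp only [Finset.mem_insert, Finset.mem_singleton] at hz
        rcases hz with rfl | rfl | rfl
        · unfold cr; simp only [Complex.sub_re, Complex.sub_im]; ring
        · unfold cr; simp only [Complex.sub_re, Complex.sub_im]; ring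
        · unfold cr at hcr ⊢
          simp only [Complex.sub_re, Complex.sub_im] at hcr ⊢
          linear_combination 2 * hcr
  · intro T hT hTc m k hm z hz hzT heq
    have hc := h.gen ((insert z T).image lift) ?_ ?_
      (vec3 m.re m.im ((-1 - k) / 2)) ((1 - k) / 2) ?_
    · have h0 := congrArg (co 0) hc
      have h1 := congrArg (co 1) hc
      have h2 := congrArg (co 2) hc
      simp only [co_vec0, co_vec1, co_vec2, map_zero] at h0 h1 h2
      unfold Lf at heq
      rw [h0, h1] at heq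
      have := Complex.normSq_nonneg z
      linarith
    · intro y hy
      obtain ⟨x, hx, rfl⟩ := Finset.mem_image.1 hy
      refine mem_SZ.2 (Or.inr ⟨x, ?_, rfl⟩)
      rcases Finset.mem_insert.1 hx with rfl | h1
      · exact hz
      · exact hT h1
    · rw [Finset.card_image_of_injective _ lift_injective, Finset.card_insert_of_notMem hzT, hTc]
    · intro y hy
      obtain ⟨x, hx, rfl⟩ := Finset.mem_image.1 hy
      rw [inner_lift_eq, co_vec0, co_vec1, co_vec2]
      have : Lf m k x = Complex.normSq x := by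
        rcases Finset.mem_insert.1 hx with rfl | h1
        · exact heq
        · exact hm x h1
      unfold Lf at this
      linear_combination this

/-- `T` is the vertex set of a triangular face. -/
def IsFace3 (S T : Finset E3) : Prop :=
  T ⊆ S ∧ T.card = 3 ∧ ∃ (n : E3) (c : ℝ), (∀ p ∈ T, ⟪n, p⟫ = c) ∧ ∀ p ∈ S, p ∉ T → ⟪n, p⟫ < c

open Classical in
/-- The set of the faces. -/
noncomputable def faces (S : Finset E3) : Finset (Finset E3) := S.powerset.filter (IsFace3 S)

theorem mem_faces {S T : Finset E3} : T ∈ faces S ↔ IsFace3 S T := by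
  classical
  unfold faces
  rw [Finset.mem_filter, Finset.mem_powerset]
  exact ⟨fun h => h.2, fun h => ⟨h.1, h⟩⟩

open Classical in
theorem faces_not_north (Z : Finset ℂ) :
    ((faces (SZ Z)).filter (fun T => north ∉ T)).card = (Del Z).card := by
  symm
  apply Finset.card_bij (fun (T : Finset ℂ) _ => T.image lift)
  · intro T hT
    obtain ⟨hTZ, hTc, m, k, hm, hm'⟩ := mem_Del.1 hT
    rw [Finset.mem_filter, mem_faces]
    have hnorth : north ∉ T.image lift := by
      rw [Finset.mem_image]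
      rintro ⟨z, -, hz⟩
      exact lift_ne_north z hz
    refine ⟨⟨?_, ?_, vec3 m.re m.im ((-1 - k) / 2), (1 - k) / 2, ?_, ?_⟩, hnorth⟩
    · intro y hy
      obtain ⟨z, hz, rfl⟩ := Finset.mem_image.1 hy
      exact mem_SZ.2 (Or.inr ⟨z, hTZ hz, rfl⟩)
    · rw [Finset.card_image_of_injective _ lift_injective, hTc]
    · intro y hy
      obtain ⟨z, hz, rfl⟩ := Finset.mem_image.1 hy
      rw [inner_lift_eq, co_vec0, co_vec1, co_vec2]
      have := hm z hz
      unfold Lf at this
      linear_combination this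
    · intro y hy hyT
      rcases mem_SZ.1 hy with rfl | ⟨z, hz, rfl⟩
      · rw [inner_north, co_vec2]; linarith
      · rw [inner_lift_lt, co_vec0, co_vec1, co_vec2]
        have := hm' z hz (fun h => hyT (Finset.mem_image_of_mem _ h))
        unfold Lf at this
        linarith
  · intro T _ T' _ h
    exact Finset.image_injective lift_injective h
  · intro T hT
    rw [Finset.mem_filter, mem_faces] at hT
    obtain ⟨⟨hTS, hTc, n, c, h1, h2⟩, hn⟩ := hT
    have hs : 0 < c - co 2 n := by
      have := h2 north (mem_SZ.2 (Or.inl rfl)) hn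
      rw [inner_north] at this
      linarith
    have hTimg : (Z.filter (fun z => lift z ∈ T)).image lift = T := by
      ext y
      rw [Finset.mem_image]
      constructor
      · rintro ⟨z, hz, rfl⟩
        exact (Finset.mem_filter.1 hz).2
      · intro hy
        rcases mem_SZ.1 (hTS hy) with rfl | ⟨z, hz, rfl⟩
        · exact absurd hy hn
        · exact ⟨z, Finset.mem_filter.2 ⟨hz, hy⟩, rfl⟩
    refine ⟨Z.filter (fun z => lift z ∈ T), ?_, hTimg⟩
    rw [mem_Del]
    refine ⟨Finset.filter_subset _ _, ?_, ⟨co 0 n / (c - co 2 n), co 1 n / (c - co 2 n)⟩,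
      -(co 2 n + c) / (c - co 2 n), ?_, ?_⟩
    · rw [← Finset.card_image_of_injective _ lift_injective, hTimg, hTc]
    · intro z hz
      have h3 := h1 _ (Finset.mem_filter.1 hz).2
      rw [inner_lift_eq] at h3
      unfold Lf
      simp only
      field_simp
      linarith
    · intro z hz hzT
      have h3 := h2 _ (mem_SZ.2 (Or.inr ⟨z, hz, rfl⟩)) (fun h => hzT (Finset.mem_filter.2 ⟨hz, h⟩))
      rw [inner_lift_lt] at h3
      unfold Lf
      simp only
      have e : 2 * (co 0 n / (c - co 2 n) * z.re + co 1 n / (c - co 2 n) * z.im) +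
          -(co 2 n + c) / (c - co 2 n) =
          (2 * (co 0 n * z.re + co 1 n * z.im) - (co 2 n + c)) / (c - co 2 n) := by
        field_simp
        ring
      rw [e, div_lt_iff₀ hs]
      linarith

open Classical in
theorem faces_north (Z : Finset ℂ) :
    ((faces (SZ Z)).filter (fun T => north ∈ T)).card = (HE Z).card := by
  symm
  apply Finset.card_bij (fun (E : Finset ℂ) _ => SZ E)
  · intro E hE
    obtain ⟨hEZ, hEc, n, c, h1, h2⟩ := mem_HE.1 hE
    rw [Finset.mem_filter, mem_faces]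
    refine ⟨⟨?_, ?_, vec3 n.re n.im c, c, ?_, ?_⟩, mem_SZ.2 (Or.inl rfl)⟩
    · intro y hy
      rcases mem_SZ.1 hy with rfl | ⟨z, hz, rfl⟩
      · exact mem_SZ.2 (Or.inl rfl)
      · exact mem_SZ.2 (Or.inr ⟨z, hEZ hz, rfl⟩)
    · rw [card_SZ, hEc]
    · intro y hy
      rcases mem_SZ.1 hy with rfl | ⟨z, hz, rfl⟩
      · rw [inner_north, co_vec2]
      · rw [inner_lift_eq, co_vec0, co_vec1, co_vec2]
        linear_combination 2 * h1 z hz
    · intro y hy hyT
      rcases mem_SZ.1 hy with rfl | ⟨z, hz, rfl⟩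
      · exact absurd (mem_SZ.2 (Or.inl rfl)) hyT
      · rw [inner_lift_lt, co_vec0, co_vec1, co_vec2]
        have := h2 z hz (fun h => hyT (mem_SZ.2 (Or.inr ⟨z, h, rfl⟩)))
        linarith
  · intro E _ E' _ h
    ext z
    have h1 := congrArg (fun S => lift z ∈ S) h
    simp only [mem_SZ, lift_ne_north, false_or, eq_iff_iff] at h1
    constructor
    · intro hz
      obtain ⟨z', hz', h3⟩ := h1.1 ⟨z, hz, rfl⟩
      rwa [← lift_injective h3]
    · intro hz
      obtain ⟨z', hz', h3⟩ := h1.2 ⟨z, hz, rfl⟩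
      rwa [← lift_injective h3]
  · intro T hT
    rw [Finset.mem_filter, mem_faces] at hT
    obtain ⟨⟨hTS, hTc, n, c, h1, h2⟩, hn⟩ := hT
    have hc : co 2 n = c := by
      have := h1 north hn
      rwa [inner_north] at this
    have hTimg : SZ (Z.filter (fun z => lift z ∈ T)) = T := by
      ext y
      rw [mem_SZ]
      constructor
      · rintro (rfl | ⟨z, hz, rfl⟩)
        · exact hn
        · exact (Finset.mem_filter.1 hz).2
      · intro hy
        rcases mem_SZ.1 (hTS hy) with rfl | ⟨z, hz, rfl⟩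
        · exact Or.inl rfl
        · exact Or.inr ⟨z, Finset.mem_filter.2 ⟨hz, hy⟩, rfl⟩
    refine ⟨Z.filter (fun z => lift z ∈ T), ?_, hTimg⟩
    rw [mem_HE]
    refine ⟨Finset.filter_subset _ _, ?_, ⟨co 0 n, co 1 n⟩, c, ?_, ?_⟩
    · have := congrArg Finset.card hTimg
      rw [card_SZ, hTc] at this
      omega
    · intro z hz
      have h3 := h1 _ (Finset.mem_filter.1 hz).2
      rw [inner_lift_eq, hc] at h3
      linarith
    · intro z hz hzT
      have h3 := h2 _ (mem_SZ.2 (Or.inr ⟨z, hz, rfl⟩)) (fun h => hzT (Finset.mem_filter.2 ⟨hz, h⟩))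
      rw [inner_lift_lt, hc] at h3
      linarith

/-- A set with the north pole is of the form `SZ Z`. -/
theorem exists_Z {S : Finset E3} (hu : ∀ p ∈ S, ‖p‖ = 1) (hn : north ∈ S) : ∃ Z, S = SZ Z := by
  classical
  have hlift : ∀ y ∈ S, y ≠ north →
      lift ⟨co 0 y / (1 - co 2 y), co 1 y / (1 - co 2 y)⟩ = y := by
    intro y hy hne
    have h1 : co 0 y ^ 2 + co 1 y ^ 2 + co 2 y ^ 2 = 1 := by
      rw [← norm_sq_co, hu y hy]; norm_num
    have h2 : 1 - co 2 y ≠ 0 := by
      intro h2
      have h3 : co 2 y = 1 := by linarith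
      rw [h3] at h1
      have h4 : co 0 y = 0 := by nlinarith [sq_nonneg (co 0 y), sq_nonneg (co 1 y)]
      have h5 : co 1 y = 0 := by nlinarith [sq_nonneg (co 0 y), sq_nonneg (co 1 y)]
      exact hne (ext_co (by rw [h4]; simp) (by rw [h5]; simp) (by rw [h3]; simp))
    have h3 : Complex.normSq ⟨co 0 y / (1 - co 2 y), co 1 y / (1 - co 2 y)⟩ =
        (1 + co 2 y) / (1 - co 2 y) := by
      rw [Complex.normSq_mk]
      field_simp
      linear_combination h1
    have h4 : (1 + co 2 y) / (1 - co 2 y) + 1 = 2 / (1 - co 2 y) := by field_simp; ring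
    apply ext_co
    · rw [co_lift0, h3, h4]; simp only; field_simp
    · rw [co_lift1, h3, h4]; simp only; field_simp
    · rw [co_lift2, h3, h4]; field_simp; ring
  refine ⟨(S.erase north).image (fun y => ⟨co 0 y / (1 - co 2 y), co 1 y / (1 - co 2 y)⟩), ?_⟩
  ext y
  rw [mem_SZ]
  constructor
  · intro hy
    by_cases h : y = north
    · exact Or.inl h
    · right
      exact ⟨_, Finset.mem_image_of_mem _ (Finset.mem_erase.2 ⟨h, hy⟩), hlift y hy h⟩
  · rintro (rfl | ⟨z, hz, rfl⟩)
    · exact hn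
    · obtain ⟨x, hx, rfl⟩ := Finset.mem_image.1 hz
      rw [hlift x (Finset.mem_of_mem_erase hx) (Finset.ne_of_mem_erase hx)]
      exact Finset.mem_of_mem_erase hx

/-! ### Rotations -/

theorem exists_rotation {w : E3} (hw : ‖w‖ = 1) : ∃ R : E3 ≃ₗᵢ[ℝ] E3, R w = north := by
  refine ⟨(ℝ ∙ (w - north))ᗮ.reflection, ?_⟩
  exact Submodule.reflection_sub (by rw [hw, norm_north])

section

variable (R : E3 ≃ₗᵢ[ℝ] E3) (S : Finset E3)

/-- The rotated set. -/
noncomputable def rot : Finset E3 := S.map R.toEquiv.toEmbedding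

theorem mem_rot {y : E3} : y ∈ rot R S ↔ R.symm y ∈ S := by
  unfold rot
  rw [Finset.mem_map]
  constructor
  · rintro ⟨x, hx, rfl⟩
    simpa using hx
  · intro h
    exact ⟨R.symm y, h, by simp⟩

theorem mem_rot_self {y : E3} : R y ∈ rot R S ↔ y ∈ S := by
  rw [mem_rot]; simp

theorem card_rot : (rot R S).card = S.card := Finset.card_map _

theorem rot_symm_rot : rot R.symm (rot R S) = S := by
  ext y
  rw [mem_rot, mem_rot]
  simp

theorem GPS_rot {S : Finset E3} (h : GPS S) : GPS (rot R S) := by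
  constructor
  · intro p hp
    rw [mem_rot] at hp
    rw [← h.unit _ hp]
    exact (R.symm.norm_map p).symm
  · intro T hT hTc n c hn
    have h1 := h.gen (rot R.symm T) ?_ (by rw [card_rot, hTc]) (R.symm n) c ?_
    · have := congrArg R h1
      simpa using this
    · intro y hy
      rw [mem_rot] at hy
      have := hT hy
      rw [mem_rot] at this
      simpa using this
    · intro p hp
      rw [mem_rot] at hp
      have := hn _ hp
      rw [← this]
      have h2 := R.symm.inner_map_map n (R p)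
      simpa using h2

theorem isFace3_rot {S T : Finset E3} (h : IsFace3 S T) : IsFace3 (rot R S) (rot R T) := by
  obtain ⟨h1, h2, n, c, h3, h4⟩ := h
  refine ⟨?_, by rw [card_rot, h2], R n, c, ?_, ?_⟩
  · intro y hy
    rw [mem_rot] at hy ⊢
    exact h1 hy
  · intro p hp
    rw [mem_rot] at hp
    rw [← h3 _ hp]
    have := R.inner_map_map n (R.symm p)
    simpa using this
  · intro p hp hpT
    rw [mem_rot] at hp hpT
    have := h4 _ hp hpT
    have h5 := R.inner_map_map n (R.symm p)
    rw [← h5] at this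
    simpa using this

open Classical in
theorem faces_rot_card (w : E3) :
    ((faces (rot R S)).filter (fun T => R w ∈ T)).card = ((faces S).filter (fun T => w ∈ T)).card ∧
    ((faces (rot R S)).filter (fun T => R w ∉ T)).card =
      ((faces S).filter (fun T => w ∉ T)).card := by
  constructor
  · symm
    apply Finset.card_bij (fun T _ => rot R T)
    · intro T hT
      rw [Finset.mem_filter, mem_faces] at hT ⊢
      exact ⟨isFace3_rot R hT.1, (mem_rot_self R T).2 hT.2⟩
    · intro T _ T' _ h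
      rw [← rot_symm_rot R T, ← rot_symm_rot R T', h]
    · intro T hT
      rw [Finset.mem_filter, mem_faces] at hT
      refine ⟨rot R.symm T, ?_, ?_⟩
      · rw [Finset.mem_filter, mem_faces]
        constructor
        · have := isFace3_rot R.symm hT.1
          rwa [rot_symm_rot] at this
        · rw [mem_rot]; simpa using hT.2
      · have := rot_symm_rot R.symm T
        simpa using this
  · symm
    apply Finset.card_bij (fun T _ => rot R T)
    · intro T hT
      rw [Finset.mem_filter, mem_faces] at hT ⊢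
      exact ⟨isFace3_rot R hT.1, fun h => hT.2 ((mem_rot_self R T).1 h)⟩
    · intro T _ T' _ h
      rw [← rot_symm_rot R T, ← rot_symm_rot R T', h]
    · intro T hT
      rw [Finset.mem_filter, mem_faces] at hT
      refine ⟨rot R.symm T, ?_, ?_⟩
      · rw [Finset.mem_filter, mem_faces]
        constructor
        · have := isFace3_rot R.symm hT.1
          rwa [rot_symm_rot] at this
        · rw [mem_rot]; simpa using hT.2
      · have := rot_symm_rot R.symm T
        simpa using this

theorem vol_rot : vol (rot R S) = vol S := by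
  have h1 : convexHull ℝ (rot R S : Set E3) = R '' convexHull ℝ (S : Set E3) := by
    have h2 : (rot R S : Set E3) = R.toLinearEquiv.toLinearMap '' (S : Set E3) := by
      unfold rot
      rw [Finset.coe_map]
      rfl
    rw [h2, ← LinearMap.image_convexHull]
    rfl
  unfold vol hypVol
  rw [h1]
  have h3 : R '' convexHull ℝ (S : Set E3) ∩ Metric.ball 0 1 =
      R '' (convexHull ℝ (S : Set E3) ∩ Metric.ball 0 1) := by
    rw [image_inter R.injective]
    congr 1
    ext y
    constructor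
    · intro hy
      refine ⟨R.symm y, ?_, by simp⟩
      rw [mem_ball_zero_iff] at hy ⊢
      rwa [R.symm.norm_map]
    · rintro ⟨x, hx, rfl⟩
      rw [mem_ball_zero_iff] at hx ⊢
      rwa [R.norm_map]
  rw [h3]
  have h4 := R.measurePreserving.setLIntegral_comp_emb
    R.toHomeomorph.measurableEmbedding (fun x => ENNReal.ofReal (1 / (1 - ‖x‖ ^ 2) ^ 2))
    (convexHull ℝ (S : Set E3) ∩ Metric.ball 0 1)
  rw [← h4]
  apply lintegral_congr
  intro x
  rw [R.norm_map]

end

open Classical in
/-- There is a vertex seen from which the convex hull has at least five extreme points. -/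
theorem exists_apex {S : Finset E3} (hS : GPS S) (hc : S.card = 8) :
    ∃ Z, GP Z ∧ Z.card = 7 ∧ vol S = vol (SZ Z) ∧ 5 ≤ (extr Z).card := by
  have hZ : ∀ w : E3, ∃ Z, w ∈ S → GP Z ∧ Z.card = 7 ∧ vol S = vol (SZ Z) ∧
      ((faces S).filter (fun T => w ∈ T)).card = (HE Z).card ∧
      ((faces S).filter (fun T => w ∉ T)).card = (Del Z).card := by
    intro w
    by_cases hw : w ∈ S
    · obtain ⟨R, hR⟩ := exists_rotation (hS.unit w hw)
      have h1 := GPS_rot R hS
      obtain ⟨Z, hZ⟩ := exists_Z h1.unit (by rw [← hR]; exact (mem_rot_self R S).2 hw)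
      refine ⟨Z, fun _ => ⟨?_, ?_, ?_, ?_, ?_⟩⟩
      · apply GPS.gp
        rw [← hZ]; exact h1
      · have := congrArg Finset.card hZ
        rw [card_rot, card_SZ] at this
        omega
      · rw [← hZ, vol_rot]
      · rw [← (faces_rot_card R S w).1, hR, hZ, faces_north]
      · rw [← (faces_rot_card R S w).2, hR, hZ, faces_not_north]
    · exact ⟨∅, fun h => absurd h hw⟩
  choose Zf hZf using hZ
  by_contra hcon
  push Not at hcon
  set F := (faces S).card with hF
  have h3F : ∑ w ∈ S, (HE (Zf w)).card = 3 * F := by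
    have e1 : ∀ w ∈ S, (HE (Zf w)).card = ∑ T ∈ faces S, if w ∈ T then 1 else 0 := by
      intro w hw
      rw [← (hZf w hw).2.2.2.1, Finset.card_filter]
    rw [Finset.sum_congr rfl e1, Finset.sum_comm]
    have e2 : ∀ T ∈ faces S, ∑ w ∈ S, (if w ∈ T then 1 else 0) = 3 := by
      intro T hT
      have hT' := mem_faces.1 hT
      rw [← Finset.sum_filter, Finset.sum_const, smul_eq_mul, mul_one]
      refine Eq.trans ?_ hT'.2.1
      congr 1
      ext x
      rw [Finset.mem_filter]
      exact ⟨fun h => h.2, fun h => ⟨hT'.1 h, h⟩⟩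
    rw [Finset.sum_congr rfl e2, Finset.sum_const, smul_eq_mul, mul_comm]
  have hw : ∀ w ∈ S, (HE (Zf w)).card + 8 ≤ F ∧ F ≤ 12 := by
    intro w hw
    obtain ⟨h1, h2, h3, h4, h5⟩ := hZf w hw
    have h6 := count h1 (by omega)
    have h7 := HE_card_le (Zf w)
    have h8 := hcon (Zf w) h1 h2 h3
    have h9 : (HE (Zf w)).card + (Del (Zf w)).card = F := by
      rw [← h4, ← h5, hF]
      exact Finset.card_filter_add_card_filter_not _
    omega
  have hne : S.Nonempty := Finset.card_pos.1 (by omega)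
  obtain ⟨w₀, hw₀⟩ := hne
  have h1 := (hw w₀ hw₀).2
  have h2 : ∑ w ∈ S, ((HE (Zf w)).card + 8) ≤ ∑ _w ∈ S, F :=
    Finset.sum_le_sum fun w hw' => (hw w hw').1
  rw [Finset.sum_add_distrib, h3F, Finset.sum_const, Finset.sum_const, hc, smul_eq_mul,
    smul_eq_mul] at h2
  omega

end Pool.Agent.Lib.MP_b9d07b_gt
end

section
set_option autoImplicit false

/-!
# Reduction to vertex sets in general position
-/

open MeasureTheory Set Filter Topology Real
open scoped ENNReal RealInnerProductSpace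

namespace Pool.Agent.Lib.MP_b9d07b_gt

/-! ### Lower semicontinuity of the volume -/

open Classical in
theorem mem_hull_of_close {S : Finset E3} {f : E3 → E3} {ε : ℝ} (hε : 0 < ε)
    (hf : ∀ p ∈ S, ‖f p - p‖ < ε) {y : E3}
    (hy : Metric.closedBall y ε ⊆ convexHull ℝ (S : Set E3)) :
    y ∈ convexHull ℝ ((S.image f : Finset E3) : Set E3) := by
  by_contra hn
  have hcl : IsClosed (convexHull ℝ ((S.image f : Finset E3) : Set E3)) :=
    (S.image f).finite_toSet.isClosed_convexHull ℝ
  obtain ⟨g, u, h1, h2⟩ := geometric_hahn_banach_closed_point (convex_convexHull ℝ _) hcl hn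
  set v : E3 := (InnerProductSpace.toDual ℝ E3).symm g with hvdef
  have hv : ∀ x, ⟪v, x⟫ = g x := fun x => InnerProductSpace.toDual_symm_apply
  have hmem : ∀ p ∈ S, g (f p) < u := fun p hp =>
    h1 (f p) (subset_convexHull _ _ (Finset.mem_coe.2 (Finset.mem_image_of_mem f hp)))
  have hyS : y ∈ convexHull ℝ (S : Set E3) := hy (Metric.mem_closedBall_self hε.le)
  have hne : S.Nonempty := by
    rw [Finset.nonempty_iff_ne_empty]
    rintro rfl
    simp at hyS
  have hv0 : v ≠ 0 := by
    intro h0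
    obtain ⟨p, hp⟩ := hne
    have h3 := hmem p hp
    have e := hv (f p)
    have e' := hv y
    rw [h0, inner_zero_left] at e e'
    linarith
  have hnv : 0 < ‖v‖ := norm_pos_iff.2 hv0
  have hz : y + (ε / ‖v‖) • v ∈ convexHull ℝ (S : Set E3) := by
    apply hy
    rw [Metric.mem_closedBall, dist_eq_norm, add_sub_cancel_left, norm_smul, Real.norm_eq_abs,
      abs_of_pos (by positivity), div_mul_cancel₀ _ hnv.ne']
  have hgz : g (y + (ε / ‖v‖) • v) = g y + ε * ‖v‖ := by
    rw [← hv, inner_add_right, inner_smul_right, real_inner_self_eq_norm_sq, hv]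
    field_simp
  obtain ⟨p, hp, hpz⟩ : ∃ p ∈ S, g (y + (ε / ‖v‖) • v) ≤ g p := by
    by_contra hc
    push Not at hc
    have : convexHull ℝ (S : Set E3) ⊆ {x | g x < g (y + (ε / ‖v‖) • v)} :=
      convexHull_min hc (convex_halfSpace_lt g.toLinearMap.isLinear _)
    have h9 : g (y + (ε / ‖v‖) • v) < g (y + (ε / ‖v‖) • v) := this hz
    exact lt_irrefl _ h9
  have h3 := hmem p hp
  have h4 : g (f p) = g p + ⟪v, f p - p⟫ := by rw [hv, map_sub]; ring
  have h5 : |⟪v, f p - p⟫| ≤ ‖v‖ * ‖f p - p‖ := abs_real_inner_le_norm _ _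
  have h6 := hf p hp
  have h7 := (abs_le.1 h5).1
  nlinarith

open Classical in
theorem vol_le_of_approx {S : Finset E3} {c : ℝ≥0∞}
    (h : ∀ ε : ℝ, 0 < ε → ∃ f : E3 → E3, (∀ p ∈ S, ‖f p - p‖ < ε) ∧ vol (S.image f) ≤ c) :
    vol S ≤ c := by
  have h' : ∀ k : ℕ, ∃ f : E3 → E3, (∀ p ∈ S, ‖f p - p‖ < 1 / ((k : ℝ) + 1)) ∧
      vol (S.image f) ≤ c := fun k => h _ (by positivity)
  choose f hf hv using h'
  set w : E3 → ℝ≥0∞ := fun x => ENNReal.ofReal (1 / (1 - ‖x‖ ^ 2) ^ 2) with hwdef
  have hw : Measurable w := by fun_prop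
  set B := Metric.ball (0 : E3) 1 with hBdef
  have hB : MeasurableSet B := measurableSet_ball
  have hm : ∀ T : Finset E3, MeasurableSet (convexHull ℝ (T : Set E3) ∩ B) := fun T =>
    (measurable_hull3 T).inter hB
  have e1 : vol S = ∫⁻ x, (interior (convexHull ℝ (S : Set E3)) ∩ B).indicator w x := by
    rw [lintegral_indicator (isOpen_interior.measurableSet.inter hB)]
    unfold vol hypVol
    apply setLIntegral_congr
    apply Filter.EventuallyEq.inter _ (ae_eq_refl _)
    exact (interior_ae_eq_of_null_frontier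
      (Convex.addHaar_frontier volume (convex_convexHull ℝ _))).symm
  have e2 : ∀ x, (interior (convexHull ℝ (S : Set E3)) ∩ B).indicator w x ≤
      liminf (fun k => (convexHull ℝ ((S.image (f k) : Finset E3) : Set E3) ∩ B).indicator w x)
        atTop := by
    intro x
    by_cases hx : x ∈ interior (convexHull ℝ (S : Set E3)) ∩ B
    · rw [indicator_of_mem hx]
      obtain ⟨ε, hε, hb⟩ := Metric.nhds_basis_closedBall.mem_iff.1
        (mem_interior_iff_mem_nhds.1 hx.1)
      have hk : ∀ᶠ k : ℕ in atTop, 1 / ((k : ℝ) + 1) < ε :=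
        (tendsto_one_div_add_atTop_nhds_zero_nat (𝕜 := ℝ)).eventually (gt_mem_nhds hε)
      apply le_liminf_of_le
      · isBoundedDefault
      · filter_upwards [hk] with k hk
        rw [indicator_of_mem]
        exact ⟨mem_hull_of_close hε (fun p hp => (hf k p hp).trans hk) hb, hx.2⟩
    · rw [indicator_of_notMem hx]; exact bot_le
  calc vol S = ∫⁻ x, (interior (convexHull ℝ (S : Set E3)) ∩ B).indicator w x := e1
    _ ≤ ∫⁻ x, liminf (fun k => (convexHull ℝ ((S.image (f k) : Finset E3) : Set E3) ∩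
          B).indicator w x) atTop := lintegral_mono e2
    _ ≤ liminf (fun k => ∫⁻ x, (convexHull ℝ ((S.image (f k) : Finset E3) : Set E3) ∩
          B).indicator w x) atTop := lintegral_liminf_le (fun k => hw.indicator (hm _))
    _ ≤ c := by
      apply liminf_le_of_frequently_le'
      apply Frequently.of_forall
      intro k
      rw [lintegral_indicator (hm _)]
      exact hv k

/-! ### Points of the sphere avoiding finitely many planes -/

theorem exists_perp {x : E3} (hx : ‖x‖ = 1) : ∃ w : E3, ‖w‖ = 1 ∧ ⟪x, w⟫ = 0 := by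
  obtain ⟨R, hR⟩ := exists_rotation hx
  refine ⟨R.symm (vec3 1 0 0), ?_, ?_⟩
  · rw [R.symm.norm_map]
    have h : ‖vec3 1 0 0‖ ^ 2 = 1 := by rw [norm_sq_co]; simp
    nlinarith [norm_nonneg (vec3 1 0 0)]
  · have := R.inner_map_map x (R.symm (vec3 1 0 0))
    rw [R.apply_symm_apply, hR] at this
    rw [← this, inner_co]
    simp

theorem rotate_norm {x w : E3} (hx : ‖x‖ = 1) (hw : ‖w‖ = 1) (hxw : ⟪x, w⟫ = 0) (t : ℝ) :
    ‖cos t • x + sin t • w‖ = 1 := by
  have h : ‖cos t • x + sin t • w‖ ^ 2 = 1 := by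
    rw [norm_add_sq_real, norm_smul, norm_smul, hx, hw, inner_smul_left, inner_smul_right, hxw]
    simp
  nlinarith [norm_nonneg (cos t • x + sin t • w)]

theorem avoid_one {n : E3} {c : ℝ} (hn : n ≠ 0) {x : E3} (hx : ‖x‖ = 1) {ε : ℝ} (hε : 0 < ε) :
    ∃ q : E3, ‖q‖ = 1 ∧ ‖q - x‖ < ε ∧ ⟪n, q⟫ ≠ c := by
  by_contra hcon
  push Not at hcon
  have hx0 : ⟪n, x⟫ = c := hcon x hx (by simpa using hε)
  have key : ∀ w : E3, ‖w‖ = 1 → ⟪x, w⟫ = 0 → ⟪n, w⟫ = 0 ∧ c = 0 := by
    intro w hw hxw
    have hcont : Continuous fun t : ℝ => cos t • x + sin t • w - x := by fun_prop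
    have h0 : ∀ᶠ t in 𝓝 (0 : ℝ), ‖cos t • x + sin t • w - x‖ < ε := by
      have h1 : Tendsto (fun t : ℝ => ‖cos t • x + sin t • w - x‖) (𝓝 0) (𝓝 0) := by
        have := hcont.norm.tendsto (0 : ℝ)
        simpa using this
      exact h1.eventually (gt_mem_nhds hε)
    obtain ⟨δ, hδ, hb⟩ := Metric.eventually_nhds_iff.1 h0
    obtain ⟨t, ht0, ht1, ht2⟩ : ∃ t : ℝ, 0 < t ∧ t < δ ∧ t ≤ 1 :=
      ⟨min (δ / 2) 1, by positivity, (min_le_left _ _).trans_lt (by linarith), min_le_right _ _⟩
    have e1 := hcon _ (rotate_norm hx hw hxw t)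
      (hb (by rw [dist_zero_right, Real.norm_eq_abs, abs_of_pos ht0]; exact ht1))
    have e2 := hcon _ (rotate_norm hx hw hxw (-t))
      (hb (by rw [dist_zero_right, Real.norm_eq_abs, abs_neg, abs_of_pos ht0]; exact ht1))
    rw [inner_add_right, inner_smul_right, inner_smul_right, hx0] at e1 e2
    rw [Real.cos_neg, Real.sin_neg] at e2
    have hs : 0 < sin t := Real.sin_pos_of_pos_of_lt_pi ht0 (by linarith [Real.pi_gt_three])
    constructor
    · have h3 : sin t * ⟪n, w⟫ = 0 := by linarith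
      exact (mul_eq_zero.1 h3).resolve_left hs.ne'
    · have h3 : (1 - cos t) * c = 0 := by linarith
      refine (mul_eq_zero.1 h3).resolve_left ?_
      intro h4
      have h5 := Real.sin_sq_add_cos_sq t
      have h6 : cos t = 1 := by linarith
      rw [h6] at h5
      nlinarith
  obtain ⟨w, hw, hxw⟩ := exists_perp hx
  have hc := (key w hw hxw).2
  have hnn : 0 < ‖n‖ := norm_pos_iff.2 hn
  have h1 := (key (‖n‖⁻¹ • n) (by rw [norm_smul, norm_inv, norm_norm, inv_mul_cancel₀ hnn.ne'])
    (by rw [inner_smul_right, real_inner_comm, hx0, hc, mul_zero])).1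
  rw [inner_smul_right, real_inner_self_eq_norm_sq] at h1
  have h2 : ‖n‖⁻¹ * ‖n‖ ^ 2 = ‖n‖ := by field_simp
  linarith

theorem avoid_many (F : Finset (E3 × ℝ)) (hF : ∀ i ∈ F, i.1 ≠ 0) : ∀ {x : E3}, ‖x‖ = 1 →
    ∀ {ε : ℝ}, 0 < ε → ∃ q : E3, ‖q‖ = 1 ∧ ‖q - x‖ < ε ∧ ∀ i ∈ F, ⟪i.1, q⟫ ≠ i.2 := by
  classical
  induction F using Finset.induction_on with
  | empty => intro x hx ε hε; exact ⟨x, hx, by simpa using hε, by simp⟩
  | insert i s hi ih =>
    intro x hx ε hε
    obtain ⟨q, hq, hqx, hqs⟩ := ih (fun j hj => hF j (Finset.mem_insert_of_mem hj)) hx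
      (half_pos hε)
    have hopen : ∀ᶠ y in 𝓝 q, ∀ j ∈ s, ⟪j.1, y⟫ ≠ j.2 := by
      rw [Filter.eventually_all_finset]
      intro j hj
      have : Continuous fun y : E3 => ⟪j.1, y⟫ := by fun_prop
      exact this.continuousAt.eventually_ne (hqs j hj)
    obtain ⟨δ, hδ, hb⟩ := Metric.eventually_nhds_iff.1 hopen
    obtain ⟨q', hq', hqq', hne⟩ := avoid_one (c := i.2) (hF i (Finset.mem_insert_self _ _)) hq
      (lt_min hδ (half_pos hε))
    refine ⟨q', hq', ?_, ?_⟩
    · have h1 : ‖q' - q‖ < ε / 2 := lt_of_lt_of_le hqq' (min_le_right _ _)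
      calc ‖q' - x‖ = ‖(q' - q) + (q - x)‖ := by congr 1; abel
        _ ≤ ‖q' - q‖ + ‖q - x‖ := norm_add_le _ _
        _ < ε := by linarith
    · intro j hj
      rcases Finset.mem_insert.1 hj with rfl | hj
      · exact hne
      · exact hb (by rw [dist_eq_norm]; exact lt_of_lt_of_le hqq' (min_le_left _ _)) j hj

/-! ### The plane through three points -/

/-- The cross product. -/
noncomputable def crs (u v : E3) : E3 :=
  vec3 (co 1 u * co 2 v - co 2 u * co 1 v) (co 2 u * co 0 v - co 0 u * co 2 v)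
    (co 0 u * co 1 v - co 1 u * co 0 v)

theorem crs_ne {a b d : E3} (ha : ‖a‖ = 1) (hb : ‖b‖ = 1) (hd : ‖d‖ = 1) (hab : a ≠ b)
    (had : a ≠ d) (hbd : b ≠ d) : crs (b - a) (d - a) ≠ 0 := by
  intro h
  have c0 := congrArg (co 0) h
  have c1 := congrArg (co 1) h
  have c2 := congrArg (co 2) h
  simp only [crs, co_vec0, co_vec1, co_vec2, map_zero] at c0 c1 c2
  obtain ⟨u, hu⟩ : ∃ u, u = b - a := ⟨_, rfl⟩
  obtain ⟨v, hv⟩ : ∃ v, v = d - a := ⟨_, rfl⟩
  rw [← hu, ← hv] at c0 c1 c2
  have hb' : b = a + u := by rw [hu]; abel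
  have hd' : d = a + v := by rw [hv]; abel
  have na : co 0 a ^ 2 + co 1 a ^ 2 + co 2 a ^ 2 = 1 := by rw [← norm_sq_co, ha, one_pow]
  have nb : co 0 b ^ 2 + co 1 b ^ 2 + co 2 b ^ 2 = 1 := by rw [← norm_sq_co, hb, one_pow]
  have nd : co 0 d ^ 2 + co 1 d ^ 2 + co 2 d ^ 2 = 1 := by rw [← norm_sq_co, hd, one_pow]
  rw [hb', map_add, map_add, map_add] at nb
  rw [hd', map_add, map_add, map_add] at nd
  have hu0 : u ≠ 0 := by rw [hu]; exact sub_ne_zero.2 hab.symm
  have hv0 : v ≠ 0 := by rw [hv]; exact sub_ne_zero.2 had.symm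
  have huv : u ≠ v := by
    rw [hu, hv]
    intro h'
    exact hbd (sub_left_injective h')
  have nu : 0 < co 0 u ^ 2 + co 1 u ^ 2 + co 2 u ^ 2 := by
    rw [← norm_sq_co]; have := norm_pos_iff.2 hu0; positivity
  have nv : 0 < co 0 v ^ 2 + co 1 v ^ 2 + co 2 v ^ 2 := by
    rw [← norm_sq_co]; have := norm_pos_iff.2 hv0; positivity
  generalize co 0 a = a0 at *
  generalize co 1 a = a1 at *
  generalize co 2 a = a2 at *
  have key : co 0 u = co 0 v ∧ co 1 u = co 1 v ∧ co 2 u = co 2 v := by
    generalize co 0 u = u0 at *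
    generalize co 1 u = u1 at *
    generalize co 2 u = u2 at *
    generalize co 0 v = v0 at *
    generalize co 1 v = v1 at *
    generalize co 2 v = v2 at *
    obtain ⟨α, hα⟩ : ∃ α, α = u0 ^ 2 + u1 ^ 2 + u2 ^ 2 := ⟨_, rfl⟩
    obtain ⟨β, hβ⟩ : ∃ β, β = u0 * v0 + u1 * v1 + u2 * v2 := ⟨_, rfl⟩
    obtain ⟨γ, hγ⟩ : ∃ γ, γ = v0 ^ 2 + v1 ^ 2 + v2 ^ 2 := ⟨_, rfl⟩
    rw [← hα] at nu
    rw [← hγ] at nv
    have au : 2 * (a0 * u0 + a1 * u1 + a2 * u2) = - α := by rw [hα]; linarith
    have av : 2 * (a0 * v0 + a1 * v1 + a2 * v2) = - γ := by rw [hγ]; linarith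
    have e0 : α * v0 = β * u0 := by
      rw [hα, hβ]; linear_combination u2 * c1 + (-u1) * c2
    have e1 : α * v1 = β * u1 := by
      rw [hα, hβ]; linear_combination (-u2) * c0 + u0 * c2
    have e2 : α * v2 = β * u2 := by
      rw [hα, hβ]; linear_combination u1 * c0 + (-u0) * c1
    have h1 : α * (γ - β) = 0 := by
      linear_combination (-2 * a0) * e0 + (-2 * a1) * e1 + (-2 * a2) * e2 + (-β) * au + α * av
    have h2 : γ = β := by
      have := (mul_eq_zero.1 h1).resolve_left nu.ne'
      linarith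
    have h3 : α * γ = β * β := by
      rw [hγ]
      have : β * β = β * (u0 * v0 + u1 * v1 + u2 * v2) := by rw [← hβ]
      rw [this]
      linear_combination v0 * e0 + v1 * e1 + v2 * e2
    have h4 : α = γ := by
      rw [← h2] at h3
      exact mul_right_cancel₀ nv.ne' h3
    rw [← h2, ← h4] at e0 e1 e2
    exact ⟨(mul_left_cancel₀ nu.ne' e0).symm, (mul_left_cancel₀ nu.ne' e1).symm,
      (mul_left_cancel₀ nu.ne' e2).symm⟩
  exact huv (ext_co key.1 key.2.1 key.2.2)

theorem crs_gen {a b d q n : E3} {c : ℝ} (ha : ⟪n, a⟫ = c) (hb : ⟪n, b⟫ = c) (hd : ⟪n, d⟫ = c)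
    (hq : ⟪n, q⟫ = c) (h : ⟪crs (b - a) (d - a), q⟫ ≠ ⟪crs (b - a) (d - a), a⟫) : n = 0 := by
  have h1 : ⟪n, b - a⟫ = 0 := by rw [inner_sub_right, ha, hb, sub_self]
  have h2 : ⟪n, d - a⟫ = 0 := by rw [inner_sub_right, ha, hd, sub_self]
  have h3 : ⟪n, q - a⟫ = 0 := by rw [inner_sub_right, ha, hq, sub_self]
  have h4 : ⟪crs (b - a) (d - a), q - a⟫ ≠ 0 := by rw [inner_sub_right]; exact sub_ne_zero.2 h
  generalize b - a = u at *
  generalize d - a = v at *
  generalize q - a = w at *
  rw [inner_co] at h1 h2 h3 h4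
  simp only [crs, co_vec0, co_vec1, co_vec2] at h4
  refine ext_co ?_ ?_ ?_ <;> rw [map_zero] <;> refine (mul_eq_zero.1 ?_).resolve_left h4
  · linear_combination (co 1 v * co 2 w - co 2 v * co 1 w) * h1 +
      (co 1 w * co 2 u - co 2 w * co 1 u) * h2 + (co 1 u * co 2 v - co 2 u * co 1 v) * h3
  · linear_combination (co 2 v * co 0 w - co 0 v * co 2 w) * h1 +
      (co 2 w * co 0 u - co 0 w * co 2 u) * h2 + (co 2 u * co 0 v - co 0 u * co 2 v) * h3
  · linear_combination (co 0 v * co 1 w - co 1 v * co 0 w) * h1 +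
      (co 0 w * co 1 u - co 1 w * co 0 u) * h2 + (co 0 u * co 1 v - co 1 u * co 0 v) * h3

/-! ### Density of general position -/

open Classical in
theorem exists_generic (S : Finset E3) (hS : ∀ p ∈ S, ‖p‖ = 1) {ε : ℝ} (hε : 0 < ε) :
    ∃ f : E3 → E3, (∀ p ∈ S, ‖f p - p‖ < ε) ∧ GPS (S.image f) ∧ (S.image f).card = S.card := by
  induction S using Finset.induction_on with
  | empty =>
    refine ⟨id, by simp, ⟨by simp, fun T hT hc => ?_⟩, by simp⟩
    rw [Finset.image_empty, Finset.subset_empty] at hT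
    rw [hT] at hc
    simp at hc
  | insert p S hp ih =>
    obtain ⟨f, hf, hG, hc⟩ := ih (fun q hq => hS q (Finset.mem_insert_of_mem hq))
    obtain ⟨T, hT⟩ : ∃ T, T = S.image f := ⟨_, rfl⟩
    rw [← hT] at hG hc
    set F : Finset (E3 × ℝ) := (((T ×ˢ T ×ˢ T).filter
      (fun t => t.1 ≠ t.2.1 ∧ t.1 ≠ t.2.2 ∧ t.2.1 ≠ t.2.2)).image
      (fun t => (crs (t.2.1 - t.1) (t.2.2 - t.1), ⟪crs (t.2.1 - t.1) (t.2.2 - t.1), t.1⟫))) ∪
      T.image (fun a => (a, 1)) with hFdef
    have hF : ∀ i ∈ F, i.1 ≠ 0 := by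
      intro i hi
      rw [hFdef, Finset.mem_union, Finset.mem_image, Finset.mem_image] at hi
      rcases hi with ⟨t, ht, rfl⟩ | ⟨a, ha, rfl⟩
      · rw [Finset.mem_filter, Finset.mem_product, Finset.mem_product] at ht
        exact crs_ne (hG.unit _ ht.1.1) (hG.unit _ ht.1.2.1) (hG.unit _ ht.1.2.2) ht.2.1
          ht.2.2.1 ht.2.2.2
      · have := hG.unit a ha
        intro h0
        simp only at h0
        rw [h0, norm_zero] at this
        exact zero_ne_one this
    obtain ⟨q, hq1, hq2, hq3⟩ := avoid_many F hF (hS p (Finset.mem_insert_self _ _)) hε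
    have hqT : q ∉ T := by
      intro hqT
      have := hq3 (q, 1) (Finset.mem_union_right _ (Finset.mem_image_of_mem _ hqT))
      rw [real_inner_self_eq_norm_sq, hq1] at this
      exact this (by norm_num)
    have hpl : ∀ a ∈ T, ∀ b ∈ T, ∀ d ∈ T, a ≠ b → a ≠ d → b ≠ d →
        ⟪crs (b - a) (d - a), q⟫ ≠ ⟪crs (b - a) (d - a), a⟫ := by
      intro a ha b hb d hd hab had hbd
      have hm : (a, b, d) ∈ (T ×ˢ T ×ˢ T).filter
          (fun t => t.1 ≠ t.2.1 ∧ t.1 ≠ t.2.2 ∧ t.2.1 ≠ t.2.2) :=
        Finset.mem_filter.2 ⟨Finset.mem_product.2 ⟨ha, Finset.mem_product.2 ⟨hb, hd⟩⟩,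
          hab, had, hbd⟩
      exact hq3 _ (Finset.mem_union_left _ (Finset.mem_image_of_mem
        (fun t : E3 × E3 × E3 => (crs (t.2.1 - t.1) (t.2.2 - t.1),
          ⟪crs (t.2.1 - t.1) (t.2.2 - t.1), t.1⟫)) hm))
    have him : (insert p S).image (Function.update f p q) = insert q T := by
      rw [Finset.image_insert, Function.update_self, hT]
      congr 1
      apply Finset.image_congr
      intro x hx
      have hxp : x ≠ p := fun h => hp (h ▸ hx)
      exact Function.update_of_ne hxp _ _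
    refine ⟨Function.update f p q, ?_, ?_, ?_⟩
    · intro x hx
      by_cases hxp : x = p
      · rw [hxp, Function.update_self]; exact hq2
      · rw [Function.update_of_ne hxp]
        exact hf x (Finset.mem_of_mem_insert_of_ne hx hxp)
    · rw [him]
      constructor
      · intro x hx
        rcases Finset.mem_insert.1 hx with rfl | hx
        · exact hq1
        · exact hG.unit x hx
      · intro U hU hUc n c hn
        by_cases hqU : q ∈ U
        · have h3 : (U.erase q).card = 3 := by rw [Finset.card_erase_of_mem hqU, hUc]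
          obtain ⟨a, b, d, hab, had, hbd, hU3⟩ := Finset.card_eq_three.1 h3
          have hsub : ∀ x ∈ U.erase q, x ∈ T ∧ ⟪n, x⟫ = c := by
            intro x hx
            obtain ⟨h4, h5⟩ := Finset.mem_erase.1 hx
            exact ⟨(Finset.mem_insert.1 (hU h5)).resolve_left h4, hn x h5⟩
          obtain ⟨ha1, ha2⟩ := hsub a (by rw [hU3]; simp)
          obtain ⟨hb1, hb2⟩ := hsub b (by rw [hU3]; simp)
          obtain ⟨hd1, hd2⟩ := hsub d (by rw [hU3]; simp)
          exact crs_gen ha2 hb2 hd2 (hn q hqU) (hpl a ha1 b hb1 d hd1 hab had hbd)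
        · refine hG.gen U (fun x hx => ?_) hUc n c hn
          rcases Finset.mem_insert.1 (hU hx) with rfl | h4
          · exact absurd hx hqU
          · exact h4
    · rw [him, Finset.card_insert_of_notMem hqT, Finset.card_insert_of_notMem hp, hc]

/-- It is enough to bound the volume for vertex sets in general position. -/
theorem vol_le_of_generic {c : ℝ≥0∞} (h : ∀ S : Finset E3, GPS S → S.card = 8 → vol S ≤ c)
    (S : Finset E3) (hS : IsIdealPoly 8 S) : vol S ≤ c := by
  classical
  apply vol_le_of_approx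
  intro ε hε
  obtain ⟨f, h1, h2, h3⟩ := exists_generic S hS.2.1 hε
  exact ⟨f, h1, h _ h2 (h3.trans hS.1)⟩

end Pool.Agent.Lib.MP_b9d07b_gt
end
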