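import Pool.Agent.Lib.MP_b9d07b_gt.Upper
import Pool.Agent.Lib.MP_b9d07b_gt.ExDefs
import Pool.Agent.Lib.MP_b9d07b_gt.Perturb

section
set_option autoImplicit false

/-!
# Inequalities for the Lobachevsky function
-/

open MeasureTheory Set Filter Topology Real

namespace Pool.Agent.Lib.MP_b9d07b_gt

/-- The volume of an ideal tetrahedron is nonnegative. -/
theorem vt_nonneg {A B C : ℝ} (hA : 0 < A) (hB : 0 < B) (hC : 0 < C) (hs : A + B + C = π) :
    0 ≤ Lob A + Lob B + Lob C := by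
  have i1 : IntervalIntegrable (fun θ => lg (C + θ)) volume 0 A := by
    have := (lg_int (C + 0) (C + A)).comp_add_left C
    simpa using this
  have i2 : IntervalIntegrable (fun θ => lg (B + θ)) volume 0 A := by
    have := (lg_int (B + 0) (B + A)).comp_add_left B
    simpa using this
  have i4 : IntervalIntegrable (fun θ => lg (A - θ)) volume 0 A := by
    have := (lg_int (A - 0) (A - A)).comp_sub_left A
    simpa using this
  have i3 := lg_int 0 A
  have h1 : ∫ θ in (0 : ℝ)..A, (lg (C + θ) + lg (B + θ) - lg θ - lg (A - θ)) / 2 =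
      Lob A + Lob B + Lob C := by
    rw [intervalIntegral.integral_div, intervalIntegral.integral_sub ((i1.add i2).sub i3) i4,
      intervalIntegral.integral_sub (i1.add i2) i3, intervalIntegral.integral_add i1 i2,
      intervalIntegral.integral_comp_add_left (fun t => lg t) C,
      intervalIntegral.integral_comp_add_left (fun t => lg t) B,
      intervalIntegral.integral_comp_sub_left (fun t => lg t) A]
    rw [int_lg, int_lg, int_lg, int_lg, sub_self, sub_zero, Lob_zero, add_zero, add_zero]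
    have e2 : C + A = π - B := by linarith
    have e3 : B + A = π - C := by linarith
    rw [e2, e3, Lob_pi_sub, Lob_pi_sub]
    ring
  rw [← h1, intervalIntegral.integral_of_le hA.le, integral_Ioc_eq_integral_Ioo]
  apply setIntegral_nonneg measurableSet_Ioo
  intro θ hθ
  have sBθ : 0 < sin (B + θ) := Real.sin_pos_of_pos_of_lt_pi (by linarith [hθ.1]) (by linarith [hθ.2])
  have sCθ : 0 < sin (C + θ) := Real.sin_pos_of_pos_of_lt_pi (by linarith [hθ.1]) (by linarith [hθ.2])
  have sθ : 0 < sin θ := Real.sin_pos_of_pos_of_lt_pi hθ.1 (by linarith [hθ.2])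
  have sAθ : 0 < sin (A - θ) := Real.sin_pos_of_pos_of_lt_pi (by linarith [hθ.2]) (by linarith [hθ.1])
  have sB : 0 < sin B := Real.sin_pos_of_pos_of_lt_pi hB (by linarith)
  have sC : 0 < sin C := Real.sin_pos_of_pos_of_lt_pi hC (by linarith)
  have h2 := id2 hs θ
  have : lg θ + lg (A - θ) ≤ lg (C + θ) + lg (B + θ) := by
    unfold lg
    rw [← Real.log_mul (by positivity) (by positivity), ← Real.log_mul (by positivity) (by positivity)]
    apply Real.log_le_log (by positivity)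
    nlinarith [mul_pos sB sC]
  linarith

theorem Lob_pi_three : 3 * Lob (π / 3) = 2 * Lob (π / 6) := by
  have h := Lob_two_mul (θ := π / 6) (by positivity) (by linarith [Real.pi_pos])
  have e1 : 2 * (π / 6) = π / 3 := by ring
  have e2 : π / 2 - π / 6 = π / 3 := by ring
  rw [e1, e2] at h
  linarith

theorem lg_pi_six : lg (π / 6) = 0 := by
  unfold lg
  rw [Real.sin_pi_div_six]
  norm_num

theorem Lob_two_pi_three : Lob (2 * π / 3) = - Lob (π / 3) := by
  rw [← Lob_pi_sub]; congr 1; ring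

/-- The volume of an ideal tetrahedron is at most `3 Λ(π/3) = 2 Λ(π/6)`. -/
theorem vt_le_v3 {A B C : ℝ} (hA : 0 < A) (hB : 0 < B) (hC : 0 < C) (hs : A + B + C = π) :
    Lob A + Lob B + Lob C ≤ 2 * Lob (π / 6) := by
  have hp : 0 < π / 3 := by positivity
  have h := tangent hA hB hC hs hp hp hp (by ring)
  have h3 := Lob_pi_three
  have : lg (π / 3) * (A - π / 3) + lg (π / 3) * (B - π / 3) + lg (π / 3) * (C - π / 3) = 0 := by
    linear_combination lg (π / 3) * hs
  linarith

/-- Tangent inequality at an isosceles triangle. -/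
theorem vt_iso {A B C A0 : ℝ} (hA : 0 < A) (hB : 0 < B) (hC : 0 < C) (hs : A + B + C = π)
    (hA0 : 0 < A0) (hA1 : A0 < π) :
    Lob A + Lob B + Lob C ≤ Lob A0 + 2 * Lob ((π - A0) / 2) - lg (A0 / 2) * (A - A0) := by
  have hp : 0 < (π - A0) / 2 := by linarith
  have h := tangent hA hB hC hs hA0 hp hp (by ring)
  have hlg : lg A0 = lg (A0 / 2) + lg ((π - A0) / 2) := by
    unfold lg
    have e1 : (π - A0) / 2 = π / 2 - A0 / 2 := by ring
    have s1 : 0 < sin (A0 / 2) := Real.sin_pos_of_pos_of_lt_pi (by linarith) (by linarith)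
    have s2 : 0 < cos (A0 / 2) := Real.cos_pos_of_mem_Ioo ⟨by linarith, by linarith⟩
    rw [e1, Real.sin_pi_div_two_sub, ← Real.log_mul (by positivity) (by positivity)]
    congr 1
    have e2 : A0 = 2 * (A0 / 2) := by ring
    conv_lhs => rw [e2, Real.sin_two_mul]
    ring
  have : lg A0 * (A - A0) + lg ((π - A0) / 2) * (B - (π - A0) / 2) +
      lg ((π - A0) / 2) * (C - (π - A0) / 2) = lg (A0 / 2) * (A - A0) := by
    rw [hlg]
    linear_combination lg ((π - A0) / 2) * hs
  linarith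

/-- Tangent inequality, with the third angle eliminated. -/
theorem vt_both {A B C A0 B0 C0 : ℝ} (hA : 0 < A) (hB : 0 < B) (hC : 0 < C) (hs : A + B + C = π)
    (hA0 : 0 < A0) (hB0 : 0 < B0) (hC0 : 0 < C0) (hs0 : A0 + B0 + C0 = π) :
    Lob A + Lob B + Lob C ≤ Lob A0 + Lob B0 + Lob C0 - (lg A0 - lg C0) * (A - A0) -
      (lg B0 - lg C0) * (B - B0) := by
  have h := tangent hA hB hC hs hA0 hB0 hC0 hs0
  have : lg C0 * (C - C0) = - lg C0 * (A - A0) - lg C0 * (B - B0) := by
    linear_combination lg C0 * hs - lg C0 * hs0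
  linarith

/-! ### Numerical comparison -/

theorem lg_le_log {t : ℝ} (h0 : 0 < t) (h1 : t < π) : lg t ≤ Real.log (2 * t) := by
  unfold lg
  have hs : 0 < sin t := Real.sin_pos_of_pos_of_lt_pi h0 h1
  apply Real.log_le_log (by positivity)
  have := Real.sin_lt h0
  linarith

theorem int_log_two (a b : ℝ) : ∫ t in a..b, Real.log (2 * t) =
    b * Real.log (2 * b) - a * Real.log (2 * a) - b + a := by
  rw [intervalIntegral.integral_comp_mul_left (fun t => Real.log t) (two_ne_zero' ℝ), integral_log,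
    smul_eq_mul]
  ring

theorem log_two_int (a b : ℝ) : IntervalIntegrable (fun t => Real.log (2 * t)) volume a b := by
  have := (intervalIntegral.intervalIntegrable_log' (a := 2 * a) (b := 2 * b)).comp_mul_left
    (c := 2)
  simpa using this

theorem int_lg_le {a b : ℝ} (h0 : 0 ≤ a) (hab : a ≤ b) (hb : b < π) :
    ∫ t in a..b, lg t ≤ b * Real.log (2 * b) - a * Real.log (2 * a) - b + a := by
  rw [← int_log_two]
  apply intervalIntegral.integral_mono_on_of_le_Ioo hab (lg_int a b) (log_two_int a b)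
  intro t ht
  exact lg_le_log (by linarith [ht.1]) (by linarith [ht.2])

theorem numeric : 12 * Lob (π / 6) < 14 * Lob (π / 4) := by
  have hpi := Real.pi_pos
  have h1 := int_lg_le (a := 0) (b := π / 4) le_rfl (by positivity) (by linarith)
  have h2 := int_lg_le (a := π / 6) (b := π / 4) (by positivity) (by linarith) (by linarith)
  rw [int_lg] at h1 h2
  rw [Lob_zero] at h1
  have e1 : Real.log (2 * (π / 4)) = Real.log π - Real.log 2 := by
    rw [← Real.log_div hpi.ne' (by norm_num)]; congr 1; ring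
  have e2 : Real.log (2 * (π / 6)) = Real.log π - Real.log 3 := by
    rw [← Real.log_div hpi.ne' (by norm_num)]; congr 1; ring
  rw [e1] at h1 h2
  rw [e2] at h2
  -- `3 log π + 4 log 3 < 3 + 7 log 2`
  have h3 : 3 * Real.log π + 4 * Real.log 3 < 3 + 7 * Real.log 2 := by
    have hl : Real.log (π ^ 3 * 3 ^ 4) < Real.log (Real.exp 1 ^ 3 * 2 ^ 7) := by
      apply Real.log_lt_log (by positivity)
      have he := Real.exp_one_gt_d9
      have hpi2 := Real.pi_lt_d4
      have h4 : π ^ 3 < 3.1416 ^ 3 := pow_lt_pow_left₀ hpi2 hpi.le (by norm_num)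
      have h5 : (2.7182818283 : ℝ) ^ 3 < Real.exp 1 ^ 3 := pow_lt_pow_left₀ he (by norm_num) (by norm_num)
      calc π ^ 3 * 3 ^ 4 < 3.1416 ^ 3 * 3 ^ 4 := by linarith
        _ < 2.7182818283 ^ 3 * 2 ^ 7 := by norm_num
        _ < _ := by linarith
    rw [Real.log_mul (by positivity) (by positivity), Real.log_mul (by positivity) (by positivity),
      Real.log_pow, Real.log_pow, Real.log_pow, Real.log_pow, Real.log_exp] at hl
    push_cast at hl
    linarith
  nlinarith [mul_lt_mul_of_pos_left h3 hpi]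

theorem Lob_pi_five_le : Lob (π / 5) ≤ Lob (π / 6) := by
  have hpi := Real.pi_pos
  have h := int_lg (π / 6) (π / 5)
  have h0 : 0 ≤ ∫ t in (π / 6)..(π / 5), lg t := by
    apply intervalIntegral.integral_nonneg (by linarith)
    intro t ht
    unfold lg
    apply Real.log_nonneg
    have : sin (π / 6) ≤ sin t := Real.sin_le_sin_of_le_of_le_pi_div_two (by linarith)
      (by linarith [ht.2]) ht.1
    rw [Real.sin_pi_div_six] at this
    linarith
  linarith

theorem Lob_pi_six_nonneg : 0 ≤ Lob (π / 6) := by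
  have hp : 0 < π / 3 := by positivity
  have h := vt_nonneg hp hp hp (by ring)
  have := Lob_pi_three
  linarith

/-! ### The extremal value -/

/-- The maximal volume. -/
noncomputable def Vstar : ℝ := 12 * Lob phi - 2 * Lob (3 * phi)

section

variable (hφ : PhiFacts)
include hφ

theorem phi_lt : phi < π / 2 := by
  obtain ⟨h0, h1, -⟩ := hφ
  linarith

theorem mu_u : lg (2 * phi) - lg phi = lg ((π - 2 * phi) / 2) := by
  obtain ⟨h0, h1, h2, h3, h4, h5, h6, h7⟩ := hφ
  unfold lg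
  have e1 : (π - 2 * phi) / 2 = π / 2 - phi := by ring
  rw [e1, Real.sin_pi_div_two_sub, Real.sin_two_mul, ← Real.log_div (by positivity) (by positivity)]
  congr 1
  field_simp

theorem mu_v : lg (π - 3 * phi) - lg phi = lg phi := by
  obtain ⟨h0, h1, h2, h3, h4, h5, h6, h7⟩ := hφ
  unfold lg
  rw [Real.sin_pi_sub, Real.sin_three_mul]
  have e1 : 2 * (3 * sin phi - 4 * sin phi ^ 3) = (2 * sin phi) * (2 * sin phi) := by
    have : 4 * sin phi ^ 2 = 3 - 2 * sin phi := by linarith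
    calc 2 * (3 * sin phi - 4 * sin phi ^ 3) = 2 * (3 * sin phi - sin phi * (4 * sin phi ^ 2)) := by ring
      _ = _ := by rw [this]; ring
  rw [e1, Real.log_mul (by positivity) (by positivity)]
  ring

theorem Vstar_eq : 2 * (Lob (2 * phi) + Lob (π - 3 * phi) + Lob phi) +
    2 * (Lob (π - 2 * phi) + 2 * Lob phi) + 3 * (Lob (2 * phi) + 2 * Lob ((π - 2 * phi) / 2)) =
      Vstar := by
  have h1 := Lob_pi_sub (2 * phi)
  have h2 := Lob_pi_sub (3 * phi)
  have h3 := Lob_two_mul hφ.1.le (phi_lt hφ).le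
  have e1 : (π - 2 * phi) / 2 = π / 2 - phi := by ring
  unfold Vstar
  rw [h1, h2, e1]
  linarith

theorem mu_nonneg : 0 ≤ lg phi ∧ 0 ≤ lg ((π - 2 * phi) / 2) := by
  obtain ⟨h0, h1, h2, h3, h4, h5, h6, h7⟩ := hφ
  have hs : 1 ≤ 2 * sin phi := by nlinarith
  have hs1 : sin phi ≤ 1 := Real.sin_le_one phi
  constructor
  · exact Real.log_nonneg hs
  · unfold lg
    have e1 : (π - 2 * phi) / 2 = π / 2 - phi := by ring
    rw [e1, Real.sin_pi_div_two_sub]
    apply Real.log_nonneg
    nlinarith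

theorem le_Vstar : 14 * Lob (π / 4) ≤ Vstar := by
  have hpi := Real.pi_pos
  have hlt := phi_lt hφ
  have h0 := hφ.1
  have h1' := hφ.2.1
  have p4 : 0 < π / 4 := by positivity
  have p2 : 0 < π / 2 := by positivity
  have hb := vt_both (A := π / 2) (B := π / 4) (C := π / 4) p2 p4 p4 (by ring)
    (A0 := 2 * phi) (B0 := π - 3 * phi) (C0 := phi) (by linarith) (by linarith) h0 (by ring)
  have hu := vt_iso (A := π / 2) (B := π / 4) (C := π / 4) p2 p4 p4 (by ring)
    (A0 := π - 2 * phi) (by linarith) (by linarith)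
  have hv := vt_iso (A := π / 2) (B := π / 4) (C := π / 4) p2 p4 p4 (by ring)
    (A0 := 2 * phi) (by linarith) (by linarith)
  rw [mu_u hφ, mu_v hφ] at hb
  have e1 : (π - (π - 2 * phi)) / 2 = phi := by ring
  have e2 : 2 * phi / 2 = phi := by ring
  rw [e1] at hu
  rw [e2] at hv
  rw [Lob_pi_div_two] at hb hu hv
  rw [← Vstar_eq hφ]
  linarith

theorem v3_lt_Vstar : 12 * Lob (π / 6) < Vstar := numeric.trans_le (le_Vstar hφ)

end

end Pool.Agent.Lib.MP_b9d07b_gt
end

section
set_option autoImplicit false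

/-!
# The upper bound for polyhedra in general position
-/

open MeasureTheory Set Filter Topology Real
open scoped ENNReal RealInnerProductSpace

namespace Pool.Agent.Lib.MP_b9d07b_gt

theorem NC_orient {T : Finset ℂ} (hT : NC T) {u v w : ℂ} (hu : u ∈ T) (hv : v ∈ T) (hw : w ∈ T)
    (huv : u ≠ v) (hwu : w ≠ u) (hwv : w ≠ v) : orient u v w ≠ 0 :=
  hT.2 u hu v hv w hw huv hwv.symm hwu.symm

theorem tri_ang {T : Finset ℂ} (hT : NC T) {u v : ℂ} (hu : u ∈ T) (hv : v ∈ T) (huv : u ≠ v) :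
    ∃ w, 0 < angT T u ∧ 0 < angT T v ∧ 0 < angT T w ∧ angT T u + angT T v + angT T w = π ∧
      volT T = Lob (angT T u) + Lob (angT T v) + Lob (angT T w) := by
  obtain ⟨w, hw, hwu, hwv, hmem, hsum⟩ := third hT.1 hu hv huv
  have ho := NC_orient hT hu hv hw huv hwu hwv
  obtain ⟨h1, h2, h3, h4⟩ := triangle_angles ho
  have e1 : angT T u = EuclideanGeometry.angle v u w :=
    angT_eq huv hwu.symm hwv.symm hmem
  have e2 : angT T v = EuclideanGeometry.angle u v w :=
    angT_eq huv.symm hwv.symm hwu.symm (fun x => by rw [hmem]; tauto)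
  have e3 : angT T w = EuclideanGeometry.angle u w v :=
    angT_eq hwu hwv huv (fun x => by rw [hmem]; tauto)
  refine ⟨w, by rw [e1]; exact h1, by rw [e2]; exact h2, by rw [e3]; exact h3, ?_, ?_⟩
  · rw [e1, e2, e3]; exact h4
  · unfold volT; rw [hsum]

theorem exists_other {T : Finset ℂ} (hT : NC T) (u : ℂ) (hu : u ∈ T) : ∃ v ∈ T, u ≠ v := by
  have : 1 < T.card := by rw [hT.1]; norm_num
  obtain ⟨v, hv, hvu⟩ := Finset.exists_mem_ne this u
  exact ⟨v, hv, hvu.symm⟩

theorem exists_mem_NC {T : Finset ℂ} (hT : NC T) : ∃ u, u ∈ T :=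
  Finset.card_pos.1 (by rw [hT.1]; norm_num)

theorem angT_bounds {T : Finset ℂ} (hT : NC T) {u : ℂ} (hu : u ∈ T) :
    0 < angT T u ∧ angT T u < π := by
  obtain ⟨v, hv, huv⟩ := exists_other hT u hu
  obtain ⟨w, h1, h2, h3, h4, -⟩ := tri_ang hT hu hv huv
  exact ⟨h1, by linarith⟩

theorem volT_nonneg {T : Finset ℂ} (hT : NC T) : 0 ≤ volT T := by
  obtain ⟨u, hu⟩ := exists_mem_NC hT
  obtain ⟨v, hv, huv⟩ := exists_other hT u hu
  obtain ⟨w, h1, h2, h3, h4, h5⟩ := tri_ang hT hu hv huv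
  rw [h5]
  exact vt_nonneg h1 h2 h3 h4

theorem volT_le_v3 {T : Finset ℂ} (hT : NC T) : volT T ≤ 2 * Lob (π / 6) := by
  obtain ⟨u, hu⟩ := exists_mem_NC hT
  obtain ⟨v, hv, huv⟩ := exists_other hT u hu
  obtain ⟨w, h1, h2, h3, h4, h5⟩ := tri_ang hT hu hv huv
  rw [h5]
  exact vt_le_v3 h1 h2 h3 h4

theorem volT_iso {T : Finset ℂ} (hT : NC T) {u : ℂ} (hu : u ∈ T) {A0 : ℝ} (hA0 : 0 < A0)
    (hA1 : A0 < π) :
    volT T ≤ Lob A0 + 2 * Lob ((π - A0) / 2) - lg (A0 / 2) * (angT T u - A0) := by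
  obtain ⟨v, hv, huv⟩ := exists_other hT u hu
  obtain ⟨w, h1, h2, h3, h4, h5⟩ := tri_ang hT hu hv huv
  rw [h5]
  exact vt_iso h1 h2 h3 h4 hA0 hA1

theorem volT_both {T : Finset ℂ} (hT : NC T) {u v : ℂ} (hu : u ∈ T) (hv : v ∈ T) (huv : u ≠ v)
    {A0 B0 C0 : ℝ} (hA0 : 0 < A0) (hB0 : 0 < B0) (hC0 : 0 < C0) (hs0 : A0 + B0 + C0 = π) :
    volT T ≤ Lob A0 + Lob B0 + Lob C0 - (lg A0 - lg C0) * (angT T u - A0) -
      (lg B0 - lg C0) * (angT T v - B0) := by
  obtain ⟨w, h1, h2, h3, h4, h5⟩ := tri_ang hT hu hv huv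
  rw [h5]
  exact vt_both h1 h2 h3 h4 hA0 hB0 hC0 hs0

open Classical in
theorem card_split (D : Finset (Finset ℂ)) (u v : ℂ) :
    (D.filter (fun T => u ∈ T ∧ v ∈ T)).card + (D.filter (fun T => u ∈ T ∧ v ∉ T)).card =
      (D.filter (fun T => u ∈ T)).card ∧
    (D.filter (fun T => u ∈ T ∧ v ∈ T)).card + (D.filter (fun T => u ∉ T ∧ v ∈ T)).card =
      (D.filter (fun T => v ∈ T)).card ∧
    (D.filter (fun T => u ∈ T ∧ v ∈ T)).card + (D.filter (fun T => u ∈ T ∧ v ∉ T)).card +
      (D.filter (fun T => u ∉ T ∧ v ∈ T)).card + (D.filter (fun T => u ∉ T ∧ v ∉ T)).card =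
      D.card := by
  simp only [Finset.card_filter]
  rw [Finset.card_eq_sum_ones, ← Finset.sum_add_distrib, ← Finset.sum_add_distrib,
    ← Finset.sum_add_distrib, ← Finset.sum_add_distrib]
  refine ⟨?_, ?_, ?_⟩ <;>
  · apply Finset.sum_congr rfl
    intro T _
    by_cases h1 : u ∈ T <;> by_cases h2 : v ∈ T <;> simp [h1, h2]

open Classical in
theorem sum_bound (D : Finset (Finset ℂ)) (u v : ℂ) {W2 W1 W1' W0 μ ν A B A1 B1 : ℝ}
    (h2 : ∀ T ∈ D, u ∈ T → v ∈ T → volT T ≤ W2 - μ * (angT T u - A) - ν * (angT T v - B))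
    (h1 : ∀ T ∈ D, u ∈ T → v ∉ T → volT T ≤ W1 - μ * (angT T u - A1))
    (h1' : ∀ T ∈ D, u ∉ T → v ∈ T → volT T ≤ W1' - ν * (angT T v - B1))
    (h0 : ∀ T ∈ D, u ∉ T → v ∉ T → volT T ≤ W0) (hμ : 0 ≤ μ) (hν : 0 ≤ ν)
    (hu : 2 * π ≤ ∑ T ∈ D.filter (fun T => u ∈ T), angT T u)
    (hv : 2 * π ≤ ∑ T ∈ D.filter (fun T => v ∈ T), angT T v) :
    ∑ T ∈ D, volT T ≤
      ((D.filter (fun T => u ∈ T ∧ v ∈ T)).card : ℝ) * (W2 + μ * A + ν * B) +
      ((D.filter (fun T => u ∈ T ∧ v ∉ T)).card : ℝ) * (W1 + μ * A1) +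
      ((D.filter (fun T => u ∉ T ∧ v ∈ T)).card : ℝ) * (W1' + ν * B1) +
      ((D.filter (fun T => u ∉ T ∧ v ∉ T)).card : ℝ) * W0 - μ * (2 * π) - ν * (2 * π) := by
  have e : ∀ (p : Finset ℂ → Prop) [DecidablePred p] (c : ℝ), ((D.filter p).card : ℝ) * c =
      ∑ T ∈ D, if p T then c else 0 := by
    intro p _ c
    rw [← Finset.sum_filter, Finset.sum_const, nsmul_eq_mul]
  have key : ∑ T ∈ D, volT T ≤ ∑ T ∈ D, ((if u ∈ T ∧ v ∈ T then (W2 + μ * A + ν * B) else 0) +
      (if u ∈ T ∧ v ∉ T then (W1 + μ * A1) else 0) + (if u ∉ T ∧ v ∈ T then (W1' + ν * B1) else 0) +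
      (if u ∉ T ∧ v ∉ T then W0 else 0) - μ * (if u ∈ T then angT T u else 0) -
      ν * (if v ∈ T then angT T v else 0)) := by
    apply Finset.sum_le_sum
    intro T hT
    by_cases hu' : u ∈ T <;> by_cases hv' : v ∈ T
    · have := h2 T hT hu' hv'
      simp [hu', hv']
      linarith
    · have := h1 T hT hu' hv'
      simp [hu', hv']
      linarith
    · have := h1' T hT hu' hv'
      simp [hu', hv']
      linarith
    · have := h0 T hT hu' hv'
      simp [hu', hv']
      linarith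
  refine key.trans ?_
  rw [Finset.sum_sub_distrib, Finset.sum_sub_distrib, Finset.sum_add_distrib,
    Finset.sum_add_distrib, Finset.sum_add_distrib, e (fun T => u ∈ T ∧ v ∈ T),
    e (fun T => u ∈ T ∧ v ∉ T), e (fun T => u ∉ T ∧ v ∈ T), e (fun T => u ∉ T ∧ v ∉ T),
    ← Finset.mul_sum, ← Finset.mul_sum, ← Finset.sum_filter (fun T => u ∈ T),
    ← Finset.sum_filter (fun T => v ∈ T)]
  have h3 := mul_le_mul_of_nonneg_left hu hμ
  have h4 := mul_le_mul_of_nonneg_left hv hν
  linarith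

theorem lg_pi_three_nonneg : 0 ≤ lg (π / 3) := by
  unfold lg
  rw [Real.sin_pi_div_three]
  apply Real.log_nonneg
  have h : (1 : ℝ) ≤ Real.sqrt 3 := by
    rw [show (1 : ℝ) = Real.sqrt 1 by simp]
    exact Real.sqrt_le_sqrt (by norm_num)
  linarith

/-- A vertex of degree three. -/
theorem bound_deg3 {Z : Finset ℂ} (hZ : GP Z) (hD : (Del Z).card = 7) {u : ℂ}
    (hu : 2 * π ≤ ∑ T ∈ (Del Z).filter (fun T => u ∈ T), angT T u)
    (h3 : ((Del Z).filter (fun T => u ∈ T)).card = 3) :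
    ∑ T ∈ Del Z, volT T ≤ 12 * Lob (π / 6) := by
  have hpi := Real.pi_pos
  rw [← Finset.sum_filter_add_sum_filter_not (Del Z) (fun T => u ∈ T)]
  have h4 : ((Del Z).filter (fun T => u ∉ T)).card = 4 := by
    have := Finset.card_filter_add_card_filter_not (s := Del Z) (fun T => u ∈ T)
    omega
  have e1 : ∑ T ∈ (Del Z).filter (fun T => u ∈ T), volT T ≤
      ∑ T ∈ (Del Z).filter (fun T => u ∈ T), (Lob (2 * π / 3) + 2 * Lob ((π - 2 * π / 3) / 2) -
        lg (2 * π / 3 / 2) * (angT T u - 2 * π / 3)) := by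
    apply Finset.sum_le_sum
    intro T hT
    rw [Finset.mem_filter, mem_Del] at hT
    exact volT_iso (hZ.nc hT.1.1 hT.1.2.1) hT.2 (by positivity) (by linarith)
  have e2 : ∑ T ∈ (Del Z).filter (fun T => u ∉ T), volT T ≤
      ∑ _T ∈ (Del Z).filter (fun T => u ∉ T), 2 * Lob (π / 6) := by
    apply Finset.sum_le_sum
    intro T hT
    rw [Finset.mem_filter, mem_Del] at hT
    exact volT_le_v3 (hZ.nc hT.1.1 hT.1.2.1)
  rw [Finset.sum_const, h4] at e2
  rw [Finset.sum_sub_distrib, ← Finset.mul_sum, Finset.sum_sub_distrib, Finset.sum_const,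
    Finset.sum_const, h3] at e1
  have a1 : (π - 2 * π / 3) / 2 = π / 6 := by ring
  have a2 : 2 * π / 3 / 2 = π / 3 := by ring
  rw [a1, a2, Lob_two_pi_three] at e1
  simp only [nsmul_eq_mul] at e1 e2
  push_cast at e1 e2
  have h5 := Lob_pi_three
  have h6 := mul_nonneg lg_pi_three_nonneg (sub_nonneg.2 hu)
  linarith

theorem bound {Z : Finset ℂ} (hφ : PhiFacts) (hZ : GP Z) (hc : Z.card = 7)
    (h5 : 5 ≤ (extr Z).card) : ∑ T ∈ Del Z, volT T ≤ Vstar := by
  classical
  have hpi := Real.pi_pos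
  have hcount := count hZ (by omega)
  have hv3 := (v3_lt_Vstar hφ).le
  by_cases h6 : 6 ≤ (extr Z).card
  · -- at most six tetrahedra
    refine le_trans ?_ hv3
    have h1 : ∑ T ∈ Del Z, volT T ≤ ∑ _T ∈ Del Z, 2 * Lob (π / 6) := by
      apply Finset.sum_le_sum
      intro T hT
      rw [mem_Del] at hT
      exact volT_le_v3 (hZ.nc hT.1 hT.2.1)
    rw [Finset.sum_const, nsmul_eq_mul] at h1
    have h2 : ((Del Z).card : ℝ) ≤ 6 := by
      have : (Del Z).card ≤ 6 := by omega
      exact_mod_cast this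
    nlinarith [Lob_pi_six_nonneg]
  have hb : (extr Z).card = 5 := by omega
  have hD : (Del Z).card = 7 := by omega
  -- the two interior points
  have hint : (Z \ extr Z).card = 2 := by
    have hsub : extr Z ⊆ Z := by unfold extr; exact Finset.filter_subset _ _
    rw [Finset.card_sdiff_of_subset hsub]
    omega
  obtain ⟨u, v, huv, huveq⟩ := Finset.card_eq_two.1 hint
  have hin : ∀ x ∈ Z \ extr Z, x ∈ Z ∧ ∀ᶠ y in 𝓝 x, y ∈ convexHull ℝ (Z : Set ℂ) := by
    intro x hx
    rw [Finset.mem_sdiff] at hx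
    refine ⟨hx.1, int_hull hZ hx.1 ?_⟩
    by_contra h
    exact hx.2 (by unfold extr; exact Finset.mem_filter.2 ⟨hx.1, h⟩)
  obtain ⟨huZ, huI⟩ := hin u (by rw [huveq]; simp)
  obtain ⟨hvZ, hvI⟩ := hin v (by rw [huveq]; simp)
  have hsu := angle_sum hZ huZ huI
  have hsv := angle_sum hZ hvZ hvI
  have hge3 : ∀ x : ℂ, 2 * π ≤ ∑ T ∈ (Del Z).filter (fun T => x ∈ T), angT T x →
      3 ≤ ((Del Z).filter (fun T => x ∈ T)).card := by
    intro x hx
    by_contra hlt
    push Not at hlt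
    have h1 : ∑ T ∈ (Del Z).filter (fun T => x ∈ T), angT T x <
        2 * π := by
      rcases Finset.eq_empty_or_nonempty ((Del Z).filter (fun T => x ∈ T)) with h | h
      · rw [h, Finset.sum_empty]; positivity
      · have h2 : ∑ T ∈ (Del Z).filter (fun T => x ∈ T), angT T x <
            ∑ _T ∈ (Del Z).filter (fun T => x ∈ T), π := by
          apply Finset.sum_lt_sum_of_nonempty h
          intro T hT
          rw [Finset.mem_filter, mem_Del] at hT
          exact (angT_bounds (hZ.nc hT.1.1 hT.1.2.1) hT.2).2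
        rw [Finset.sum_const, nsmul_eq_mul] at h2
        have h3 : (((Del Z).filter (fun T => x ∈ T)).card : ℝ) ≤ 2 := by
          have : ((Del Z).filter (fun T => x ∈ T)).card ≤ 2 := by omega
          exact_mod_cast this
        nlinarith
    linarith
  have htu := hge3 u hsu
  have htv := hge3 v hsv
  by_cases h3u : ((Del Z).filter (fun T => u ∈ T)).card = 3
  · exact (bound_deg3 hZ hD hsu h3u).trans hv3
  by_cases h3v : ((Del Z).filter (fun T => v ∈ T)).card = 3
  · exact (bound_deg3 hZ hD hsv h3v).trans hv3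
  -- the edge `u v`
  obtain ⟨s1, s2, s3⟩ := card_split (Del Z) u v
  have hE : (Del Z).filter (fun T => u ∈ T ∧ v ∈ T) = DelE Z u v := by
    unfold DelE; congr!
  have hE2 : (DelE Z u v).card ≤ 2 := DelE_card_le hZ huv
  rw [hE] at s1 s2 s3
  have hE1 : 2 ≤ (DelE Z u v).card := by
    have h1 : 0 < (DelE Z u v).card := by omega
    obtain ⟨T, hT⟩ := Finset.card_pos.1 h1
    rw [mem_DelE] at hT
    obtain ⟨T', hT', hu', hv', hne⟩ := other_side hZ hT.1 huv hT.2.1 hT.2.2 huI
    exact Finset.one_lt_card.2 ⟨T', mem_DelE.2 ⟨hT', hu', hv'⟩, T, mem_DelE.2 hT, hne⟩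
  have hn2 : (DelE Z u v).card = 2 := by omega
  have hnc : ∀ T ∈ Del Z, NC T := fun T hT => hZ.nc (mem_Del.1 hT).1 (mem_Del.1 hT).2.1
  rw [hn2] at s1 s2 s3
  -- the case of degrees four and five
  have case45 : ∀ u v : ℂ, u ≠ v → 2 * π ≤ ∑ T ∈ (Del Z).filter (fun T => u ∈ T), angT T u →
      2 * π ≤ ∑ T ∈ (Del Z).filter (fun T => v ∈ T), angT T v →
      ((Del Z).filter (fun T => u ∈ T ∧ v ∈ T)).card = 2 →
      ((Del Z).filter (fun T => u ∈ T ∧ v ∉ T)).card = 2 →
      ((Del Z).filter (fun T => u ∉ T ∧ v ∈ T)).card = 3 →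
      ((Del Z).filter (fun T => u ∉ T ∧ v ∉ T)).card = 0 → ∑ T ∈ Del Z, volT T ≤ Vstar := by
    intro u v huv hsu hsv c1 c2 c3 c4
    have hφ0 := hφ.1
    have hφ1 := hφ.2.1
    have hφ2 := phi_lt hφ
    have e1 : (π - (π - 2 * phi)) / 2 = phi := by ring
    have e2 : 2 * phi / 2 = phi := by ring
    have h := sum_bound (Del Z) u v (W2 := Lob (2 * phi) + Lob (π - 3 * phi) + Lob phi)
      (W1 := Lob (π - 2 * phi) + 2 * Lob phi) (W1' := Lob (2 * phi) + 2 * Lob ((π - 2 * phi) / 2))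
      (W0 := 2 * Lob (π / 6)) (μ := lg ((π - 2 * phi) / 2)) (ν := lg phi) (A := 2 * phi)
      (B := π - 3 * phi) (A1 := π - 2 * phi) (B1 := 2 * phi) ?_ ?_ ?_ ?_ (mu_nonneg hφ).2
      (mu_nonneg hφ).1 hsu hsv
    · rw [c1, c2, c3, c4] at h
      push_cast at h
      rw [← Vstar_eq hφ]
      linarith
    · intro T hT hu hv
      have := volT_both (hnc T hT) hu hv huv (A0 := 2 * phi) (B0 := π - 3 * phi) (C0 := phi)
        (by linarith) (by linarith) hφ0 (by ring)
      rwa [mu_u hφ, mu_v hφ] at this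
    · intro T hT hu hv
      have := volT_iso (hnc T hT) hu (A0 := π - 2 * phi) (by linarith) (by linarith)
      rwa [e1] at this
    · intro T hT hu hv
      have := volT_iso (hnc T hT) hv (A0 := 2 * phi) (by linarith) (by linarith)
      rwa [e2] at this
    · intro T hT _ _
      exact volT_le_v3 (hnc T hT)
  have hs44 : ((Del Z).filter (fun T => u ∈ T)).card = 4 →
      ((Del Z).filter (fun T => v ∈ T)).card = 4 → ∑ T ∈ Del Z, volT T ≤ Vstar := by
    intro c4u c4v
    have c2 : ((Del Z).filter (fun T => u ∈ T ∧ v ∉ T)).card = 2 := by omega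
    have c3 : ((Del Z).filter (fun T => u ∉ T ∧ v ∈ T)).card = 2 := by omega
    have c4 : ((Del Z).filter (fun T => u ∉ T ∧ v ∉ T)).card = 1 := by omega
    have s5 : 0 < sin (π / 5) := Real.sin_pos_of_pos_of_lt_pi (by positivity) (by linarith)
    have k5 : 0 < cos (π / 5) := Real.cos_pos_of_mem_Ioo ⟨by linarith, by linarith⟩
    have m1 : lg (2 * π / 5) - lg (π / 5) = lg (3 * π / 5 / 2) := by
      unfold lg
      have e1 : 3 * π / 5 / 2 = π / 2 - π / 5 := by ring
      have e2 : 2 * π / 5 = 2 * (π / 5) := by ring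
      rw [e1, e2, Real.sin_pi_div_two_sub, Real.sin_two_mul,
        ← Real.log_div (by positivity) (by positivity)]
      congr 1
      field_simp
    have m0 : 0 ≤ lg (3 * π / 5 / 2) := by
      unfold lg
      apply Real.log_nonneg
      have : sin (π / 6) ≤ sin (3 * π / 5 / 2) :=
        Real.sin_le_sin_of_le_of_le_pi_div_two (by linarith) (by linarith) (by linarith)
      rw [Real.sin_pi_div_six] at this
      linarith
    have a1 : (π - 3 * π / 5) / 2 = π / 5 := by ring
    have h := sum_bound (Del Z) u v (W2 := Lob (2 * π / 5) + Lob (2 * π / 5) + Lob (π / 5))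
      (W1 := Lob (3 * π / 5) + 2 * Lob (π / 5)) (W1' := Lob (3 * π / 5) + 2 * Lob (π / 5))
      (W0 := 2 * Lob (π / 6)) (μ := lg (3 * π / 5 / 2)) (ν := lg (3 * π / 5 / 2)) (A := 2 * π / 5)
      (B := 2 * π / 5) (A1 := 3 * π / 5) (B1 := 3 * π / 5) ?_ ?_ ?_ ?_ m0 m0 hsu hsv
    · rw [hE, hn2, c2, c3, c4] at h
      have l1 : Lob (3 * π / 5) = - Lob (2 * π / 5) := by
        rw [← Lob_pi_sub]; congr 1; ring
      rw [l1] at h
      push_cast at h
      have l2 := Lob_pi_five_le
      have : ∑ T ∈ Del Z, volT T ≤ 10 * Lob (π / 5) + 2 * Lob (π / 6) := by linarith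
      linarith
    · intro T hT hu hv
      have := volT_both (hnc T hT) hu hv huv (A0 := 2 * π / 5) (B0 := 2 * π / 5) (C0 := π / 5)
        (by positivity) (by positivity) (by positivity) (by ring)
      rwa [m1] at this
    · intro T hT hu hv
      have := volT_iso (hnc T hT) hu (A0 := 3 * π / 5) (by positivity) (by linarith)
      rwa [a1] at this
    · intro T hT hu hv
      have := volT_iso (hnc T hT) hv (A0 := 3 * π / 5) (by positivity) (by linarith)
      rwa [a1] at this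
    · intro T hT _ _
      exact volT_le_v3 (hnc T hT)
  have hcases : (((Del Z).filter (fun T => u ∈ T)).card = 4 ∧
      ((Del Z).filter (fun T => v ∈ T)).card = 4) ∨ (((Del Z).filter (fun T => u ∈ T)).card = 4 ∧
      ((Del Z).filter (fun T => v ∈ T)).card = 5) ∨ (((Del Z).filter (fun T => u ∈ T)).card = 5 ∧
      ((Del Z).filter (fun T => v ∈ T)).card = 4) := by omega
  rcases hcases with ⟨c1, c2⟩ | ⟨c1, c2⟩ | ⟨c1, c2⟩
  · exact hs44 c1 c2
  · exact case45 u v huv hsu hsv (by rw [hE, hn2]) (by omega) (by omega) (by omega)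
  · obtain ⟨t1, t2, t3⟩ := card_split (Del Z) v u
    have hcomm : ((Del Z).filter (fun T => v ∈ T ∧ u ∈ T)).card = 2 := by
      rw [← hn2, ← hE]
      congr 1
      ext T
      simp only [Finset.mem_filter]
      tauto
    exact case45 v u huv.symm hsv hsu hcomm (by omega) (by omega) (by omega)

/-- The upper bound for polyhedra in general position. -/
theorem vol_le_Vstar (hφ : PhiFacts) {S : Finset E3} (hS : GPS S) (hc : S.card = 8) :
    vol S ≤ ENNReal.ofReal Vstar := by
  obtain ⟨Z, hZ, hZc, hvol, h5⟩ := exists_apex hS hc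
  rw [hvol]
  refine (vol_le hZ).trans ?_
  rw [← ENNReal.ofReal_sum_of_nonneg (fun T hT =>
    volT_nonneg (hZ.nc (mem_Del.1 hT).1 (mem_Del.1 hT).2.1))]
  exact ENNReal.ofReal_le_ofReal (bound hφ hZ hZc h5)

end Pool.Agent.Lib.MP_b9d07b_gt
end
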