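import Mathlib

set_option autoImplicit false

/-!
# Ideal polyhedra in the Klein model

Hyperbolic 3-space is the open unit ball of Euclidean 3-space with Klein's projective metric: its
geodesics and geodesic planes are the intersections of the ball with Euclidean lines and planes, its
sphere at infinity is the unit sphere, the round circles on it are its intersections with planes, and
its volume form is `(1 - |x|²)⁻² dx`.
-/

open MeasureTheory Set
open scoped ENNReal RealInnerProductSpace

namespace Pool.Agent.Lib.MP_b9d07b_gt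

/-- Euclidean 3-space, which contains the Klein ball model of hyperbolic space. -/
abbrev E3 := EuclideanSpace ℝ (Fin 3)

/-- `S` is the vertex set of an ideal polyhedron with `n` vertices: `n` distinct points of the unit
sphere which do not all lie in a plane (equivalently, on a round circle). -/
def IsIdealPoly (n : ℕ) (S : Finset E3) : Prop :=
  S.card = n ∧ (∀ p ∈ S, ‖p‖ = 1) ∧ ∀ (u : E3) (c : ℝ), (∀ p ∈ S, ⟪u, p⟫ = c) → u = 0

/-- The hyperbolic volume of (the part in the open unit ball of) a set, in the Klein model. -/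
noncomputable def hypVol (A : Set E3) : ℝ≥0∞ :=
  ∫⁻ x in A ∩ Metric.ball 0 1, ENNReal.ofReal (1 / (1 - ‖x‖ ^ 2) ^ 2)

/-- The volume of the ideal polyhedron with vertex set `S`. -/
noncomputable def vol (S : Finset E3) : ℝ≥0∞ := hypVol (convexHull ℝ (S : Set E3))

/-- The supremum of the volumes of the ideal polyhedra with `n` vertices. -/
noncomputable def Vmax (n : ℕ) : ℝ≥0∞ := ⨆ S : {S : Finset E3 // IsIdealPoly n S}, vol S

/-- `S` is the vertex set of a volume-maximising ideal polyhedron with `n` vertices. -/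
def IsMaximising (n : ℕ) (S : Finset E3) : Prop := IsIdealPoly n S ∧ vol S = Vmax n

/-- The plane `{x | ⟪u, x⟫ = c}` carries a face of the polyhedron with vertex set `S`; `(u, c)` is its
outward unit normal for the Lorentzian form `⟪u, u'⟫ - c c'`. -/
def IsFace (S : Finset E3) (u : E3) (c : ℝ) : Prop :=
  ‖u‖ ^ 2 - c ^ 2 = 1 ∧ (∀ p ∈ S, ⟪u, p⟫ ≤ c) ∧ ∃ T ⊆ S, T.card = 3 ∧ ∀ p ∈ T, ⟪u, p⟫ = c

/-- `θ` is the (interior) dihedral angle of the polyhedron with vertex set `S` at the edge with
endpoints `p` and `q`, along which two distinct faces with outward unit normals `(u, c)` and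
`(u', c')` meet. -/
def IsDihedralAngle (S : Finset E3) (p q : E3) (θ : ℝ) : Prop :=
  p ∈ S ∧ q ∈ S ∧ p ≠ q ∧ 0 < θ ∧ θ < Real.pi ∧ ∃ (u : E3) (c : ℝ) (u' : E3) (c' : ℝ),
    IsFace S u c ∧ IsFace S u' c' ∧ (u, c) ≠ (u', c') ∧ ⟪u, p⟫ = c ∧ ⟪u, q⟫ = c ∧
    ⟪u', p⟫ = c' ∧ ⟪u', q⟫ = c' ∧ Real.cos θ = -(⟪u, u'⟫ - c * c')

/-- The north pole. -/
noncomputable def north : E3 := !₂[0, 0, 1]

/-- Inverse stereographic projection from the north pole. -/
noncomputable def lift (z : ℂ) : E3 :=
  !₂[2 * z.re / (Complex.normSq z + 1), 2 * z.im / (Complex.normSq z + 1),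
    (Complex.normSq z - 1) / (Complex.normSq z + 1)]

end Pool.Agent.Lib.MP_b9d07b_gt
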