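import Pool.Agent.Lib.MP_b9d07b_gt.ExDefs

set_option autoImplicit false

/-!
# The explicit polyhedron: the angle `φ`
-/

namespace Pool.Agent.Lib.MP_b9d07b_gt

theorem sqrt13_sq : Real.sqrt 13 ^ 2 = 13 := Real.sq_sqrt (by norm_num)

theorem sqrt13_lt : Real.sqrt 13 < 37 / 10 := by
  rw [Real.sqrt_lt' (by norm_num)]; norm_num

theorem lt_sqrt13 : 36 / 10 < Real.sqrt 13 := by
  rw [Real.lt_sqrt (by norm_num)]; norm_num

theorem phiFacts : PhiFacts := by
  have h1 := sqrt13_sq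
  have h2 := sqrt13_lt
  have h3 := lt_sqrt13
  have hs : Real.sin phi = (Real.sqrt 13 - 1) / 4 := Real.sin_arcsin (by linarith) (by linarith)
  have hs0 : 0 < Real.sin phi := by rw [hs]; linarith
  have h0 : 0 < phi := Real.arcsin_pos.2 (by linarith)
  have hle : phi ≤ Real.pi / 2 := Real.arcsin_le_pi_div_two _
  have h3' : phi < Real.pi / 3 := by
    by_contra hcon
    have h4 : Real.sin (Real.pi / 3) ≤ Real.sin phi :=
      Real.sin_le_sin_of_le_of_le_pi_div_two (by linarith [Real.pi_pos]) hle (not_lt.1 hcon)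
    rw [Real.sin_pi_div_three, hs] at h4
    have h5 : (17 / 10 : ℝ) < Real.sqrt 3 := by
      rw [Real.lt_sqrt (by norm_num)]; norm_num
    linarith
  have hc0 : 0 < Real.cos phi := Real.cos_pos_of_mem_Ioo ⟨by linarith, by linarith [Real.pi_pos]⟩
  have hq : 4 * Real.sin phi ^ 2 + 2 * Real.sin phi = 3 := by
    rw [hs]; linear_combination (1 / 4) * h1
  have hcq : 4 * Real.cos phi ^ 2 = 1 + 2 * Real.sin phi := by
    linear_combination 4 * Real.sin_sq_add_cos_sq phi - hq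
  refine ⟨h0, by linarith, hs, hq, hcq, hs0, hc0, ?_⟩
  rw [Real.cos_two_mul]
  have : Real.cos phi ^ 2 = (1 + 2 * Real.sin phi) / 4 := by linarith
  rw [this, hs]; ring

/-- The sequence `x_{k+1} = x_k ^ 2 - 2` in `ℚ(√13)` together with its conjugate. -/
theorem exists_conj (x y : ℝ) (h : ∃ a b : ℚ, x = a + b * Real.sqrt 13 ∧ y = a - b * Real.sqrt 13) :
    ∃ a b : ℚ, x ^ 2 - 2 = a + b * Real.sqrt 13 ∧ y ^ 2 - 2 = a - b * Real.sqrt 13 := by
  obtain ⟨a, b, rfl, rfl⟩ := h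
  refine ⟨a ^ 2 + 13 * b ^ 2 - 2, 2 * a * b, ?_, ?_⟩ <;> push_cast <;>
    linear_combination (b : ℝ) ^ 2 * sqrt13_sq

theorem irrational_sqrt13 : Irrational (Real.sqrt 13) := by
  have := Nat.Prime.irrational_sqrt (p := 13) (by norm_num)
  simpa using this

/-- The conjugate sequence. -/
noncomputable def cj : ℕ → ℝ
  | 0 => (-Real.sqrt 13 - 3) / 2
  | k + 1 => cj k ^ 2 - 2

theorem cj_gt (k : ℕ) : 3 < cj (k + 1) := by
  have h3 := lt_sqrt13
  induction k with
  | zero =>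
    have : cj 1 = ((-Real.sqrt 13 - 3) / 2) ^ 2 - 2 := rfl
    rw [this]
    nlinarith
  | succ k ih =>
    have : cj (k + 1 + 1) = cj (k + 1) ^ 2 - 2 := rfl
    rw [this]
    nlinarith

theorem cj_lt (k : ℕ) : cj (k + 1) < cj (k + 2) := by
  have : cj (k + 2) = cj (k + 1) ^ 2 - 2 := rfl
  rw [this]
  nlinarith [cj_gt k]

theorem cj_strictMono : StrictMono fun k => cj (k + 1) := strictMono_nat_of_lt_succ cj_lt

theorem cj_conj {θ : ℝ} (h : Real.cos θ = (Real.sqrt 13 - 3) / 4) (k : ℕ) :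
    ∃ a b : ℚ, 2 * Real.cos (2 ^ k * θ) = a + b * Real.sqrt 13 ∧ cj k = a - b * Real.sqrt 13 := by
  induction k with
  | zero =>
    refine ⟨-3 / 2, 1 / 2, ?_, ?_⟩
    · rw [pow_zero, one_mul, h]; push_cast; ring
    · have : cj 0 = (-Real.sqrt 13 - 3) / 2 := rfl
      rw [this]; push_cast; ring
  | succ k ih =>
    have h1 : 2 * Real.cos (2 ^ (k + 1) * θ) = (2 * Real.cos (2 ^ k * θ)) ^ 2 - 2 := by
      rw [pow_succ, mul_right_comm, mul_comm _ (2 : ℝ), Real.cos_two_mul]; ring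
    rw [h1]
    exact exists_conj _ _ ih

theorem irrationalAngle : IrrationalAngle := by
  intro θ hθ r hr
  have hq : 0 < 2 * r.den := by have := r.pos; omega
  have : NeZero (2 * r.den) := ⟨hq.ne'⟩
  obtain ⟨j, k, hjk, he⟩ := Finite.exists_ne_map_eq_of_infinite
    (fun k : ℕ => ((2 ^ (k + 1) * r.num : ℤ) : ZMod (2 * r.den)))
  have he' := (ZMod.intCast_eq_intCast_iff_dvd_sub _ _ _).1 he
  obtain ⟨m, hm⟩ := he'
  have h1 : (2 : ℝ) ^ (k + 1) * θ = 2 ^ (j + 1) * θ + m * (2 * Real.pi) := by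
    have h2 : (r : ℝ) = r.num / r.den := by exact_mod_cast (Rat.num_div_den r).symm
    have h3 : (0 : ℝ) < r.den := by exact_mod_cast r.pos
    have h4 : (2 : ℝ) ^ (k + 1) * r.num - 2 ^ (j + 1) * r.num = 2 * r.den * m := by exact_mod_cast hm
    rw [hr, h2]
    field_simp
    linear_combination h4
  have h2 : Real.cos (2 ^ (k + 1) * θ) = Real.cos (2 ^ (j + 1) * θ) := by
    rw [h1, Real.cos_add_int_mul_two_pi]
  obtain ⟨a, b, ha, hb⟩ := cj_conj hθ (j + 1)
  obtain ⟨a', b', ha', hb'⟩ := cj_conj hθ (k + 1)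
  have h3 : (a : ℝ) + b * Real.sqrt 13 = a' + b' * Real.sqrt 13 := by rw [← ha, ← ha', h2]
  have h4 : b = b' := by
    by_contra hne
    have h5 : Real.sqrt 13 = ((a' - a) / (b - b') : ℚ) := by
      have : (b : ℝ) - b' ≠ 0 := by
        intro h0
        exact hne (by exact_mod_cast sub_eq_zero.1 h0)
      push_cast
      rw [eq_div_iff this]
      linear_combination h3
    exact irrational_sqrt13 ⟨_, h5.symm⟩
  have h5 : (a : ℝ) = a' := by rw [h4] at h3; linarith
  have h6 : cj (j + 1) = cj (k + 1) := by rw [hb, hb', h4, h5]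
  exact hjk (cj_strictMono.injective h6)

end Pool.Agent.Lib.MP_b9d07b_gt
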