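import Pool.Agent.Lib.MP_b9d07b_gt.ExAngle

set_option autoImplicit false

/-!
# The explicit polyhedron: vertices, faces, dihedral angle, triangles
-/

open MeasureTheory Set
open scoped ENNReal RealInnerProductSpace

namespace Pool.Agent.Lib.MP_b9d07b_gt

theorem inner_E3 (u v : E3) : ⟪u, v⟫ = u 0 * v 0 + u 1 * v 1 + u 2 * v 2 := by
  simp only [PiLp.inner_apply, Fin.sum_univ_three, RCLike.inner_apply, conj_trivial]
  ring

theorem normSq_E3 (u : E3) : ‖u‖ ^ 2 = u 0 ^ 2 + u 1 ^ 2 + u 2 ^ 2 := by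
  rw [← real_inner_self_eq_norm_sq, inner_E3]; ring

@[simp] theorem north_zero : north 0 = 0 := rfl
@[simp] theorem north_one : north 1 = 0 := rfl
@[simp] theorem north_two : north 2 = 1 := rfl

theorem lift_zero' (z : ℂ) : lift z 0 = 2 * z.re / (Complex.normSq z + 1) := rfl
theorem lift_one' (z : ℂ) : lift z 1 = 2 * z.im / (Complex.normSq z + 1) := rfl
theorem lift_two' (z : ℂ) : lift z 2 = (Complex.normSq z - 1) / (Complex.normSq z + 1) := rfl

theorem normSq_add_one_pos (z : ℂ) : 0 < Complex.normSq z + 1 := by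
  linarith [Complex.normSq_nonneg z]

theorem norm_lift (z : ℂ) : ‖lift z‖ = 1 := by
  have h : ‖lift z‖ ^ 2 = 1 := by
    have h0 := normSq_add_one_pos z
    rw [normSq_E3, lift_zero', lift_one', lift_two']
    field_simp
    rw [Complex.normSq_apply]
    ring
  have h1 : 0 ≤ ‖lift z‖ := norm_nonneg _
  nlinarith [h, h1]

theorem norm_north : ‖north‖ = 1 := by
  have h : ‖north‖ ^ 2 = 1 := by rw [normSq_E3]; simp
  nlinarith [h, norm_nonneg north]

theorem lift_ne_north (z : ℂ) : lift z ≠ north := by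
  intro h
  have h1 := congrArg (fun v : E3 => v 2) h
  simp only [lift_two', north_two] at h1
  have h0 := normSq_add_one_pos z
  rw [div_eq_one_iff_eq h0.ne'] at h1
  linarith

theorem lift_injective : Function.Injective lift := by
  intro z w h
  have h0 := normSq_add_one_pos z
  have h0' := normSq_add_one_pos w
  have e2 := congrArg (fun v : E3 => v 2) h
  have e0 := congrArg (fun v : E3 => v 0) h
  have e1 := congrArg (fun v : E3 => v 1) h
  simp only [lift_two', lift_one', lift_zero'] at e0 e1 e2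
  have hn : Complex.normSq z = Complex.normSq w := by
    rw [div_eq_div_iff h0.ne' h0'.ne'] at e2
    linarith
  rw [hn] at e0 e1
  have h1 : z.re = w.re := by
    rw [div_left_inj' h0'.ne'] at e0
    linarith
  have h2 : z.im = w.im := by
    rw [div_left_inj' h0'.ne'] at e1
    linarith
  exact Complex.ext h1 h2

@[simp] theorem ex_re (t : ℝ) : (ex t).re = Real.cos t := rfl
@[simp] theorem ex_im (t : ℝ) : (ex t).im = Real.sin t := rfl
@[simp] theorem zU_re : zU.re = -1 / (2 * Real.cos phi) := rfl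
@[simp] theorem zU_im : zU.im = 0 := rfl
@[simp] theorem zQ_re : zQ.re = -2 * Real.cos phi := rfl
@[simp] theorem zQ_im : zQ.im = 0 := rfl

theorem normSq_ex (t : ℝ) : Complex.normSq (ex t) = 1 := by
  rw [Complex.normSq_apply, ex_re, ex_im]
  nlinarith [Real.sin_sq_add_cos_sq t]

theorem cos_three_phi : Real.cos (3 * phi) = -2 * Real.cos phi * (1 - Real.sin phi) := by
  obtain ⟨-, -, -, -, h, -⟩ := phiFacts
  rw [Real.cos_three_mul]
  linear_combination Real.cos phi * h

theorem sin_three_phi : Real.sin (3 * phi) = 2 * Real.sin phi ^ 2 := by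
  obtain ⟨-, -, -, h, -⟩ := phiFacts
  rw [Real.sin_three_mul]
  linear_combination -Real.sin phi * h

theorem sin_lt_one' : Real.sin phi < 1 := by
  obtain ⟨-, -, h, -⟩ := phiFacts
  rw [h]; linarith [sqrt13_lt]

/-- All the inequalities about `φ` used below. -/
theorem ineqs : 0 < Real.sin phi ∧ Real.sin phi < 1 ∧ 0 < Real.cos phi ∧
    Real.cos (3 * phi) < 0 ∧ 0 < Real.sin (3 * phi) ∧ -1 / (2 * Real.cos phi) < 0 ∧
    -2 * Real.cos phi < -1 / (2 * Real.cos phi) := by
  obtain ⟨-, -, -, hq, hc, hs0, hc0, -⟩ := phiFacts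
  have hs1 := sin_lt_one'
  have h3 := cos_three_phi
  have h3' := sin_three_phi
  refine ⟨hs0, hs1, hc0, ?_, ?_, ?_, ?_⟩
  · rw [h3]; nlinarith
  · rw [h3']; positivity
  · exact div_neg_of_neg_of_pos (by norm_num) (by positivity)
  · rw [lt_div_iff₀ (by positivity)]
    nlinarith

theorem ne_of_re {z w : ℂ} (h : z.re ≠ w.re) : z ≠ w := fun e => h (by rw [e])
theorem ne_of_im {z w : ℂ} (h : z.im ≠ w.im) : z ≠ w := fun e => h (by rw [e])

theorem Z0_card : Z0.card = 7 := by
  classical
  obtain ⟨hs0, hs1, hc0, hc3, hs3, hU, hQU⟩ := ineqs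
  unfold Z0
  rw [Finset.card_insert_of_notMem, Finset.card_insert_of_notMem, Finset.card_insert_of_notMem,
    Finset.card_insert_of_notMem, Finset.card_insert_of_notMem, Finset.card_insert_of_notMem,
    Finset.card_singleton]
  all_goals simp only [Finset.mem_insert, Finset.mem_singleton, not_or]
  · exact ne_of_re (by rw [zU_re, zQ_re]; exact hQU.ne')
  · refine ⟨ne_of_im ?_, ne_of_im ?_⟩ <;>
      simp only [ex_im, zU_im, zQ_im, Real.sin_neg] <;> linarith
  · refine ⟨ne_of_im ?_, ne_of_im ?_, ne_of_im ?_⟩ <;>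
      simp only [ex_im, zU_im, zQ_im, Real.sin_neg] <;> intro h <;> linarith
  · refine ⟨ne_of_re ?_, ne_of_re ?_, ne_of_re ?_, ne_of_re ?_⟩ <;>
      simp only [ex_re, zU_re, zQ_re, Real.cos_neg] <;> intro h <;> linarith
  · refine ⟨ne_of_im ?_, ne_of_re ?_, ne_of_re ?_, ne_of_re ?_, ne_of_re ?_⟩ <;>
      simp only [ex_re, zU_re, zQ_re, Real.cos_neg, ex_im, Real.sin_neg] <;> intro h <;> linarith
  · refine ⟨ne_of_re ?_, ne_of_re ?_, ne_of_re ?_, ne_of_re ?_, ne_of_re ?_, ne_of_re ?_⟩ <;>
      simp only [ex_re, zU_re, zQ_re, Real.cos_neg, Complex.zero_re] <;> intro h <;> linarith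

theorem mem_S0_iff {p : E3} : p ∈ S0 ↔ p = north ∨ ∃ z ∈ Z0, lift z = p := by
  classical
  simp [S0]

theorem mem_Z0_iff {z : ℂ} : z ∈ Z0 ↔ z = 0 ∨ z = ex phi ∨ z = ex (-phi) ∨ z = ex (3 * phi) ∨
    z = ex (-(3 * phi)) ∨ z = zU ∨ z = zQ := by
  classical
  simp [Z0]

theorem S0_card : S0.card = 8 := by
  classical
  unfold S0
  rw [Finset.card_insert_of_notMem, Finset.card_image_of_injective _ lift_injective, Z0_card]
  intro h
  obtain ⟨z, -, hz⟩ := Finset.mem_image.1 h
  exact lift_ne_north z hz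

theorem north_mem : north ∈ S0 := mem_S0_iff.2 (Or.inl rfl)

theorem lift_mem {z : ℂ} (hz : z ∈ Z0) : lift z ∈ S0 := mem_S0_iff.2 (Or.inr ⟨z, hz, rfl⟩)

theorem s0Ideal : S0Ideal := by
  refine ⟨S0_card, ?_, ?_⟩
  · intro p hp
    rcases mem_S0_iff.1 hp with rfl | ⟨z, -, rfl⟩
    · exact norm_north
    · exact norm_lift z
  · intro u c h
    obtain ⟨hs0, hs1, hc0, -⟩ := ineqs
    have h1 := h _ north_mem
    have h2 := h _ (lift_mem (z := 0) (mem_Z0_iff.2 (by tauto)))
    have h3 := h _ (lift_mem (z := ex phi) (mem_Z0_iff.2 (by tauto)))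
    have h4 := h _ (lift_mem (z := ex (-phi)) (mem_Z0_iff.2 (by tauto)))
    rw [inner_E3] at h1 h2 h3 h4
    simp only [north_zero, north_one, north_two, mul_zero, mul_one, zero_add] at h1
    simp only [lift_zero', lift_one', lift_two', Complex.zero_re, Complex.zero_im, map_zero,
      mul_zero, zero_div, zero_add, zero_sub] at h2
    simp only [lift_zero', lift_one', lift_two', normSq_ex, ex_re, ex_im, Real.cos_neg,
      Real.sin_neg] at h3 h4
    have e2 : u 2 = 0 := by linarith
    have ec : c = 0 := by linarith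
    rw [e2, ec] at h3 h4
    have e0 : u 0 * Real.cos phi = 0 := by linarith
    have e1 : u 1 * Real.sin phi = 0 := by linarith
    have e0' : u 0 = 0 := by
      rcases mul_eq_zero.1 e0 with h | h
      · exact h
      · exact absurd h hc0.ne'
    have e1' : u 1 = 0 := by
      rcases mul_eq_zero.1 e1 with h | h
      · exact h
      · exact absurd h hs0.ne'
    ext i
    fin_cases i
    · exact e0'
    · exact e1'
    · exact e2

/-! ### The dihedral angle -/

/-- The normal of the face over the vertical plane. -/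
noncomputable def nV : E3 := !₂[1, 0, Real.cos phi]
/-- The normal of the face through the lifts of `0, e^{±iφ}`. -/
noncomputable def nH : E3 := !₂[1, 0, -Real.cos phi]

@[simp] theorem nV_zero : nV 0 = 1 := rfl
@[simp] theorem nV_one : nV 1 = 0 := rfl
@[simp] theorem nV_two : nV 2 = Real.cos phi := rfl
@[simp] theorem nH_zero : nH 0 = 1 := rfl
@[simp] theorem nH_one : nH 1 = 0 := rfl
@[simp] theorem nH_two : nH 2 = -Real.cos phi := rfl

theorem inner_nV_lift (z : ℂ) : ⟪nV, lift z⟫ - Real.cos phi =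
    2 * (z.re - Real.cos phi) / (Complex.normSq z + 1) := by
  have h0 := normSq_add_one_pos z
  rw [inner_E3, nV_zero, nV_one, nV_two, lift_zero', lift_one', lift_two']
  field_simp
  ring

theorem inner_nH_lift (z : ℂ) : ⟪nH, lift z⟫ - Real.cos phi =
    2 * (z.re - Real.cos phi * Complex.normSq z) / (Complex.normSq z + 1) := by
  have h0 := normSq_add_one_pos z
  rw [inner_E3, nH_zero, nH_one, nH_two, lift_zero', lift_one', lift_two']
  field_simp
  ring

theorem card_three {p q r : E3} (h1 : p ≠ q) (h2 : p ≠ r) (h3 : q ≠ r) :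
    (open Classical in ({p, q, r} : Finset E3)).card = 3 := by
  classical
  rw [Finset.card_eq_three]
  exact ⟨p, q, r, h1, h2, h3, rfl⟩

theorem zero_mem_Z0 : (0 : ℂ) ∈ Z0 := mem_Z0_iff.2 (by tauto)
theorem exp_mem_Z0 : ex phi ∈ Z0 := mem_Z0_iff.2 (by tauto)
theorem exm_mem_Z0 : ex (-phi) ∈ Z0 := mem_Z0_iff.2 (by tauto)

theorem ex_ne_ex_neg : ex phi ≠ ex (-phi) := by
  obtain ⟨hs0, -⟩ := ineqs
  refine ne_of_im ?_
  simp only [ex_im, Real.sin_neg]
  intro h
  linarith

theorem zero_ne_ex (t : ℝ) (h : 0 < Real.cos t) : (0 : ℂ) ≠ ex t := by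
  refine ne_of_re ?_
  simp only [ex_re, Complex.zero_re]
  exact h.ne

theorem face_nV : IsFace S0 nV (Real.cos phi) := by
  classical
  obtain ⟨hs0, hs1, hc0, hc3, hs3, hU, hQU⟩ := ineqs
  refine ⟨?_, ?_, {north, lift (ex phi), lift (ex (-phi))}, ?_, ?_, ?_⟩
  · rw [normSq_E3, nV_zero, nV_one, nV_two]; ring
  · intro p hp
    rcases mem_S0_iff.1 hp with rfl | ⟨z, hz, rfl⟩
    · rw [inner_E3]; simp
    · rw [← sub_nonpos, inner_nV_lift]
      refine div_nonpos_of_nonpos_of_nonneg ?_ (normSq_add_one_pos z).le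
      rcases mem_Z0_iff.1 hz with rfl | rfl | rfl | rfl | rfl | rfl | rfl <;>
        simp only [Complex.zero_re, ex_re, zU_re, zQ_re, Real.cos_neg] <;> linarith
  · intro p hp
    simp only [Finset.mem_insert, Finset.mem_singleton] at hp
    rcases hp with rfl | rfl | rfl
    · exact north_mem
    · exact lift_mem exp_mem_Z0
    · exact lift_mem exm_mem_Z0
  · exact card_three (lift_ne_north _).symm (lift_ne_north _).symm
      (fun h => ex_ne_ex_neg (lift_injective h))
  · intro p hp
    simp only [Finset.mem_insert, Finset.mem_singleton] at hp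
    rcases hp with rfl | rfl | rfl
    · rw [inner_E3]; simp
    · rw [← sub_eq_zero, inner_nV_lift]; simp
    · rw [← sub_eq_zero, inner_nV_lift]; simp

theorem face_nH : IsFace S0 nH (Real.cos phi) := by
  classical
  obtain ⟨hs0, hs1, hc0, hc3, hs3, hU, hQU⟩ := ineqs
  refine ⟨?_, ?_, {lift 0, lift (ex phi), lift (ex (-phi))}, ?_, ?_, ?_⟩
  · rw [normSq_E3, nH_zero, nH_one, nH_two]; ring
  · intro p hp
    rcases mem_S0_iff.1 hp with rfl | ⟨z, hz, rfl⟩
    · rw [inner_E3]; simp only [nH_zero, nH_one, nH_two, north_zero, north_one, north_two]; linarith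
    · rw [← sub_nonpos, inner_nH_lift]
      refine div_nonpos_of_nonpos_of_nonneg ?_ (normSq_add_one_pos z).le
      rcases mem_Z0_iff.1 hz with rfl | rfl | rfl | rfl | rfl | rfl | rfl
      · simp
      · simp [normSq_ex]
      · simp [normSq_ex]
      · simp only [normSq_ex, ex_re]; linarith
      · simp only [normSq_ex, ex_re, Real.cos_neg]; linarith
      · have := Complex.normSq_nonneg zU
        simp only [zU_re]; nlinarith [mul_nonneg hc0.le this]
      · have := Complex.normSq_nonneg zQ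
        simp only [zQ_re]; nlinarith [mul_nonneg hc0.le this]
  · intro p hp
    simp only [Finset.mem_insert, Finset.mem_singleton] at hp
    rcases hp with rfl | rfl | rfl
    · exact lift_mem zero_mem_Z0
    · exact lift_mem exp_mem_Z0
    · exact lift_mem exm_mem_Z0
  · exact card_three (fun h => zero_ne_ex phi hc0 (lift_injective h))
      (fun h => zero_ne_ex (-phi) (by rwa [Real.cos_neg]) (lift_injective h))
      (fun h => ex_ne_ex_neg (lift_injective h))
  · intro p hp
    simp only [Finset.mem_insert, Finset.mem_singleton] at hp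
    rcases hp with rfl | rfl | rfl
    · rw [← sub_eq_zero, inner_nH_lift]; simp
    · rw [← sub_eq_zero, inner_nH_lift]; simp [normSq_ex]
    · rw [← sub_eq_zero, inner_nH_lift]; simp [normSq_ex]

theorem s0Angle : S0Angle := by
  obtain ⟨hs0, hs1, hc0, hc3, hs3, hU, hQU⟩ := ineqs
  obtain ⟨h0, h1, -⟩ := phiFacts
  refine ⟨lift_mem exp_mem_Z0, lift_mem exm_mem_Z0, fun h => ex_ne_ex_neg (lift_injective h),
    by linarith, by linarith, nV, Real.cos phi, nH, Real.cos phi, face_nV, face_nH, ?_, ?_, ?_, ?_,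
    ?_, ?_⟩
  · intro h
    have h2 : nV 2 = nH 2 := congrArg (fun v : E3 × ℝ => v.1 2) h
    rw [nV_two, nH_two] at h2
    linarith
  · rw [← sub_eq_zero, inner_nV_lift]; simp
  · rw [← sub_eq_zero, inner_nV_lift]; simp
  · rw [← sub_eq_zero, inner_nH_lift]; simp [normSq_ex]
  · rw [← sub_eq_zero, inner_nH_lift]; simp [normSq_ex]
  · rw [inner_E3, Real.cos_two_mul]
    simp only [nV_zero, nV_one, nV_two, nH_zero, nH_one, nH_two]
    ring

/-! ### The triangles are pairwise almost disjoint -/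

/-- A real linear functional on the plane. -/
noncomputable def lf (a b : ℝ) : ℂ →ₗ[ℝ] ℝ := a • Complex.reLm + b • Complex.imLm

@[simp] theorem lf_apply (a b : ℝ) (z : ℂ) : lf a b z = a * z.re + b * z.im := by
  simp [lf]

theorem volume_line (a b d : ℝ) (h : a ≠ 0 ∨ b ≠ 0) :
    (volume : Measure ℂ) {z | a * z.re + b * z.im = d} = 0 := by
  have hne : ∃ w : ℂ, lf a b w ≠ 0 := by
    rcases h with h | h
    · exact ⟨1, by simpa using h⟩
    · exact ⟨Complex.I, by simpa using h⟩
  obtain ⟨w, hw⟩ := hne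
  by_cases hemp : ({z : ℂ | a * z.re + b * z.im = d}).Nonempty
  · obtain ⟨z0, hz0⟩ := hemp
    have h1 : {z : ℂ | a * z.re + b * z.im = d} =
        (AffineSubspace.mk' z0 (LinearMap.ker (lf a b)) : Set ℂ) := by
      ext z
      simp only [mem_ofPred_eq, SetLike.mem_coe, AffineSubspace.mem_mk', LinearMap.mem_ker,
        vsub_eq_sub, map_sub, lf_apply]
      have : a * z0.re + b * z0.im = d := hz0
      rw [this, sub_eq_zero]
    rw [h1]
    refine Measure.addHaar_affineSubspace _ _ ?_
    intro htop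
    have h2 : (AffineSubspace.mk' z0 (LinearMap.ker (lf a b))).direction = ⊤ := by
      rw [htop, AffineSubspace.direction_top]
    rw [AffineSubspace.direction_mk'] at h2
    exact hw (LinearMap.mem_ker.1 (h2 ▸ Submodule.mem_top))
  · rw [not_nonempty_iff_eq_empty.1 hemp]; simp

theorem sep {A B : Set ℂ} (a b d : ℝ) (h : a ≠ 0 ∨ b ≠ 0)
    (hA : ∀ z ∈ A, a * z.re + b * z.im ≤ d) (hB : ∀ z ∈ B, d ≤ a * z.re + b * z.im) :
    AEDisjoint volume (convexHull ℝ A) (convexHull ℝ B) := by
  have h1 : convexHull ℝ A ⊆ {z | lf a b z ≤ d} := by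
    refine convexHull_min ?_ (convex_halfSpace_le (lf a b).isLinear d)
    intro z hz
    simpa using hA z hz
  have h2 : convexHull ℝ B ⊆ {z | d ≤ lf a b z} := by
    refine convexHull_min ?_ (convex_halfSpace_ge (lf a b).isLinear d)
    intro z hz
    simpa using hB z hz
  refine measure_mono_null ?_ (volume_line a b d h)
  rintro z ⟨hz1, hz2⟩
  have e1 := h1 hz1
  have e2 := h2 hz2
  simp only [mem_ofPred_eq, lf_apply] at e1 e2 ⊢
  linarith

end Pool.Agent.Lib.MP_b9d07b_gt
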