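import Pool.Agent.Lib.MP_b9d07b_gt.ExPoly
import Pool.Agent.Lib.MP_b9d07b_gt.Bound

section
set_option autoImplicit false

/-!
# The explicit polyhedron: its triangles are pairwise almost disjoint
-/

open MeasureTheory Set
open scoped ENNReal RealInnerProductSpace

namespace Pool.Agent.Lib.MP_b9d07b_gt

theorem tri0_0 : tri0 0 = {0, ex (-phi), ex phi} := rfl
theorem tri0_1 : tri0 1 = {0, ex phi, ex (3 * phi)} := rfl
theorem tri0_2 : tri0 2 = {0, ex (-phi), ex (-(3 * phi))} := rfl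
theorem tri0_3 : tri0 3 = {0, ex (3 * phi), zU} := rfl
theorem tri0_4 : tri0 4 = {0, ex (-(3 * phi)), zU} := rfl
theorem tri0_5 : tri0 5 = {zU, ex (3 * phi), zQ} := rfl
theorem tri0_6 : tri0 6 = {zU, ex (-(3 * phi)), zQ} := rfl

theorem sin_two_phi_pos : 0 < Real.sin (2 * phi) := by
  obtain ⟨hs0, hs1, hc0, -⟩ := ineqs
  rw [Real.sin_two_mul]; positivity

theorem sin_diff : Real.cos (3 * phi) * Real.sin phi - Real.sin (3 * phi) * Real.cos phi =
    -Real.sin (2 * phi) := by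
  have : Real.sin (2 * phi) = Real.sin (3 * phi - phi) := by congr 1; ring
  rw [this, Real.sin_sub]; ring

/-- Positive `a`-values on the first three, and so on: all needed values. -/
theorem vals {P : ℂ → Prop} {x y z : ℂ} (h : P x ∧ P y ∧ P z) : ∀ w ∈ ({x, y, z} : Set ℂ), P w := by
  rintro w (rfl | rfl | rfl)
  exacts [h.1, h.2.1, h.2.2]

theorem s0Disjoint_lt (i j : Fin 7) (hij : i < j) :
    AEDisjoint volume (convexHull ℝ (tri0 i)) (convexHull ℝ (tri0 j)) := by
  obtain ⟨hs0, hs1, hc0, hc3, hs3, hU, hQU⟩ := ineqs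
  have h2 := sin_two_phi_pos
  have hd := sin_diff
  have hQ : -2 * Real.cos phi < 0 := by linarith
  have h22 : Real.sin (2 * phi) = 2 * Real.sin phi * Real.cos phi := Real.sin_two_mul _
  have hsc : 0 < Real.sin phi * Real.cos phi := by positivity
  have hsU : Real.sin (3 * phi) * (-1 / (2 * Real.cos phi)) < 0 := mul_neg_of_pos_of_neg hs3 hU
  have hsQ : Real.sin (3 * phi) * (-2 * Real.cos phi) < 0 := mul_neg_of_pos_of_neg hs3 hQ
  have hsQU : Real.sin (3 * phi) * (-2 * Real.cos phi) <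
    Real.sin (3 * phi) * (-1 / (2 * Real.cos phi)) := mul_lt_mul_of_pos_left hQU hs3
  have re0 : ∀ B : Set ℂ, (∀ z ∈ B, z.re ≤ 0) →
      AEDisjoint volume (convexHull ℝ (tri0 0)) (convexHull ℝ B) := by
    intro B hB
    refine sep (-1) 0 0 (Or.inl (by norm_num)) (vals ⟨?_, ?_, ?_⟩) ?_
    · simp
    · simp only [ex_re, Real.cos_neg]; linarith
    · simp only [ex_re]; linarith
    · intro z hz
      have := hB z hz
      linarith
  have im0 : ∀ A B : Set ℂ, (∀ z ∈ A, 0 ≤ z.im) → (∀ z ∈ B, z.im ≤ 0) →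
      AEDisjoint volume (convexHull ℝ A) (convexHull ℝ B) := by
    intro A B hA hB
    refine sep 0 (-1) 0 (Or.inr (by norm_num)) ?_ ?_
    · intro z hz
      have := hA z hz
      linarith
    · intro z hz
      have := hB z hz
      linarith
  have I1 : ∀ z ∈ tri0 1, 0 ≤ z.im := vals ⟨by simp, hs0.le, hs3.le⟩
  have I2 : ∀ z ∈ tri0 2, z.im ≤ 0 := vals
    ⟨by simp, by rw [ex_im, Real.sin_neg]; linarith, by rw [ex_im, Real.sin_neg]; linarith⟩
  have I3 : ∀ z ∈ tri0 3, 0 ≤ z.im := vals ⟨by simp, hs3.le, le_rfl⟩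
  have I4 : ∀ z ∈ tri0 4, z.im ≤ 0 := vals
    ⟨by simp, by rw [ex_im, Real.sin_neg]; linarith, le_rfl⟩
  have I5 : ∀ z ∈ tri0 5, 0 ≤ z.im := vals ⟨le_rfl, hs3.le, le_rfl⟩
  have I6 : ∀ z ∈ tri0 6, z.im ≤ 0 := vals
    ⟨le_rfl, by rw [ex_im, Real.sin_neg]; linarith, le_rfl⟩
  have R3 : ∀ z ∈ tri0 3, z.re ≤ 0 := vals ⟨by simp, hc3.le, by rw [zU_re]; exact hU.le⟩
  have R4 : ∀ z ∈ tri0 4, z.re ≤ 0 := vals
    ⟨by simp, by rw [ex_re, Real.cos_neg]; exact hc3.le, by rw [zU_re]; exact hU.le⟩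
  have R5 : ∀ z ∈ tri0 5, z.re ≤ 0 := vals
    ⟨by rw [zU_re]; exact hU.le, hc3.le, by rw [zQ_re]; linarith⟩
  have R6 : ∀ z ∈ tri0 6, z.re ≤ 0 := vals
    ⟨by rw [zU_re]; exact hU.le, by rw [ex_re, Real.cos_neg]; exact hc3.le,
      by rw [zQ_re]; linarith⟩
  have D01 : AEDisjoint volume (convexHull ℝ (tri0 0)) (convexHull ℝ (tri0 1)) := by
    refine sep (-Real.sin phi) (Real.cos phi) 0 (Or.inr hc0.ne') (vals ⟨?_, ?_, ?_⟩)
      (vals ⟨?_, ?_, ?_⟩) <;>
      simp only [Complex.zero_re, Complex.zero_im, ex_re, ex_im, Real.cos_neg, Real.sin_neg] <;>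
      nlinarith
  have D02 : AEDisjoint volume (convexHull ℝ (tri0 0)) (convexHull ℝ (tri0 2)) := by
    refine sep (-Real.sin phi) (-Real.cos phi) 0 (Or.inl (by linarith)) (vals ⟨?_, ?_, ?_⟩)
      (vals ⟨?_, ?_, ?_⟩) <;>
      simp only [Complex.zero_re, Complex.zero_im, ex_re, ex_im, Real.cos_neg, Real.sin_neg] <;>
      nlinarith
  have D13 : AEDisjoint volume (convexHull ℝ (tri0 1)) (convexHull ℝ (tri0 3)) := by
    refine sep (-Real.sin (3 * phi)) (Real.cos (3 * phi)) 0 (Or.inr hc3.ne) (vals ⟨?_, ?_, ?_⟩)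
      (vals ⟨?_, ?_, ?_⟩) <;>
      simp only [Complex.zero_re, Complex.zero_im, ex_re, ex_im, zU_re, zU_im] <;>
      linarith
  have D15 : AEDisjoint volume (convexHull ℝ (tri0 1)) (convexHull ℝ (tri0 5)) := by
    refine sep (-Real.sin (3 * phi)) (Real.cos (3 * phi)) 0 (Or.inr hc3.ne) (vals ⟨?_, ?_, ?_⟩)
      (vals ⟨?_, ?_, ?_⟩) <;>
      simp only [Complex.zero_re, Complex.zero_im, ex_re, ex_im, zU_re, zU_im, zQ_re, zQ_im] <;>
      linarith
  have D24 : AEDisjoint volume (convexHull ℝ (tri0 2)) (convexHull ℝ (tri0 4)) := by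
    refine sep (-Real.sin (3 * phi)) (-Real.cos (3 * phi)) 0 (Or.inr (by linarith))
      (vals ⟨?_, ?_, ?_⟩) (vals ⟨?_, ?_, ?_⟩) <;>
      simp only [Complex.zero_re, Complex.zero_im, ex_re, ex_im, zU_re, zU_im, Real.cos_neg,
        Real.sin_neg] <;>
      linarith
  have D26 : AEDisjoint volume (convexHull ℝ (tri0 2)) (convexHull ℝ (tri0 6)) := by
    refine sep (-Real.sin (3 * phi)) (-Real.cos (3 * phi)) 0 (Or.inr (by linarith))
      (vals ⟨?_, ?_, ?_⟩) (vals ⟨?_, ?_, ?_⟩) <;>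
      simp only [Complex.zero_re, Complex.zero_im, ex_re, ex_im, zU_re, zU_im, zQ_re, zQ_im,
        Real.cos_neg, Real.sin_neg] <;>
      linarith
  have D35 : AEDisjoint volume (convexHull ℝ (tri0 3)) (convexHull ℝ (tri0 5)) := by
    refine sep (-Real.sin (3 * phi)) (Real.cos (3 * phi) - -1 / (2 * Real.cos phi))
      (-(Real.sin (3 * phi) * (-1 / (2 * Real.cos phi)))) (Or.inl (by linarith))
      (vals ⟨?_, ?_, ?_⟩) (vals ⟨?_, ?_, ?_⟩) <;>
      simp only [Complex.zero_re, Complex.zero_im, ex_re, ex_im, zU_re, zU_im, zQ_re, zQ_im] <;>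
      linarith
  have D46 : AEDisjoint volume (convexHull ℝ (tri0 4)) (convexHull ℝ (tri0 6)) := by
    refine sep (-Real.sin (3 * phi)) (-(Real.cos (3 * phi) - -1 / (2 * Real.cos phi)))
      (-(Real.sin (3 * phi) * (-1 / (2 * Real.cos phi)))) (Or.inl (by linarith))
      (vals ⟨?_, ?_, ?_⟩) (vals ⟨?_, ?_, ?_⟩) <;>
      simp only [Complex.zero_re, Complex.zero_im, ex_re, ex_im, zU_re, zU_im, zQ_re, zQ_im,
        Real.cos_neg, Real.sin_neg] <;>
      linarith
  fin_cases i <;> fin_cases j <;> first | (exact absurd hij (by decide)) | skip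
  · exact D01
  · exact D02
  · exact re0 _ R3
  · exact re0 _ R4
  · exact re0 _ R5
  · exact re0 _ R6
  · exact im0 _ _ I1 I2
  · exact D13
  · exact im0 _ _ I1 I4
  · exact D15
  · exact im0 _ _ I1 I6
  · exact (im0 _ _ I3 I2).symm
  · exact D24
  · exact (im0 _ _ I5 I2).symm
  · exact D26
  · exact im0 _ _ I3 I4
  · exact D35
  · exact im0 _ _ I3 I6
  · exact (im0 _ _ I5 I4).symm
  · exact D46
  · exact im0 _ _ I5 I6

theorem s0Disjoint : S0Disjoint := by
  intro i j hij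
  rcases lt_or_gt_of_ne hij with h | h
  · exact s0Disjoint_lt i j h
  · exact (s0Disjoint_lt j i h).symm

end Pool.Agent.Lib.MP_b9d07b_gt
end

section
set_option autoImplicit false

/-!
# The volume of the explicit polyhedron
-/

open MeasureTheory Set Filter Topology Real
open scoped ENNReal RealInnerProductSpace

namespace Pool.Agent.Lib.MP_b9d07b_gt

/-- The triangle `p, q, r` has the angles `A, B, C`, and is positively oriented. -/
structure Shape (p q r : ℂ) (A B C : ℝ) : Prop where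
  hA : 0 < A
  hB : 0 < B
  hC : 0 < C
  hs : A + B + C = π
  ex : ∃ κ : ℂ, κ ≠ 0 ∧ q = p + κ * (sin C : ℝ) ∧ r = p + κ * pol (sin B) A

theorem Shape.orient_pos {p q r : ℂ} {A B C : ℝ} (h : Shape p q r A B C) : 0 < orient p q r := by
  obtain ⟨hA, hB, hC, hs, κ, hκ, rfl, rfl⟩ := h
  have sA : 0 < sin A := Real.sin_pos_of_pos_of_lt_pi hA (by linarith)
  have sB : 0 < sin B := Real.sin_pos_of_pos_of_lt_pi hB (by linarith)
  have sC : 0 < sin C := Real.sin_pos_of_pos_of_lt_pi hC (by linarith)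
  have hN : 0 < Complex.normSq κ := Complex.normSq_pos.2 hκ
  have : orient p (p + κ * (sin C : ℝ)) (p + κ * pol (sin B) A) =
      Complex.normSq κ * (sin C * sin B * sin A) := by
    simp only [orient, Complex.add_re, Complex.add_im, Complex.mul_re, Complex.mul_im,
      Complex.ofReal_re, Complex.ofReal_im, pol, Complex.normSq_apply]
    ring
  rw [this]
  positivity

theorem NC_of_orient {T : Finset ℂ} {p q r : ℂ} (hmem : ∀ x, x ∈ T ↔ x = p ∨ x = q ∨ x = r)
    (ho : orient p q r ≠ 0) : NC T := by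
  classical
  have hpq : p ≠ q := by rintro rfl; exact ho (by simp [orient])
  have hpr : p ≠ r := by rintro rfl; exact ho (by simp [orient])
  have hqr : q ≠ r := by rintro rfl; exact ho (by simp [orient]; ring)
  have hT : T = {p, q, r} := by ext x; simp [hmem]
  refine ⟨by rw [hT]; exact Finset.card_eq_three.2 ⟨p, q, r, hpq, hpr, hqr, rfl⟩, ?_⟩
  intro a ha b hb c hc hab hbc hac
  rw [hmem] at ha hb hc
  have e1 : orient p r q = - orient p q r := by simp [orient]; ring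
  have e2 : orient q p r = - orient p q r := by simp [orient]; ring
  have e3 : orient q r p = orient p q r := by simp [orient]; ring
  have e4 : orient r p q = orient p q r := by simp [orient]; ring
  have e5 : orient r q p = - orient p q r := by simp [orient]; ring
  rcases ha with rfl | rfl | rfl <;> rcases hb with rfl | rfl | rfl <;>
    rcases hc with rfl | rfl | rfl <;>
    first
      | exact absurd rfl hab
      | exact absurd rfl hbc
      | exact absurd rfl hac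
      | exact ho
      | (rw [e1]; exact neg_ne_zero.2 ho)
      | (rw [e2]; exact neg_ne_zero.2 ho)
      | (rw [e3]; exact ho)
      | (rw [e4]; exact ho)
      | (rw [e5]; exact neg_ne_zero.2 ho)

theorem Shape.nc {p q r : ℂ} {A B C : ℝ} (h : Shape p q r A B C) {T : Finset ℂ}
    (hmem : ∀ x, x ∈ T ↔ x = p ∨ x = q ∨ x = r) : NC T :=
  NC_of_orient hmem h.orient_pos.ne'

theorem Shape.volT {p q r : ℂ} {A B C : ℝ} (h : Shape p q r A B C) {T : Finset ℂ}
    (hmem : ∀ x, x ∈ T ↔ x = p ∨ x = q ∨ x = r) :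
    ENNReal.ofReal (volT T) = ENNReal.ofReal (Lob A + Lob B + Lob C) := by
  have hT := h.nc hmem
  have hm := mkT_spec hT
  rw [← tet_integral hT hm, tri_set hmem]
  obtain ⟨hA, hB, hC, hs, κ, hκ, hq, hr⟩ := h
  have hz : ∀ z ∈ T, pw (mkT T).1 (mkT T).2 z = 0 := fun z hz => by
    rw [pw_eq, hm z hz, sub_self]
  exact tri_similar hA hB hC hs hκ hq hr (hz p ((hmem p).2 (by simp)))
    (hz q ((hmem q).2 (by simp))) (hz r ((hmem r).2 (by simp)))

theorem Shape.volT_eq {p q r : ℂ} {A B C : ℝ} (h : Shape p q r A B C) {T : Finset ℂ}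
    (hmem : ∀ x, x ∈ T ↔ x = p ∨ x = q ∨ x = r) :
    Pool.Agent.Lib.MP_b9d07b_gt.volT T = Lob A + Lob B + Lob C :=
  (ENNReal.ofReal_eq_ofReal_iff (volT_nonneg (h.nc hmem)) (vt_nonneg h.hA h.hB h.hC h.hs)).1
    (h.volT hmem)

/-! ### The seven triangles -/

theorem ex_add (s t : ℝ) : ex (s + t) = ex s * ex t := by
  apply Complex.ext
  · simp [Real.cos_add]
  · simp [Real.sin_add]; ring

theorem pol_ex (ρ θ : ℝ) : pol ρ θ = (ρ : ℂ) * ex θ := by
  apply Complex.ext <;> simp [pol]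

theorem ex_ne (t : ℝ) : ex t ≠ 0 := by
  intro h
  have := normSq_ex t
  rw [h] at this
  simp at this

theorem ex_pi : ex π = -1 := by
  apply Complex.ext <;> simp

theorem ex_neg_mul (t : ℝ) : ex (-t) * ex t = 1 := by
  rw [← ex_add]
  apply Complex.ext <;> simp

/-- A triangle with the apex at the centre. -/
theorem shape_apex (t : ℝ) : Shape 0 (ex t) (ex (t + 2 * phi)) (2 * phi) ((π - 2 * phi) / 2)
    ((π - 2 * phi) / 2) := by
  obtain ⟨h0, h1, h2, h3, h4, h5, h6, h7⟩ := phiFacts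
  refine ⟨by linarith, by linarith, by linarith, by ring, ex t / (cos phi : ℝ), ?_, ?_, ?_⟩
  · exact div_ne_zero (ex_ne t) (by exact_mod_cast h6.ne')
  · have e1 : (π - 2 * phi) / 2 = π / 2 - phi := by ring
    rw [e1, Real.sin_pi_div_two_sub, zero_add, div_mul_cancel₀]
    exact_mod_cast h6.ne'
  · have e1 : (π - 2 * phi) / 2 = π / 2 - phi := by ring
    have hc : ((cos phi : ℝ) : ℂ) ≠ 0 := by exact_mod_cast h6.ne'
    rw [e1, Real.sin_pi_div_two_sub, zero_add, pol_ex, ex_add]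
    field_simp

/-- The second kind. -/
theorem shape_mid : Shape 0 (ex (3 * phi)) zU (π - 3 * phi) phi (2 * phi) := by
  obtain ⟨h0, h1, h2, h3, h4, h5, h6, h7⟩ := phiFacts
  have h8 := sin_two_phi_pos
  have hc : ((cos phi : ℝ) : ℂ) ≠ 0 := by exact_mod_cast h6.ne'
  have hs : ((sin phi : ℝ) : ℂ) ≠ 0 := by exact_mod_cast h5.ne'
  have hs2 : ((sin (2 * phi) : ℝ) : ℂ) ≠ 0 := by exact_mod_cast h8.ne'
  refine ⟨by linarith, by linarith, by linarith, by ring,
    ex (3 * phi) / (sin (2 * phi) : ℝ), div_ne_zero (ex_ne _) hs2, ?_, ?_⟩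
  · rw [zero_add, div_mul_cancel₀ _ hs2]
  · have e1 : ex (π - 3 * phi) = - ex (-(3 * phi)) := by
      rw [sub_eq_add_neg, ex_add, ex_pi]; ring
    have e2 : zU = -1 / (2 * ((cos phi : ℝ) : ℂ)) := by
      apply Complex.ext
      · have : (-1 / (2 * ((cos phi : ℝ) : ℂ))) = ((-1 / (2 * cos phi) : ℝ) : ℂ) := by push_cast; ring
        rw [this, Complex.ofReal_re, zU_re]
      · have : (-1 / (2 * ((cos phi : ℝ) : ℂ))) = ((-1 / (2 * cos phi) : ℝ) : ℂ) := by push_cast; ring
        rw [this, Complex.ofReal_im, zU_im]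
    have e3 : ((sin (2 * phi) : ℝ) : ℂ) = 2 * (sin phi : ℝ) * (cos phi : ℝ) := by
      rw [Real.sin_two_mul]; push_cast; ring
    rw [zero_add, pol_ex, e1, e2, e3]
    have e4 := ex_neg_mul (3 * phi)
    rw [div_mul_eq_mul_div, div_eq_div_iff (mul_ne_zero two_ne_zero hc)
      (mul_ne_zero (mul_ne_zero two_ne_zero hs) hc)]
    linear_combination (2 * ((cos phi : ℝ) : ℂ) * (sin phi : ℝ)) * e4

/-- The second kind, mirrored. -/
theorem shape_mid' : Shape 0 zU (ex (-(3 * phi))) (π - 3 * phi) (2 * phi) phi := by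
  obtain ⟨h0, h1, h2, h3, h4, h5, h6, h7⟩ := phiFacts
  have h8 := sin_two_phi_pos
  have hc : ((cos phi : ℝ) : ℂ) ≠ 0 := by exact_mod_cast h6.ne'
  have hs : ((sin phi : ℝ) : ℂ) ≠ 0 := by exact_mod_cast h5.ne'
  have hs2 : ((sin (2 * phi) : ℝ) : ℂ) ≠ 0 := by exact_mod_cast h8.ne'
  refine ⟨by linarith, by linarith, by linarith, by ring,
    -1 / (sin (2 * phi) : ℝ), div_ne_zero (by norm_num) hs2, ?_, ?_⟩
  · have e2 : zU = -1 / (2 * ((cos phi : ℝ) : ℂ)) := by
      apply Complex.ext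
      · have : (-1 / (2 * ((cos phi : ℝ) : ℂ))) = ((-1 / (2 * cos phi) : ℝ) : ℂ) := by push_cast; ring
        rw [this, Complex.ofReal_re, zU_re]
      · have : (-1 / (2 * ((cos phi : ℝ) : ℂ))) = ((-1 / (2 * cos phi) : ℝ) : ℂ) := by push_cast; ring
        rw [this, Complex.ofReal_im, zU_im]
    have e3 : ((sin (2 * phi) : ℝ) : ℂ) = 2 * (sin phi : ℝ) * (cos phi : ℝ) := by
      rw [Real.sin_two_mul]; push_cast; ring
    rw [zero_add, e2, e3]
    field_simp
  · have e1 : ex (π - 3 * phi) = - ex (-(3 * phi)) := by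
      rw [sub_eq_add_neg, ex_add, ex_pi]; ring
    rw [zero_add, pol_ex, e1, div_mul_eq_mul_div, eq_div_iff hs2]
    ring

/-- The third kind. -/
theorem shape_end : Shape zU (ex (3 * phi)) zQ (π - 2 * phi) phi phi := by
  obtain ⟨h0, h1, h2, h3, h4, h5, h6, h7⟩ := phiFacts
  have hc : ((cos phi : ℝ) : ℂ) ≠ 0 := by exact_mod_cast h6.ne'
  refine ⟨by linarith, by linarith, by linarith, by ring,
    ex (2 * phi) / (cos phi : ℝ), div_ne_zero (ex_ne _) hc, ?_, ?_⟩
  · have hsq := Real.sin_sq_add_cos_sq phi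
    apply Complex.ext
    · simp only [ex_re, Complex.add_re, zU_re, Complex.mul_re, Complex.div_ofReal_re,
        Complex.ofReal_re, Complex.ofReal_im, Complex.div_ofReal_im, mul_zero, sub_zero]
      rw [Real.cos_three_mul, Real.cos_two_mul]
      field_simp
      nlinarith
    · simp only [ex_im, Complex.add_im, zU_im, Complex.mul_im, Complex.div_ofReal_re,
        Complex.ofReal_re, Complex.ofReal_im, Complex.div_ofReal_im, mul_zero, zero_add]
      rw [Real.sin_three_mul, Real.sin_two_mul]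
      field_simp
      nlinarith
  · have e1 : ex (π - 2 * phi) = - ex (-(2 * phi)) := by
      rw [sub_eq_add_neg, ex_add, ex_pi]; ring
    have e2 : ex (2 * phi) / ((cos phi : ℝ) : ℂ) * (((sin phi : ℝ) : ℂ) * - ex (-(2 * phi))) =
        ((-(sin phi / cos phi) : ℝ) : ℂ) := by
      have e4 := ex_neg_mul (2 * phi)
      rw [Complex.ofReal_neg, Complex.ofReal_div, div_mul_eq_mul_div, ← neg_div]
      congr 1
      linear_combination (-((sin phi : ℝ) : ℂ)) * e4
    rw [pol_ex, e1, e2]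
    apply Complex.ext
    · rw [Complex.add_re, Complex.ofReal_re, zU_re, zQ_re]
      field_simp
      nlinarith
    · rw [Complex.add_im, Complex.ofReal_im, zU_im, zQ_im]
      simp

/-- The third kind, mirrored. -/
theorem shape_end' : Shape zU zQ (ex (-(3 * phi))) (π - 2 * phi) phi phi := by
  obtain ⟨h0, h1, h2, h3, h4, h5, h6, h7⟩ := phiFacts
  have hc : ((cos phi : ℝ) : ℂ) ≠ 0 := by exact_mod_cast h6.ne'
  refine ⟨by linarith, by linarith, by linarith, by ring,
    -1 / (cos phi : ℝ), div_ne_zero (by norm_num) hc, ?_, ?_⟩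
  · have e2 : -1 / ((cos phi : ℝ) : ℂ) * ((sin phi : ℝ) : ℂ) = ((-(sin phi / cos phi) : ℝ) : ℂ) := by
      push_cast; ring
    rw [e2]
    apply Complex.ext
    · rw [Complex.add_re, Complex.ofReal_re, zU_re, zQ_re]
      field_simp
      nlinarith
    · rw [Complex.add_im, Complex.ofReal_im, zU_im, zQ_im]
      simp
  · have e1 : ex (π - 2 * phi) = - ex (-(2 * phi)) := by
      rw [sub_eq_add_neg, ex_add, ex_pi]; ring
    have e2 : -1 / ((cos phi : ℝ) : ℂ) * (((sin phi : ℝ) : ℂ) * - ex (-(2 * phi))) =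
        ((sin phi / cos phi : ℝ) : ℂ) * ex (-(2 * phi)) := by
      push_cast; ring
    rw [pol_ex, e1, e2]
    have hsq := Real.sin_sq_add_cos_sq phi
    apply Complex.ext
    · simp only [ex_re, Complex.add_re, zU_re, Complex.mul_re,
        Complex.ofReal_re, Complex.ofReal_im, zero_mul, sub_zero, Real.cos_neg]
      rw [Real.cos_three_mul, Real.cos_two_mul]
      field_simp
      nlinarith
    · simp only [ex_im, Complex.add_im, zU_im, Complex.mul_im,
        Complex.ofReal_re, Complex.ofReal_im, zero_mul, zero_add, add_zero, Real.sin_neg]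
      rw [Real.sin_three_mul, Real.sin_two_mul]
      field_simp
      nlinarith

/-! ### The volume -/

open Classical in
/-- The seven triangles as finite sets. -/
noncomputable def tau0 : Fin 7 → Finset ℂ :=
  ![{0, ex (-phi), ex phi}, {0, ex phi, ex (3 * phi)}, {0, ex (-phi), ex (-(3 * phi))},
    {0, ex (3 * phi), zU}, {0, ex (-(3 * phi)), zU}, {zU, ex (3 * phi), zQ},
    {zU, ex (-(3 * phi)), zQ}]

theorem coe_tau0 (i : Fin 7) : (tau0 i : Set ℂ) = tri0 i := by
  fin_cases i <;> simp [tau0, tri0]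

theorem mem_tau0 (i : Fin 7) (x : ℂ) : x ∈ tau0 i ↔ x ∈ tri0 i := by
  rw [← coe_tau0]; exact Finset.mem_coe.symm

theorem tau0_sub (i : Fin 7) : tau0 i ⊆ Z0 := by
  intro x hx
  fin_cases i <;> simp [tau0, Z0] at hx ⊢ <;> tauto

theorem mem3 {a b c x : ℂ} : x ∈ ({a, b, c} : Set ℂ) ↔ x = a ∨ x = b ∨ x = c := by
  simp

theorem vol_S0 : ENNReal.ofReal Vstar ≤ vol S0 := by
  have k0 : Shape 0 (ex (-phi)) (ex phi) (2 * phi) ((π - 2 * phi) / 2) ((π - 2 * phi) / 2) := by
    have := shape_apex (-phi)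
    rwa [show -phi + 2 * phi = phi by ring] at this
  have k1 : Shape 0 (ex phi) (ex (3 * phi)) (2 * phi) ((π - 2 * phi) / 2) ((π - 2 * phi) / 2) := by
    have := shape_apex phi
    rwa [show phi + 2 * phi = 3 * phi by ring] at this
  have k2 : Shape 0 (ex (-(3 * phi))) (ex (-phi)) (2 * phi) ((π - 2 * phi) / 2)
      ((π - 2 * phi) / 2) := by
    have := shape_apex (-(3 * phi))
    rwa [show -(3 * phi) + 2 * phi = -phi by ring] at this
  have k3 := shape_mid
  have k4 := shape_mid'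
  have k5 := shape_end
  have k6 := shape_end'
  have m0 : ∀ x, x ∈ tau0 0 ↔ x = 0 ∨ x = ex (-phi) ∨ x = ex phi := fun x => by
    rw [mem_tau0, tri0_0, mem3]
  have m1 : ∀ x, x ∈ tau0 1 ↔ x = 0 ∨ x = ex phi ∨ x = ex (3 * phi) := fun x => by
    rw [mem_tau0, tri0_1, mem3]
  have m2 : ∀ x, x ∈ tau0 2 ↔ x = 0 ∨ x = ex (-(3 * phi)) ∨ x = ex (-phi) := fun x => by
    rw [mem_tau0, tri0_2, mem3]; tauto
  have m3 : ∀ x, x ∈ tau0 3 ↔ x = 0 ∨ x = ex (3 * phi) ∨ x = zU := fun x => by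
    rw [mem_tau0, tri0_3, mem3]
  have m4 : ∀ x, x ∈ tau0 4 ↔ x = 0 ∨ x = zU ∨ x = ex (-(3 * phi)) := fun x => by
    rw [mem_tau0, tri0_4, mem3]; tauto
  have m5 : ∀ x, x ∈ tau0 5 ↔ x = zU ∨ x = ex (3 * phi) ∨ x = zQ := fun x => by
    rw [mem_tau0, tri0_5, mem3]
  have m6 : ∀ x, x ∈ tau0 6 ↔ x = zU ∨ x = zQ ∨ x = ex (-(3 * phi)) := fun x => by
    rw [mem_tau0, tri0_6, mem3]; tauto
  have hNC : ∀ i, NC (tau0 i) := by
    intro i
    fin_cases i
    exacts [k0.nc m0, k1.nc m1, k2.nc m2, k3.nc m3, k4.nc m4, k5.nc m5, k6.nc m6]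
  have h := le_vol tau0 tau0_sub hNC (fun i j hij => by
    show AEDisjoint volume (convexHull ℝ (tau0 i : Set ℂ)) (convexHull ℝ (tau0 j : Set ℂ))
    rw [coe_tau0, coe_tau0]; exact s0Disjoint hij)
  have hS : SZ Z0 = S0 := rfl
  rw [hS] at h
  refine le_trans ?_ h
  have n := fun i => volT_nonneg (hNC i)
  rw [← ENNReal.ofReal_sum_of_nonneg (fun i _ => n i)]
  refine ENNReal.ofReal_le_ofReal (le_of_eq ?_)
  rw [Fin.sum_univ_seven, k0.volT_eq m0, k1.volT_eq m1, k2.volT_eq m2, k3.volT_eq m3,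
    k4.volT_eq m4, k5.volT_eq m5, k6.volT_eq m6, ← Vstar_eq phiFacts]
  ring

end Pool.Agent.Lib.MP_b9d07b_gt
end
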