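import Mathlib

set_option autoImplicit false

/-!
# The Lobachevsky function
-/

open MeasureTheory Set Filter Topology Real

namespace Pool.Agent.Lib.MP_b9d07b_gt

/-- `log (2 sin t)`. -/
noncomputable def lg (t : ℝ) : ℝ := Real.log (2 * Real.sin t)

/-- The Lobachevsky function `Λ(θ) = - ∫₀^θ log |2 sin t| dt`. -/
noncomputable def Lob (θ : ℝ) : ℝ := - ∫ t in (0 : ℝ)..θ, Real.log (2 * Real.sin t)

theorem lg_int (a b : ℝ) : IntervalIntegrable lg volume a b := by
  have h : MeromorphicOn (fun t : ℝ => 2 * Real.sin t) (uIcc a b) :=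
    (analyticOnNhd_const.mul analyticOnNhd_sin).meromorphicOn.mono_set (subset_univ _)
  exact h.intervalIntegrable_log

theorem Lob_eq (θ : ℝ) : Lob θ = - ∫ t in (0 : ℝ)..θ, lg t := rfl

theorem Lob_zero : Lob 0 = 0 := by simp [Lob]

theorem int_lg (a b : ℝ) : ∫ t in a..b, lg t = Lob a - Lob b := by
  rw [Lob_eq, Lob_eq, ← intervalIntegral.integral_interval_sub_left (lg_int 0 b) (lg_int 0 a)]
  ring

theorem continuous_Lob : Continuous Lob := by
  have : Continuous fun θ => ∫ t in (0 : ℝ)..θ, lg t :=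
    intervalIntegral.continuous_primitive (fun a b => lg_int a b) 0
  exact this.neg

theorem hasDerivAt_Lob {θ : ℝ} (h0 : 0 < θ) (h1 : θ < π) : HasDerivAt Lob (-lg θ) θ := by
  have hs : 0 < Real.sin θ := Real.sin_pos_of_pos_of_lt_pi h0 h1
  have hc : ContinuousAt lg θ := by
    apply ContinuousAt.log
    · exact (continuous_const.mul Real.continuous_sin).continuousAt
    · positivity
  have hm : StronglyMeasurableAtFilter lg (𝓝 θ) volume := by
    have : Measurable lg := by unfold lg; fun_prop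
    exact this.stronglyMeasurable.stronglyMeasurableAtFilter
  exact (intervalIntegral.integral_hasDerivAt_right (lg_int 0 θ) hm hc).neg

theorem hasDerivAt_lg {θ : ℝ} (h0 : 0 < θ) (h1 : θ < π) :
    HasDerivAt lg (Real.cos θ / Real.sin θ) θ := by
  have hs : 0 < Real.sin θ := Real.sin_pos_of_pos_of_lt_pi h0 h1
  have := ((Real.hasDerivAt_sin θ).const_mul 2).log (by positivity)
  convert! this using 1
  field_simp

theorem Lob_pi : Lob π = 0 := by
  rw [Lob_eq]
  have : ∫ t in (0 : ℝ)..π, lg t = ∫ t in (0 : ℝ)..π, (Real.log 2 + Real.log (Real.sin t)) := by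
    apply intervalIntegral.integral_congr_ae
    have : ∀ᵐ t : ℝ, t ≠ π := by
      simp [ae_iff, measure_singleton]
    filter_upwards [this] with t ht htI
    rw [uIoc_of_le Real.pi_pos.le] at htI
    have hs : 0 < Real.sin t := Real.sin_pos_of_pos_of_lt_pi htI.1 (lt_of_le_of_ne htI.2 ht)
    unfold lg
    rw [Real.log_mul (by norm_num) hs.ne']
  have h2 : ∫ t in (0 : ℝ)..π, (Real.log 2 + Real.log (Real.sin t)) =
      (∫ t in (0 : ℝ)..π, Real.log 2) + ∫ t in (0 : ℝ)..π, Real.log (Real.sin t) :=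
    intervalIntegral.integral_add (by simp) intervalIntegrable_log_sin
  rw [this, h2, integral_log_sin_zero_pi]
  simp
  ring

theorem Lob_pi_sub (θ : ℝ) : Lob (π - θ) = - Lob θ := by
  have h1 : ∫ t in θ..π, lg t = ∫ t in (0 : ℝ)..(π - θ), lg t := by
    have := intervalIntegral.integral_comp_sub_left (a := 0) (b := π - θ) lg π
    rw [sub_zero, sub_sub_cancel] at this
    rw [← this]
    apply intervalIntegral.integral_congr
    intro t _
    simp [lg, Real.sin_pi_sub]
  have h2 := int_lg θ π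
  rw [Lob_pi, sub_zero, h1] at h2
  rw [Lob_eq, h2]

theorem Lob_pi_div_two : Lob (π / 2) = 0 := by
  have h := Lob_pi_sub (π / 2)
  have : π - π / 2 = π / 2 := by ring
  rw [this] at h
  linarith

theorem Lob_two_mul {θ : ℝ} (h0 : 0 ≤ θ) (h1 : θ ≤ π / 2) :
    Lob (2 * θ) = 2 * Lob θ - 2 * Lob (π / 2 - θ) := by
  have e1 : ∫ t in (0 : ℝ)..θ, lg (2 * t) = 2⁻¹ * ∫ t in (0 : ℝ)..(2 * θ), lg t := by
    have := intervalIntegral.integral_comp_mul_left (a := 0) (b := θ) lg (two_ne_zero' ℝ)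
    rw [this, mul_zero, smul_eq_mul]
  have e2 : ∫ t in (0 : ℝ)..θ, lg (2 * t) = ∫ t in (0 : ℝ)..θ, (lg t + lg (π / 2 - t)) := by
    apply intervalIntegral.integral_congr_ae
    have : ∀ᵐ t : ℝ, t ≠ π / 2 := by
      simp [ae_iff, measure_singleton]
    filter_upwards [this] with t ht htI
    rw [uIoc_of_le h0] at htI
    have hlt : t < π / 2 := lt_of_le_of_ne (htI.2.trans h1) ht
    have hs : 0 < Real.sin t := Real.sin_pos_of_pos_of_lt_pi htI.1 (by linarith)
    have hc : 0 < Real.cos t := Real.cos_pos_of_mem_Ioo ⟨by linarith [htI.1], hlt⟩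
    unfold lg
    rw [Real.sin_pi_div_two_sub, Real.sin_two_mul, ← Real.log_mul (by positivity) (by positivity)]
    congr 1
    ring
  have e3 : ∫ t in (0 : ℝ)..θ, lg (π / 2 - t) = ∫ t in (π / 2 - θ)..(π / 2), lg t := by
    have := intervalIntegral.integral_comp_sub_left (a := 0) (b := θ) lg (π / 2)
    rw [this, sub_zero]
  have hint : IntervalIntegrable (fun t => lg (π / 2 - t)) volume 0 θ := by
    have := (lg_int (π / 2) (π / 2 - θ)).comp_sub_left (π / 2)
    simpa using this
  rw [e1, intervalIntegral.integral_add (lg_int 0 θ) hint, e3, int_lg, int_lg, int_lg,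
    Lob_zero, Lob_pi_div_two] at e2
  linarith

/-- The quadratic form of the second derivative is nonnegative. -/
theorem cot_form {A B C d1 d2 d3 : ℝ} (hA : 0 < A) (hB : 0 < B) (hC : 0 < C)
    (hs : A + B + C = π) (hd : d1 + d2 + d3 = 0) :
    0 ≤ d1 ^ 2 * (cos A / sin A) + d2 ^ 2 * (cos B / sin B) + d3 ^ 2 * (cos C / sin C) := by
  have sA : 0 < sin A := Real.sin_pos_of_pos_of_lt_pi hA (by linarith)
  have sB : 0 < sin B := Real.sin_pos_of_pos_of_lt_pi hB (by linarith)
  have sC : 0 < sin C := Real.sin_pos_of_pos_of_lt_pi hC (by linarith)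
  have hC' : C = π - (A + B) := by linarith
  have e1 : sin C = sin A * cos B + cos A * sin B := by
    rw [hC', Real.sin_pi_sub, Real.sin_add]
  have e2 : cos C = sin A * sin B - cos A * cos B := by
    rw [hC', Real.cos_pi_sub, Real.cos_add]; ring
  have e3 : d3 = -(d1 + d2) := by linarith
  have key : d1 ^ 2 * (cos A / sin A) + d2 ^ 2 * (cos B / sin B) + d3 ^ 2 * (cos C / sin C) =
      ((d1 * cos A * sin B - d2 * cos B * sin A) ^ 2 + (d1 + d2) ^ 2 * sin A ^ 2 * sin B ^ 2) /
        (sin A * sin B * sin C) := by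
    have : d1 ^ 2 * (cos A / sin A) + d2 ^ 2 * (cos B / sin B) + d3 ^ 2 * (cos C / sin C) =
      (d1 ^ 2 * cos A * sin B * sin C + d2 ^ 2 * cos B * sin A * sin C +
        d3 ^ 2 * cos C * sin A * sin B) / (sin A * sin B * sin C) := by
      field_simp
    rw [this, e3, e2]
    congr 1
    rw [e1]
    ring
  rw [key]
  positivity

theorem comp_lin {f : ℝ → ℝ} {f' X0 X t : ℝ} (h : HasDerivAt f f' (X0 + t * (X - X0))) :
    HasDerivAt (fun t => f (X0 + t * (X - X0))) (f' * (X - X0)) t := by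
  have h2 : HasDerivAt (fun t => X0 + t * (X - X0)) (X - X0) t := by
    simpa using ((hasDerivAt_id t).mul_const (X - X0)).const_add X0
  exact HasDerivAt.comp t h h2

/-- The tangent plane inequality (concavity of the volume of ideal tetrahedra). -/
theorem tangent {A B C A0 B0 C0 : ℝ} (hA : 0 < A) (hB : 0 < B) (hC : 0 < C) (hs : A + B + C = π)
    (hA0 : 0 < A0) (hB0 : 0 < B0) (hC0 : 0 < C0) (hs0 : A0 + B0 + C0 = π) :
    Lob A + Lob B + Lob C ≤ Lob A0 + Lob B0 + Lob C0 - lg A0 * (A - A0) - lg B0 * (B - B0) -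
      lg C0 * (C - C0) := by
  set g : ℝ → ℝ := fun t => Lob (A0 + t * (A - A0)) + Lob (B0 + t * (B - B0)) +
    Lob (C0 + t * (C - C0)) with hg
  set g' : ℝ → ℝ := fun t => -lg (A0 + t * (A - A0)) * (A - A0) + -lg (B0 + t * (B - B0)) * (B - B0) +
    -lg (C0 + t * (C - C0)) * (C - C0) with hg'
  have mem : ∀ {X0 X Y0 Y Z0 Z : ℝ}, 0 < X0 → 0 < X → 0 < Y0 → 0 < Y → 0 < Z0 → 0 < Z →
      X0 + Y0 + Z0 = π → X + Y + Z = π → ∀ t ∈ Icc (0 : ℝ) 1,
      0 < X0 + t * (X - X0) ∧ X0 + t * (X - X0) < π := by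
    intro X0 X Y0 Y Z0 Z hX0 hX hY0 hY hZ0 hZ h1 h2 t ht
    obtain ⟨ht0, ht1⟩ := ht
    constructor
    · nlinarith [mul_nonneg ht0 hX.le, mul_nonneg (sub_nonneg.2 ht1) hX0.le]
    · have hX1 : X < π := by linarith
      have hX01 : X0 < π := by linarith
      nlinarith [mul_nonneg ht0 (sub_nonneg.2 hX1.le), mul_nonneg (sub_nonneg.2 ht1) (sub_nonneg.2 hX01.le)]
  have mA := mem hA0 hA hB0 hB hC0 hC hs0 hs
  have mB := mem hB0 hB hA0 hA hC0 hC (by linarith) (by linarith)
  have mC := mem hC0 hC hA0 hA hB0 hB (by linarith) (by linarith)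
  have dg : ∀ t ∈ Icc (0 : ℝ) 1, HasDerivAt g (g' t) t := by
    intro t ht
    have hA' : HasDerivAt (fun t => Lob (A0 + t * (A - A0))) (-lg (A0 + t * (A - A0)) * (A - A0)) t :=
      comp_lin (hasDerivAt_Lob (mA t ht).1 (mA t ht).2)
    have hB' : HasDerivAt (fun t => Lob (B0 + t * (B - B0))) (-lg (B0 + t * (B - B0)) * (B - B0)) t :=
      comp_lin (hasDerivAt_Lob (mB t ht).1 (mB t ht).2)
    have hC' : HasDerivAt (fun t => Lob (C0 + t * (C - C0))) (-lg (C0 + t * (C - C0)) * (C - C0)) t :=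
      comp_lin (hasDerivAt_Lob (mC t ht).1 (mC t ht).2)
    exact (hA'.add hB').add hC'
  have dlg : ∀ (X0 X t : ℝ), 0 < X0 + t * (X - X0) → X0 + t * (X - X0) < π →
      HasDerivAt (fun t => -lg (X0 + t * (X - X0)) * (X - X0))
        (-((X - X0) ^ 2 * (cos (X0 + t * (X - X0)) / sin (X0 + t * (X - X0))))) t := by
    intro X0 X t h1 h2
    have h3 : HasDerivAt (fun t => lg (X0 + t * (X - X0)))
        (cos (X0 + t * (X - X0)) / sin (X0 + t * (X - X0)) * (X - X0)) t :=
      comp_lin (hasDerivAt_lg h1 h2)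
    convert! (h3.neg.mul_const (X - X0)) using 1
    ring
  have dg' : ∀ t ∈ Icc (0 : ℝ) 1, HasDerivAt g'
      (-((A - A0) ^ 2 * (cos (A0 + t * (A - A0)) / sin (A0 + t * (A - A0)))) +
      -((B - B0) ^ 2 * (cos (B0 + t * (B - B0)) / sin (B0 + t * (B - B0)))) +
      -((C - C0) ^ 2 * (cos (C0 + t * (C - C0)) / sin (C0 + t * (C - C0))))) t := by
    intro t ht
    exact ((dlg A0 A t (mA t ht).1 (mA t ht).2).add (dlg B0 B t (mB t ht).1 (mB t ht).2)).add
      (dlg C0 C t (mC t ht).1 (mC t ht).2)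
  have anti : AntitoneOn g' (Icc 0 1) := by
    apply antitoneOn_of_deriv_nonpos (convex_Icc 0 1)
    · exact fun t ht => (dg' t ht).continuousAt.continuousWithinAt
    · intro t ht
      rw [interior_Icc] at ht
      exact (dg' t (Ioo_subset_Icc_self ht)).differentiableAt.differentiableWithinAt
    · intro t ht
      rw [interior_Icc] at ht
      have ht' := Ioo_subset_Icc_self ht
      rw [(dg' t ht').deriv]
      have := cot_form (mA t ht').1 (mB t ht').1 (mC t ht').1
        (by linear_combination (1 - t) * hs0 + t * hs)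
        (show (A - A0) + (B - B0) + (C - C0) = 0 by linarith)
      linarith
  have main : g 1 - g 0 ≤ g' 0 * (1 - 0) := by
    apply (convex_Icc (0 : ℝ) 1).image_sub_le_mul_sub_of_deriv_le
    · exact fun t ht => (dg t ht).continuousAt.continuousWithinAt
    · intro t ht
      rw [interior_Icc] at ht
      exact (dg t (Ioo_subset_Icc_self ht)).differentiableAt.differentiableWithinAt
    · intro t ht
      rw [interior_Icc] at ht
      have ht' := Ioo_subset_Icc_self ht
      rw [(dg t ht').deriv]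
      exact anti ⟨le_rfl, zero_le_one⟩ ht' ht'.1
    · exact ⟨le_rfl, zero_le_one⟩
    · exact ⟨zero_le_one, le_rfl⟩
    · exact zero_le_one
  simp only [hg, hg', one_mul, zero_mul, add_zero] at main
  have eA : A0 + (A - A0) = A := by ring
  have eB : B0 + (B - B0) = B := by ring
  have eC : C0 + (C - C0) = C := by ring
  rw [eA, eB, eC] at main
  linarith

end Pool.Agent.Lib.MP_b9d07b_gt
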