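import Pool.Agent.Lib.MP_b9d07b_gt.Lob
import Mathlib
import Pool.Agent.Lib.MP_b9d07b_gt.Defs

section
set_option autoImplicit false

/-!
# Integration over sectors and triangles in polar coordinates
-/

open MeasureTheory Set Filter Topology Real
open scoped ENNReal

namespace Pool.Agent.Lib.MP_b9d07b_gt

/-- The point with polar coordinates `(ρ, θ)`. -/
noncomputable def pol (ρ θ : ℝ) : ℂ := ⟨ρ * cos θ, ρ * sin θ⟩

theorem pol_eq (p : ℝ × ℝ) : Complex.polarCoord.symm p = pol p.1 p.2 := by
  rw [Complex.polarCoord_symm_apply]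
  apply Complex.ext <;> simp [pol, Complex.cos_ofReal_re, Complex.sin_ofReal_re]

theorem polar_lintegral {E : Set ℂ} (hE : MeasurableSet E) {F : ℂ → ℝ≥0∞} (hF : Measurable F)
    {A : ℝ} (hA : 0 < A) (hAπ : A < π) {R : ℝ → ℝ}
    (h : ∀ ρ θ : ℝ, 0 < ρ → -π < θ → θ < π → (pol ρ θ ∈ E ↔ (0 ≤ θ ∧ θ ≤ A) ∧ ρ ≤ R θ)) :
    ∫⁻ x in E, F x = ∫⁻ θ in Ioo 0 A, ∫⁻ ρ in Ioc 0 (R θ), ENNReal.ofReal ρ * F (pol ρ θ) := by
  have hpol : Continuous fun p : ℝ × ℝ => pol p.1 p.2 := by
    have : (fun p : ℝ × ℝ => pol p.1 p.2) =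
        fun p => ((p.1 * cos p.2 : ℝ) : ℂ) + ((p.1 * sin p.2 : ℝ) : ℂ) * Complex.I := by
      funext p
      apply Complex.ext <;> simp [pol, -Complex.ofReal_mul]
    rw [this]
    fun_prop
  rw [← lintegral_indicator hE, ← Complex.lintegral_comp_polarCoord_symm]
  have h1 : ∀ p : ℝ × ℝ, ENNReal.ofReal p.1 • E.indicator F (Complex.polarCoord.symm p) =
      ENNReal.ofReal p.1 * E.indicator F (pol p.1 p.2) := by
    intro p
    rw [pol_eq, smul_eq_mul]
  simp_rw [h1]
  have htar : polarCoord.target = Ioi (0 : ℝ) ×ˢ Ioo (-π) π := rfl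
  rw [htar, Measure.volume_eq_prod, ← Measure.prod_restrict,
    lintegral_prod_symm]
  · have h2 : ∀ θ ∈ Ioo (-π) π, (∫⁻ ρ in Ioi (0 : ℝ), ENNReal.ofReal ρ * E.indicator F (pol ρ θ)) =
        (Icc 0 A).indicator (fun θ => ∫⁻ ρ in Ioc 0 (R θ), ENNReal.ofReal ρ * F (pol ρ θ)) θ := by
      intro θ hθ
      by_cases hθA : θ ∈ Icc 0 A
      · rw [indicator_of_mem hθA]
        have : ∀ ρ ∈ Ioi (0 : ℝ), ENNReal.ofReal ρ * E.indicator F (pol ρ θ) =
            (Ioc 0 (R θ)).indicator (fun ρ => ENNReal.ofReal ρ * F (pol ρ θ)) ρ := by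
          intro ρ hρ
          have hρ : 0 < ρ := hρ
          by_cases hρR : ρ ≤ R θ
          · rw [indicator_of_mem ((h ρ θ hρ hθ.1 hθ.2).2 ⟨hθA, hρR⟩),
              indicator_of_mem (show ρ ∈ Ioc 0 (R θ) from ⟨hρ, hρR⟩)]
          · rw [indicator_of_notMem (fun hh => hρR ((h ρ θ hρ hθ.1 hθ.2).1 hh).2),
              indicator_of_notMem (fun hh => hρR hh.2), mul_zero]
        rw [setLIntegral_congr_fun measurableSet_Ioi this, setLIntegral_indicator measurableSet_Ioc]
        congr 2
        ext ρ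
        simp only [mem_inter_iff, mem_Ioc, mem_Ioi]
        tauto
      · rw [indicator_of_notMem hθA]
        rw [setLIntegral_congr_fun (g := fun _ => 0) measurableSet_Ioi, lintegral_zero]
        intro ρ hρ
        have hρ : 0 < ρ := hρ
        show ENNReal.ofReal ρ * E.indicator F (pol ρ θ) = 0
        rw [indicator_of_notMem (fun hh => hθA ((h ρ θ hρ hθ.1 hθ.2).1 hh).1), mul_zero]
    rw [setLIntegral_congr_fun measurableSet_Ioo h2, setLIntegral_indicator measurableSet_Icc]
    have h3 : Icc 0 A ∩ Ioo (-π) π = Icc 0 A := by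
      apply inter_eq_left.2
      intro x hx
      exact ⟨by linarith [hx.1, Real.pi_pos], by linarith [hx.2]⟩
    rw [h3, restrict_Ioo_eq_restrict_Icc]
  · apply Measurable.aemeasurable
    apply Measurable.mul
    · fun_prop
    · exact (hF.indicator hE).comp hpol.measurable

end Pool.Agent.Lib.MP_b9d07b_gt
end

section
set_option autoImplicit false

/-!
# The volume of an ideal tetrahedron, in terms of its angles
-/

open MeasureTheory Set Filter Topology Real
open scoped ENNReal

namespace Pool.Agent.Lib.MP_b9d07b_gt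

theorem mem_tri {E : Type*} [AddCommGroup E] [Module ℝ E] (p q r x : E) :
    x ∈ convexHull ℝ {p, q, r} ↔
      ∃ a b c : ℝ, 0 ≤ a ∧ 0 ≤ b ∧ 0 ≤ c ∧ a + b + c = 1 ∧ a • p + b • q + c • r = x := by
  constructor
  · intro hx
    have hsub : convexHull ℝ {p, q, r} ⊆ {x : E | ∃ a b c : ℝ, 0 ≤ a ∧ 0 ≤ b ∧ 0 ≤ c ∧
        a + b + c = 1 ∧ a • p + b • q + c • r = x} := by
      apply convexHull_min
      · intro y hy
        rcases hy with rfl | rfl | rfl
        · exact ⟨1, 0, 0, by norm_num, le_rfl, le_rfl, by norm_num, by simp⟩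
        · exact ⟨0, 1, 0, le_rfl, by norm_num, le_rfl, by norm_num, by simp⟩
        · exact ⟨0, 0, 1, le_rfl, le_rfl, by norm_num, by norm_num, by simp⟩
      · rintro y ⟨a, b, c, ha, hb, hc, hs, rfl⟩ y' ⟨a', b', c', ha', hb', hc', hs', rfl⟩ t t' ht ht' htt
        refine ⟨t * a + t' * a', t * b + t' * b', t * c + t' * c', by positivity, by positivity,
          by positivity, by linear_combination t * hs + t' * hs' + htt, ?_⟩
        simp only [smul_add, smul_smul, add_smul]
        abel
    exact hsub hx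
  · rintro ⟨a, b, c, ha, hb, hc, hs, rfl⟩
    have hconv := convex_convexHull ℝ ({p, q, r} : Set E)
    have hp : p ∈ convexHull ℝ ({p, q, r} : Set E) := subset_convexHull ℝ _ (by simp)
    have hq : q ∈ convexHull ℝ ({p, q, r} : Set E) := subset_convexHull ℝ _ (by simp)
    have hr : r ∈ convexHull ℝ ({p, q, r} : Set E) := subset_convexHull ℝ _ (by simp)
    have := hconv.sum_mem (t := Finset.univ) (w := ![a, b, c]) (z := ![p, q, r])
      (by intro i _; fin_cases i <;> simpa) (by simp [Fin.sum_univ_three, hs])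
      (by intro i _; fin_cases i <;> simpa)
    simpa [Fin.sum_univ_three] using this

/-- The triangle with angles `A, B, C` and diameter of the circumscribed circle `1`. -/
noncomputable def triSet (A B C : ℝ) : Set ℂ :=
  convexHull ℝ {0, (⟨sin C, 0⟩ : ℂ), pol (sin B) A}

/-- The power function of its circumscribed circle. -/
noncomputable def Q0 (C : ℝ) (x : ℂ) : ℝ := sin C * x.re + cos C * x.im - Complex.normSq x

section

variable {A B C : ℝ} (hA : 0 < A) (hB : 0 < B) (hC : 0 < C) (hs : A + B + C = π)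
include hA hB hC hs

omit hA hB hC in
theorem sinC_eq : sin C = sin A * cos B + cos A * sin B := by
  have hC' : C = π - (A + B) := by linarith
  rw [hC', Real.sin_pi_sub, Real.sin_add]

omit hA hB hC in
theorem cosC_eq : cos C = sin A * sin B - cos A * cos B := by
  have hC' : C = π - (A + B) := by linarith
  rw [hC', Real.cos_pi_sub, Real.cos_add]; ring

omit hA hB hC in
theorem id1 (θ : ℝ) : sin B * sin (A - θ) + sin C * sin θ = sin A * sin (B + θ) := by
  rw [sinC_eq hs, Real.sin_sub, Real.sin_add]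
  ring

omit hA hB hC in
theorem id2 (θ : ℝ) : sin (C + θ) * sin (B + θ) - sin B * sin C = sin θ * sin (A - θ) := by
  rw [Real.sin_sub, Real.sin_add C θ, Real.sin_add B θ, sinC_eq hs, cosC_eq hs]
  have h1 := Real.sin_sq_add_cos_sq B
  have h2 := Real.sin_sq_add_cos_sq θ
  have h1' : cos B ^ 2 = 1 - sin B ^ 2 := by linarith
  have h2' : cos θ ^ 2 = 1 - sin θ ^ 2 := by linarith
  ring_nf
  rw [h1', h2']
  ring_nf

theorem mem_triSet {ρ θ : ℝ} (hρ : 0 < ρ) (hθ : -π < θ) (hθ' : θ < π) :
    pol ρ θ ∈ triSet A B C ↔ (0 ≤ θ ∧ θ ≤ A) ∧ ρ ≤ sin B * sin C / sin (B + θ) := by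
  have sA : 0 < sin A := Real.sin_pos_of_pos_of_lt_pi hA (by linarith)
  have sB : 0 < sin B := Real.sin_pos_of_pos_of_lt_pi hB (by linarith)
  have sC : 0 < sin C := Real.sin_pos_of_pos_of_lt_pi hC (by linarith)
  unfold triSet
  rw [mem_tri]
  constructor
  · rintro ⟨a, s, t, ha, hs', ht, hsum, he⟩
    have hre := congrArg Complex.re he
    have him := congrArg Complex.im he
    simp only [pol, smul_zero, zero_add, Complex.add_re, Complex.smul_re, Complex.add_im,
      Complex.smul_im, smul_eq_mul, mul_zero] at hre him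
    have h1 : ρ * sin (A - θ) = sin A * (s * sin C) := by
      rw [Real.sin_sub]
      linear_combination (- sin A) * hre + cos A * him
    have h0θ : 0 ≤ θ := by
      by_contra hneg
      push Not at hneg
      have := Real.sin_neg_of_neg_of_neg_pi_lt hneg hθ
      nlinarith [mul_nonneg ht (mul_pos sB sA).le, mul_pos hρ (neg_pos.2 this)]
    have hθA : θ ≤ A := by
      by_contra hlt
      push Not at hlt
      have := Real.sin_neg_of_neg_of_neg_pi_lt (x := A - θ) (by linarith) (by linarith)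
      nlinarith [mul_nonneg (mul_nonneg hs' sC.le) sA.le, mul_pos hρ (neg_pos.2 this)]
    refine ⟨⟨h0θ, hθA⟩, ?_⟩
    have hpos : 0 < sin (B + θ) := Real.sin_pos_of_pos_of_lt_pi (by linarith) (by linarith)
    rw [le_div_iff₀ hpos]
    have h2 := id1 hs θ
    have h3 : sin A * (ρ * sin (B + θ)) = sin A * (sin B * sin C) * (s + t) := by
      calc sin A * (ρ * sin (B + θ)) = sin B * (ρ * sin (A - θ)) + sin C * (ρ * sin θ) := by
            linear_combination (-ρ) * h2
        _ = _ := by
            rw [h1]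
            linear_combination (- sin C) * him
    have h4 : sin A * (ρ * sin (B + θ)) ≤ sin A * (sin B * sin C) := by
      rw [h3]
      have : s + t ≤ 1 := by linarith
      nlinarith [mul_pos sA (mul_pos sB sC)]
    exact le_of_mul_le_mul_left h4 sA
  · rintro ⟨⟨h0, h1⟩, h2⟩
    have hpos : 0 < sin (B + θ) := Real.sin_pos_of_pos_of_lt_pi (by linarith) (by linarith)
    rw [le_div_iff₀ hpos] at h2
    have h3 : 0 ≤ sin θ := Real.sin_nonneg_of_nonneg_of_le_pi h0 (by linarith)
    have h4 : 0 ≤ sin (A - θ) := Real.sin_nonneg_of_nonneg_of_le_pi (by linarith) (by linarith)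
    have h5 := id1 hs θ
    refine ⟨1 - ρ * sin (A - θ) / (sin A * sin C) - ρ * sin θ / (sin A * sin B),
      ρ * sin (A - θ) / (sin A * sin C), ρ * sin θ / (sin A * sin B), ?_, by positivity,
      by positivity, by ring, ?_⟩
    · have : ρ * sin (A - θ) / (sin A * sin C) + ρ * sin θ / (sin A * sin B) =
          (ρ * sin (B + θ)) / (sin B * sin C) := by
        field_simp
        linear_combination h5
      have h6 : (ρ * sin (B + θ)) / (sin B * sin C) ≤ 1 := by
        rw [div_le_one (by positivity)]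
        exact h2
      linarith
    · apply Complex.ext
      · simp only [pol, smul_zero, zero_add, Complex.add_re, Complex.smul_re, smul_eq_mul]
        rw [Real.sin_sub]
        field_simp
        ring
      · simp only [pol, smul_zero, zero_add, Complex.add_im, Complex.smul_im, smul_eq_mul, mul_zero]
        field_simp

theorem inner_integral {θ : ℝ} (h0 : 0 < θ) (h1 : θ < A) :
    ∫⁻ ρ in Ioc 0 (sin B * sin C / sin (B + θ)), ENNReal.ofReal ρ *
      ENNReal.ofReal (1 / (2 * Q0 C (pol ρ θ))) =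
    ENNReal.ofReal ((lg (C + θ) + lg (B + θ) - lg θ - lg (A - θ)) / 2) := by
  have sA : 0 < sin A := Real.sin_pos_of_pos_of_lt_pi hA (by linarith)
  have sB : 0 < sin B := Real.sin_pos_of_pos_of_lt_pi hB (by linarith)
  have sC : 0 < sin C := Real.sin_pos_of_pos_of_lt_pi hC (by linarith)
  have sBθ : 0 < sin (B + θ) := Real.sin_pos_of_pos_of_lt_pi (by linarith) (by linarith)
  have sCθ : 0 < sin (C + θ) := Real.sin_pos_of_pos_of_lt_pi (by linarith) (by linarith)
  have sθ : 0 < sin θ := Real.sin_pos_of_pos_of_lt_pi h0 (by linarith)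
  have sAθ : 0 < sin (A - θ) := Real.sin_pos_of_pos_of_lt_pi (by linarith) (by linarith)
  set R := sin B * sin C / sin (B + θ) with hR
  set d := sin (C + θ) with hd
  have hR0 : 0 < R := by positivity
  have hdR : d - R = sin θ * sin (A - θ) / sin (B + θ) := by
    rw [hR, hd]
    field_simp
    linarith [id2 hs θ]
  have hdR0 : 0 < d - R := by rw [hdR]; positivity
  have hQ : ∀ ρ, Q0 C (pol ρ θ) = ρ * (d - ρ) := by
    intro ρ
    simp only [Q0, pol, Complex.normSq_mk, hd]
    rw [Real.sin_add]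
    have h1 := Real.sin_sq_add_cos_sq θ
    have h1' : cos θ ^ 2 = 1 - sin θ ^ 2 := by linarith
    ring_nf
    rw [h1']
    ring
  have e1 : ∫⁻ ρ in Ioc 0 R, ENNReal.ofReal ρ * ENNReal.ofReal (1 / (2 * Q0 C (pol ρ θ))) =
      ∫⁻ ρ in Ioc 0 R, ENNReal.ofReal (1 / (2 * (d - ρ))) := by
    apply setLIntegral_congr_fun measurableSet_Ioc
    intro ρ hρ
    have hρ0 : 0 < ρ := hρ.1
    have hρd : 0 < d - ρ := by linarith [hρ.2]
    show ENNReal.ofReal ρ * ENNReal.ofReal (1 / (2 * Q0 C (pol ρ θ))) =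
      ENNReal.ofReal (1 / (2 * (d - ρ)))
    rw [← ENNReal.ofReal_mul hρ0.le, hQ]
    congr 1
    field_simp
  have hder : ∀ ρ ∈ uIcc 0 R, HasDerivAt (fun ρ => -(1 / 2) * Real.log (d - ρ)) (1 / (2 * (d - ρ))) ρ := by
    intro ρ hρ
    rw [uIcc_of_le hR0.le] at hρ
    have hρd : 0 < d - ρ := by linarith [hρ.2]
    have := (((hasDerivAt_id ρ).const_sub d).log hρd.ne').const_mul (-(1 / 2) : ℝ)
    convert! this using 1
    simp
    field_simp
  have hcont : ContinuousOn (fun ρ => 1 / (2 * (d - ρ))) (uIcc 0 R) := by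
    intro ρ hρ
    rw [uIcc_of_le hR0.le] at hρ
    have hρd : 0 < d - ρ := by linarith [hρ.2]
    apply ContinuousAt.continuousWithinAt
    apply ContinuousAt.div continuousAt_const (by fun_prop) (by positivity)
  have hint := intervalIntegral.integral_eq_sub_of_hasDerivAt hder hcont.intervalIntegrable
  have hii : IntegrableOn (fun ρ => 1 / (2 * (d - ρ))) (Ioc 0 R) := by
    have := hcont.intervalIntegrable (μ := volume)
    rwa [intervalIntegrable_iff_integrableOn_Ioc_of_le hR0.le] at this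
  rw [e1, ← ofReal_integral_eq_lintegral_ofReal hii]
  · rw [← intervalIntegral.integral_of_le hR0.le, hint]
    congr 1
    rw [sub_zero]
    unfold lg
    rw [hdR, Real.log_div (by positivity) (by positivity), Real.log_mul sθ.ne' sAθ.ne',
      Real.log_mul two_ne_zero sCθ.ne', Real.log_mul two_ne_zero sBθ.ne',
      Real.log_mul two_ne_zero sθ.ne', Real.log_mul two_ne_zero sAθ.ne']
    ring
  · rw [Filter.EventuallyLE, ae_restrict_iff' measurableSet_Ioc]
    filter_upwards with ρ hρ
    have hρd : 0 < d - ρ := by linarith [hρ.2]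
    simp only [Pi.zero_apply]
    positivity

theorem tri_integral :
    ∫⁻ x in triSet A B C, ENNReal.ofReal (1 / (2 * Q0 C x)) =
      ENNReal.ofReal (Lob A + Lob B + Lob C) := by
  have hAπ : A < π := by linarith
  have hclosed : IsClosed (triSet A B C) := by
    have : (({0, (⟨sin C, 0⟩ : ℂ), pol (sin B) A} : Set ℂ)).Finite := by simp
    exact this.isClosed_convexHull ℝ
  rw [polar_lintegral (R := fun θ => sin B * sin C / sin (B + θ)) hclosed.measurableSet _ hA hAπ
    (fun ρ θ h1 h2 h3 => mem_triSet hA hB hC hs h1 h2 h3)]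
  · have e1 : ∀ θ ∈ Ioo 0 A, ∫⁻ ρ in Ioc 0 (sin B * sin C / sin (B + θ)), ENNReal.ofReal ρ *
        ENNReal.ofReal (1 / (2 * Q0 C (pol ρ θ))) =
        ENNReal.ofReal ((lg (C + θ) + lg (B + θ) - lg θ - lg (A - θ)) / 2) := fun θ hθ =>
      inner_integral hA hB hC hs hθ.1 hθ.2
    rw [setLIntegral_congr_fun measurableSet_Ioo e1]
    have i1 : IntervalIntegrable (fun θ => lg (C + θ)) volume 0 A := by
      have := (lg_int (C + 0) (C + A)).comp_add_left C
      simpa using this
    have i2 : IntervalIntegrable (fun θ => lg (B + θ)) volume 0 A := by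
      have := (lg_int (B + 0) (B + A)).comp_add_left B
      simpa using this
    have i4 : IntervalIntegrable (fun θ => lg (A - θ)) volume 0 A := by
      have := (lg_int (A - 0) (A - A)).comp_sub_left A
      simpa using this
    have i3 := lg_int 0 A
    have itot : IntervalIntegrable (fun θ => (lg (C + θ) + lg (B + θ) - lg θ - lg (A - θ)) / 2)
        volume 0 A := (((i1.add i2).sub i3).sub i4).div_const 2
    have itot' : IntegrableOn (fun θ => (lg (C + θ) + lg (B + θ) - lg θ - lg (A - θ)) / 2)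
        (Ioo 0 A) := by
      rw [intervalIntegrable_iff_integrableOn_Ioc_of_le hA.le] at itot
      exact itot.mono_set Ioo_subset_Ioc_self
    rw [← ofReal_integral_eq_lintegral_ofReal itot']
    · congr 1
      rw [← integral_Ioc_eq_integral_Ioo, ← intervalIntegral.integral_of_le hA.le,
        intervalIntegral.integral_div, intervalIntegral.integral_sub ((i1.add i2).sub i3) i4,
        intervalIntegral.integral_sub (i1.add i2) i3, intervalIntegral.integral_add i1 i2,
        intervalIntegral.integral_comp_add_left (fun t => lg t) C,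
        intervalIntegral.integral_comp_add_left (fun t => lg t) B,
        intervalIntegral.integral_comp_sub_left (fun t => lg t) A]
      rw [int_lg, int_lg, int_lg, int_lg, sub_self, sub_zero, Lob_zero, add_zero, add_zero]
      have e2 : C + A = π - B := by linarith
      have e3 : B + A = π - C := by linarith
      rw [e2, e3, Lob_pi_sub, Lob_pi_sub]
      ring
    · rw [Filter.EventuallyLE, ae_restrict_iff' measurableSet_Ioo]
      filter_upwards with θ hθ
      have sBθ : 0 < sin (B + θ) := Real.sin_pos_of_pos_of_lt_pi (by linarith [hθ.1]) (by linarith [hθ.2])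
      have sCθ : 0 < sin (C + θ) := Real.sin_pos_of_pos_of_lt_pi (by linarith [hθ.1]) (by linarith [hθ.2])
      have sθ : 0 < sin θ := Real.sin_pos_of_pos_of_lt_pi hθ.1 (by linarith [hθ.2])
      have sAθ : 0 < sin (A - θ) := Real.sin_pos_of_pos_of_lt_pi (by linarith [hθ.2]) (by linarith [hθ.1])
      have sB : 0 < sin B := Real.sin_pos_of_pos_of_lt_pi hB (by linarith)
      have sC : 0 < sin C := Real.sin_pos_of_pos_of_lt_pi hC (by linarith)
      have h2 := id2 hs θ
      have : lg θ + lg (A - θ) ≤ lg (C + θ) + lg (B + θ) := by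
        unfold lg
        rw [← Real.log_mul (by positivity) (by positivity), ← Real.log_mul (by positivity) (by positivity)]
        apply Real.log_le_log (by positivity)
        nlinarith [mul_pos sB sC]
      simp only [Pi.zero_apply]
      linarith
  · unfold Q0
    fun_prop

end

end Pool.Agent.Lib.MP_b9d07b_gt
end

section
set_option autoImplicit false

/-!
# Volumes of ideal tetrahedra over general triangles
-/

open MeasureTheory Set Filter Topology Real
open scoped ENNReal

namespace Pool.Agent.Lib.MP_b9d07b_gt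

/-- The power function `2 ⟨m, x⟩ + k - |x|²` of the circle `|x|² = 2 ⟨m, x⟩ + k`. -/
noncomputable def pw (m : ℂ) (k : ℝ) (x : ℂ) : ℝ :=
  2 * (m.re * x.re + m.im * x.im) + k - Complex.normSq x

/-- The area of the parallelogram spanned by `q - p` and `r - p`. -/
def orient (p q r : ℂ) : ℝ := (q.re - p.re) * (r.im - p.im) - (q.im - p.im) * (r.re - p.re)

theorem det_mul (κ : ℂ) :
    ((ContinuousLinearMap.mul ℝ ℂ) κ).det = Complex.normSq κ := by
  have : ((ContinuousLinearMap.mul ℝ ℂ) κ).det = LinearMap.det (Algebra.lmul ℝ ℂ κ) := rfl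
  rw [this, ← Algebra.norm_apply, Algebra.norm_complex_apply]

theorem lintegral_affine {κ : ℂ} (hκ : κ ≠ 0) (p : ℂ) {s : Set ℂ} (hs : MeasurableSet s)
    (g : ℂ → ℝ≥0∞) : ∫⁻ x in (fun y => p + κ * y) '' s, g x =
      ENNReal.ofReal (Complex.normSq κ) * ∫⁻ y in s, g (p + κ * y) := by
  have hd : ∀ x ∈ s, HasFDerivWithinAt (fun y => p + κ * y) ((ContinuousLinearMap.mul ℝ ℂ) κ) s x := by
    intro x _
    exact (((ContinuousLinearMap.mul ℝ ℂ) κ).hasFDerivAt.const_add p).hasFDerivWithinAt
  have hi : InjOn (fun y => p + κ * y) s := by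
    intro x _ y _ hxy
    have : p + κ * x = p + κ * y := hxy
    exact mul_left_cancel₀ hκ (add_left_cancel this)
  rw [lintegral_image_eq_lintegral_abs_det_fderiv_mul volume hs hd hi g, det_mul,
    abs_of_nonneg (Complex.normSq_nonneg κ)]
  rw [lintegral_const_mul' _ _ ENNReal.ofReal_ne_top]

/-- The model triangle, transported. -/
theorem tri_similar {A B C : ℝ} (hA : 0 < A) (hB : 0 < B) (hC : 0 < C) (hs : A + B + C = π)
    {κ p q r : ℂ} (hκ : κ ≠ 0) (hq : q = p + κ * (sin C : ℝ)) (hr : r = p + κ * pol (sin B) A)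
    {m : ℂ} {k : ℝ} (mp : pw m k p = 0) (mq : pw m k q = 0) (mr : pw m k r = 0) :
    ∫⁻ x in convexHull ℝ {p, q, r}, ENNReal.ofReal (1 / (2 * pw m k x)) =
      ENNReal.ofReal (Lob A + Lob B + Lob C) := by
  have sA : 0 < sin A := Real.sin_pos_of_pos_of_lt_pi hA (by linarith)
  have sB : 0 < sin B := Real.sin_pos_of_pos_of_lt_pi hB (by linarith)
  have sC : 0 < sin C := Real.sin_pos_of_pos_of_lt_pi hC (by linarith)
  have hN : 0 < Complex.normSq κ := Complex.normSq_pos.2 hκ
  have himg : convexHull ℝ {p, q, r} = (fun y => p + κ * y) '' triSet A B C := by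
    ext x
    unfold triSet
    rw [mem_tri]
    simp only [mem_image, mem_tri]
    constructor
    · rintro ⟨a, b, c, ha, hb, hc, hsum, rfl⟩
      refine ⟨_, ⟨a, b, c, ha, hb, hc, hsum, rfl⟩, ?_⟩
      have h1 : (a : ℂ) + b + c = 1 := by exact_mod_cast hsum
      have h2 : (⟨sin C, 0⟩ : ℂ) = (sin C : ℝ) := rfl
      simp only [Complex.real_smul, h2]
      rw [hq, hr]
      linear_combination (-p) * h1
    · rintro ⟨y, ⟨a, b, c, ha, hb, hc, hsum, rfl⟩, rfl⟩
      refine ⟨a, b, c, ha, hb, hc, hsum, ?_⟩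
      have h1 : (a : ℂ) + b + c = 1 := by exact_mod_cast hsum
      have h2 : (⟨sin C, 0⟩ : ℂ) = (sin C : ℝ) := rfl
      simp only [Complex.real_smul, h2]
      rw [hq, hr]
      linear_combination p * h1
  have hclosed : IsClosed (triSet A B C) := by
    have : (({0, (⟨sin C, 0⟩ : ℂ), pol (sin B) A} : Set ℂ)).Finite := by simp
    exact this.isClosed_convexHull ℝ
  have hpw : ∀ y : ℂ, pw m k (p + κ * y) = Complex.normSq κ * Q0 C y := by
    have hcC : cos C = sin A * sin B - cos A * cos B := cosC_eq hs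
    have hsC : sin C = sin A * cos B + cos A * sin B := sinC_eq hs
    -- the difference is linear and vanishes at the vertices
    have e1 : ∀ y : ℂ, pw m k (p + κ * y) = pw m k p +
        2 * ((m.re - p.re) * (κ.re * y.re - κ.im * y.im) + (m.im - p.im) * (κ.re * y.im + κ.im * y.re)) -
        Complex.normSq κ * Complex.normSq y := by
      intro y
      simp only [pw, Complex.normSq_apply, Complex.add_re, Complex.add_im, Complex.mul_re,
        Complex.mul_im]
      ring
    have eq1 : pw m k (p + κ * ((sin C : ℝ) : ℂ)) = 0 := by rw [← hq]; exact mq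
    have er1 : pw m k (p + κ * pol (sin B) A) = 0 := by rw [← hr]; exact mr
    rw [e1, mp] at eq1 er1
    simp only [Complex.ofReal_re, Complex.ofReal_im, Complex.normSq_ofReal, mul_zero, sub_zero,
      zero_add, pol, Complex.normSq_mk] at eq1 er1
    set X := (m.re - p.re) * κ.re + (m.im - p.im) * κ.im with hX
    set Y := (m.im - p.im) * κ.re - (m.re - p.re) * κ.im with hY
    have hX2 : 2 * X = Complex.normSq κ * sin C := by
      have : sin C * (2 * X) = sin C * (Complex.normSq κ * sin C) := by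
        rw [hX]; linear_combination eq1
      exact mul_left_cancel₀ sC.ne' this
    have hcs := Real.sin_sq_add_cos_sq A
    have hY2 : 2 * Y = Complex.normSq κ * cos C := by
      have e3 : 2 * (X * (sin B * cos A) + Y * (sin B * sin A)) =
          Complex.normSq κ * sin B ^ 2 := by
        rw [hX, hY]; linear_combination er1 + Complex.normSq κ * sin B ^ 2 * hcs
      have e4 : (sin B * sin A) * (2 * Y) = (sin B * sin A) * (Complex.normSq κ * cos C) := by
        have e5 : (sin B * sin A) * (2 * Y) = Complex.normSq κ * sin B ^ 2 -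
            (2 * X) * (sin B * cos A) := by linear_combination e3
        rw [e5, hX2, hcC, hsC]
        linear_combination (-(Complex.normSq κ * sin B ^ 2)) * hcs
      exact mul_left_cancel₀ (mul_pos sB sA).ne' e4
    intro y
    rw [e1, mp, Q0]
    have : 2 * ((m.re - p.re) * (κ.re * y.re - κ.im * y.im) +
        (m.im - p.im) * (κ.re * y.im + κ.im * y.re)) = (2 * X) * y.re + (2 * Y) * y.im := by
      rw [hX, hY]; ring
    rw [this, hX2, hY2]
    ring
  rw [himg, lintegral_affine hκ p hclosed.measurableSet]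
  rw [← tri_integral hA hB hC hs, ← lintegral_const_mul' _ _ ENNReal.ofReal_ne_top]
  apply lintegral_congr
  intro y
  rw [hpw, ← ENNReal.ofReal_mul hN.le]
  congr 1
  field_simp

/-- The volume of the ideal tetrahedron over the triangle `p q r`. -/
theorem tri_general {p q r : ℂ} (h : orient p q r ≠ 0) {m : ℂ} {k : ℝ} (mp : pw m k p = 0)
    (mq : pw m k q = 0) (mr : pw m k r = 0) :
    ∫⁻ x in convexHull ℝ {p, q, r}, ENNReal.ofReal (1 / (2 * pw m k x)) =
      ENNReal.ofReal (Lob (EuclideanGeometry.angle q p r) + Lob (EuclideanGeometry.angle p q r) +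
        Lob (EuclideanGeometry.angle p r q)) := by
  -- first the positively oriented case
  have key : ∀ {p q r : ℂ}, 0 < orient p q r → pw m k p = 0 → pw m k q = 0 → pw m k r = 0 →
      ∫⁻ x in convexHull ℝ {p, q, r}, ENNReal.ofReal (1 / (2 * pw m k x)) =
      ENNReal.ofReal (Lob (EuclideanGeometry.angle q p r) + Lob (EuclideanGeometry.angle p q r) +
        Lob (EuclideanGeometry.angle p r q)) := by
    intro p q r h mp mq mr
    have hqp : q - p ≠ 0 := by
      intro h0
      have : q = p := sub_eq_zero.1 h0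
      rw [this] at h
      simp [orient] at h
    have hrp : r - p ≠ 0 := by
      intro h0
      have : r = p := sub_eq_zero.1 h0
      rw [this] at h
      simp [orient] at h
    have hqr : q ≠ r := by
      rintro rfl
      unfold orient at h
      linarith
    set w := (r - p) / (q - p) with hw
    have hwim : 0 < w.im := by
      have : w.im = orient p q r / Complex.normSq (q - p) := by
        rw [hw, Complex.div_im]
        simp only [Complex.sub_re, Complex.sub_im, orient]
        ring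
      rw [this]
      exact div_pos h (Complex.normSq_pos.2 hqp)
    set A := EuclideanGeometry.angle q p r with hA
    set B := EuclideanGeometry.angle p q r with hB
    set C := EuclideanGeometry.angle p r q with hC
    have hAarg : A = w.arg := by
      have h1 : A = InnerProductGeometry.angle (r - p) (q - p) := by
        rw [hA, EuclideanGeometry.angle_comm]; rfl
      rw [h1, Complex.angle_eq_abs_arg hrp hqp, abs_of_nonneg]
      exact Complex.arg_nonneg_iff.2 hwim.le
    have hsum : A + B + C = π := by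
      have := EuclideanGeometry.angle_add_angle_add_angle_eq_pi (p₁ := q) (p₂ := p) r
        (fun h0 => hqp (by rw [h0, sub_self]))
      rw [hA, hB, hC, EuclideanGeometry.angle_comm p q r]
      linarith
    have hsA : 0 < sin A := by
      rw [hAarg, Complex.sin_arg]
      exact div_pos hwim (norm_pos_iff.2 (fun h0 => by rw [h0] at hwim; simp at hwim))
    have hA0 : 0 < A := by
      rcases (EuclideanGeometry.angle_nonneg q p r).lt_or_eq with h1 | h1
      · exact h1
      · rw [← hA] at h1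
        rw [← h1, Real.sin_zero] at hsA
        exact absurd hsA (lt_irrefl _)
    -- law of sines
    have l1 : sin A * dist p r = sin B * dist q r := by
      have := EuclideanGeometry.law_sin q p r
      rw [EuclideanGeometry.angle_comm r q p, dist_comm r q] at this
      exact this
    have l2 : sin B * dist q p = sin C * dist r p := by
      have := EuclideanGeometry.law_sin r q p
      rw [EuclideanGeometry.angle_comm r q p, dist_comm p r] at this
      exact this
    have hpr : 0 < dist p r := dist_pos.2 (fun h0 => hrp (by rw [h0, sub_self]))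
    have hqp' : 0 < dist q p := dist_pos.2 (fun h0 => hqp (by rw [h0, sub_self]))
    have hqr' : 0 < dist q r := dist_pos.2 hqr
    have hsB : 0 < sin B := by
      have : 0 < sin B * dist q r := by rw [← l1]; positivity
      exact pos_of_mul_pos_left this hqr'.le
    have hsC : 0 < sin C := by
      have : 0 < sin C * dist r p := by rw [← l2]; positivity
      exact pos_of_mul_pos_left this dist_nonneg
    have hB0 : 0 < B := by
      rcases (EuclideanGeometry.angle_nonneg p q r).lt_or_eq with h1 | h1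
      · exact h1
      · rw [← hB] at h1
        rw [← h1, Real.sin_zero] at hsB
        exact absurd hsB (lt_irrefl _)
    have hC0 : 0 < C := by
      rcases (EuclideanGeometry.angle_nonneg p r q).lt_or_eq with h1 | h1
      · exact h1
      · rw [← hC] at h1
        rw [← h1, Real.sin_zero] at hsC
        exact absurd hsC (lt_irrefl _)
    have hnorm : ‖w‖ = sin B / sin C := by
      rw [hw, norm_div, eq_div_iff hsC.ne', div_mul_eq_mul_div, div_eq_iff (norm_ne_zero_iff.2 hqp)]
      rw [← dist_eq_norm, ← dist_eq_norm, mul_comm]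
      exact l2.symm
    have hwpol : w = ((sin C : ℝ) : ℂ)⁻¹ * pol (sin B) A := by
      have h1 := Complex.norm_mul_cos_add_sin_mul_I w
      rw [← hAarg, hnorm] at h1
      rw [← h1]
      apply Complex.ext
      · simp [pol, ← Complex.ofReal_inv, ← Complex.ofReal_cos, ← Complex.ofReal_sin]
        field_simp
      · simp [pol, ← Complex.ofReal_inv, ← Complex.ofReal_cos, ← Complex.ofReal_sin]
        field_simp
    have hsC' : ((sin C : ℝ) : ℂ) ≠ 0 := by exact_mod_cast hsC.ne'
    apply tri_similar hA0 hB0 hC0 hsum (κ := (q - p) / (sin C : ℝ)) (div_ne_zero hqp hsC') _ _ mp mq mr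
    · rw [div_mul_cancel₀ _ hsC']; ring
    · have : r = p + (q - p) * w := by rw [hw, mul_div_cancel₀ _ hqp]; ring
      conv_lhs => rw [this, hwpol]
      field_simp
  rcases lt_or_gt_of_ne h with h1 | h1
  · have h2 : 0 < orient p r q := by unfold orient at h1 ⊢; linarith
    have h3 := key h2 mp mr mq
    have h4 : ({p, q, r} : Set ℂ) = {p, r, q} := by
      rw [Set.pair_comm q r]
    rw [h4, h3, EuclideanGeometry.angle_comm r p q]
    congr 1
    ring
  · exact key h1 mp mq mr

end Pool.Agent.Lib.MP_b9d07b_gt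
end

section
set_option autoImplicit false

/-!
# Delaunay triangles of a finite set of points in the plane
-/

open MeasureTheory Set Filter Topology
open scoped ENNReal

namespace Pool.Agent.Lib.MP_b9d07b_gt

/-- The cross product. -/
def cr (a b : ℂ) : ℝ := a.re * b.im - a.im * b.re

theorem orient_eq (p q r : ℂ) : orient p q r = cr (q - p) (r - p) := by
  simp [orient, cr]

theorem cr_add_right (a b c : ℂ) : cr a (b + c) = cr a b + cr a c := by
  simp [cr]; ring

theorem cr_smul_right (a b : ℂ) (t : ℝ) : cr a (t • b) = t * cr a b := by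
  simp [cr]; ring

theorem cr_sub_right (a b c : ℂ) : cr a (b - c) = cr a b - cr a c := by
  simp [cr]; ring

theorem cr_self (a : ℂ) : cr a a = 0 := by simp [cr]; ring

theorem cr_comm (a b : ℂ) : cr a b = - cr b a := by simp [cr]; ring

theorem cr_neg_left (a b : ℂ) : cr (-a) b = - cr a b := by simp [cr]; ring

theorem cr_neg_right (a b : ℂ) : cr a (-b) = - cr a b := by simp [cr]; ring

theorem cr_smul_left (a b : ℂ) (t : ℝ) : cr (t • a) b = t * cr a b := by
  simp [cr]; ring

theorem cr_sum {T : Finset ℂ} (d : ℂ) (w : ℂ → ℝ) :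
    cr d (∑ y ∈ T, w y • y) = ∑ y ∈ T, w y * cr d y := by
  classical
  induction T using Finset.induction_on with
  | empty => simp [cr]
  | insert a s ha ih => rw [Finset.sum_insert ha, Finset.sum_insert ha, cr_add_right, cr_smul_right, ih]

/-- The affine function `x ↦ 2 ⟨m, x⟩ + k`. -/
noncomputable def Lf (m : ℂ) (k : ℝ) (x : ℂ) : ℝ := 2 * (m.re * x.re + m.im * x.im) + k

theorem pw_eq (m : ℂ) (k : ℝ) (x : ℂ) : pw m k x = Lf m k x - Complex.normSq x := rfl

theorem Lf_sum {T : Finset ℂ} {w : ℂ → ℝ} (hw : ∑ y ∈ T, w y = 1) (m : ℂ) (k : ℝ) :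
    Lf m k (∑ y ∈ T, w y • y) = ∑ y ∈ T, w y * Lf m k y := by
  have h1 : (∑ y ∈ T, w y • y).re = ∑ y ∈ T, w y * y.re := by
    rw [Complex.re_sum]; simp
  have h2 : (∑ y ∈ T, w y • y).im = ∑ y ∈ T, w y * y.im := by
    rw [Complex.im_sum]; simp
  unfold Lf
  rw [h1, h2]
  have : ∑ y ∈ T, w y * (2 * (m.re * y.re + m.im * y.im) + k) =
      2 * (m.re * ∑ y ∈ T, w y * y.re + m.im * ∑ y ∈ T, w y * y.im) + k * ∑ y ∈ T, w y := by
    simp only [Finset.mul_sum, ← Finset.sum_add_distrib]
    exact Finset.sum_congr rfl fun y _ => by ring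
  rw [this, hw, mul_one]

/-- General position: no three points on a line, no four points on a circle. -/
structure GP (Z : Finset ℂ) : Prop where
  col : ∀ p ∈ Z, ∀ q ∈ Z, ∀ r ∈ Z, p ≠ q → q ≠ r → p ≠ r → orient p q r ≠ 0
  cyc : ∀ T ⊆ Z, T.card = 3 → ∀ (m : ℂ) (k : ℝ), (∀ z ∈ T, Lf m k z = Complex.normSq z) →
    ∀ z ∈ Z, z ∉ T → Lf m k z ≠ Complex.normSq z

/-- `T` is a Delaunay triangle of `Z`. -/
def IsDel (Z T : Finset ℂ) : Prop :=
  T ⊆ Z ∧ T.card = 3 ∧ ∃ (m : ℂ) (k : ℝ), (∀ z ∈ T, Lf m k z = Complex.normSq z) ∧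
    ∀ z ∈ Z, z ∉ T → Lf m k z < Complex.normSq z

/-- A finite set is noncollinear of size three. -/
def NC (T : Finset ℂ) : Prop := T.card = 3 ∧
  ∀ p ∈ T, ∀ q ∈ T, ∀ r ∈ T, p ≠ q → q ≠ r → p ≠ r → orient p q r ≠ 0

theorem GP.nc {Z T : Finset ℂ} (hZ : GP Z) (hT : T ⊆ Z) (hc : T.card = 3) : NC T :=
  ⟨hc, fun p hp q hq r hr => hZ.col p (hT hp) q (hT hq) r (hT hr)⟩

theorem nc_triple {T : Finset ℂ} (h : NC T) : ∃ p q r : ℂ, p ≠ q ∧ q ≠ r ∧ p ≠ r ∧
    (∀ x, x ∈ T ↔ x = p ∨ x = q ∨ x = r) ∧ orient p q r ≠ 0 ∧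
    ∀ {M : Type} [AddCommMonoid M] (f : ℂ → M), ∑ y ∈ T, f y = f p + f q + f r := by
  classical
  obtain ⟨p, q, r, hpq, hpr, hqr, hT⟩ := Finset.card_eq_three.1 h.1
  refine ⟨p, q, r, hpq, hqr, hpr, ?_, ?_, ?_⟩
  · intro x; rw [hT]; simp
  · exact h.2 p (by rw [hT]; simp) q (by rw [hT]; simp) r (by rw [hT]; simp) hpq hqr hpr
  · intro M _ f
    rw [hT, Finset.sum_insert (by simp [hpq, hpr]), Finset.sum_insert (by simp [hqr]),
      Finset.sum_singleton, add_assoc]

theorem exists_coef {T : Finset ℂ} (h : NC T) (z : ℂ) :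
    ∃ c : ℂ → ℝ, ∑ y ∈ T, c y = 1 ∧ ∑ y ∈ T, c y • y = z := by
  classical
  obtain ⟨p, q, r, hpq, hqr, hpr, hT, ho, hsum⟩ := nc_triple h
  set D := orient p q r with hD
  refine ⟨fun y => if y = p then orient z q r / D else if y = q then orient p z r / D
    else orient p q z / D, ?_, ?_⟩
  · rw [hsum]
    simp only [if_true, hpq.symm, hpr.symm, hqr.symm, if_false]
    rw [← add_div, ← add_div, div_eq_one_iff_eq ho, hD]
    unfold orient
    ring
  · rw [hsum]
    simp only [if_true, hpq.symm, hpr.symm, hqr.symm, if_false]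
    have hD' : (orient p q r) ≠ 0 := ho
    apply Complex.ext
    · simp only [Complex.add_re, Complex.smul_re, smul_eq_mul]
      field_simp
      rw [hD]
      unfold orient
      ring
    · simp only [Complex.add_im, Complex.smul_im, smul_eq_mul]
      field_simp
      rw [hD]
      unfold orient
      ring

theorem exists_Lf {T : Finset ℂ} (h : NC T) :
    ∃ (m : ℂ) (k : ℝ), ∀ z ∈ T, Lf m k z = Complex.normSq z := by
  obtain ⟨p, q, r, hpq, hqr, hpr, hT, ho, hsum⟩ := nc_triple h
  set D := orient p q r with hD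
  set a := Complex.normSq p with ha
  set b := Complex.normSq q with hb
  set c := Complex.normSq r with hc
  -- `x ↦ (a * orient x q r + b * orient p x r + c * orient p q x) / D`
  refine ⟨⟨(a * (q.im - r.im) + b * (r.im - p.im) + c * (p.im - q.im)) / (2 * D),
      (a * (r.re - q.re) + b * (p.re - r.re) + c * (q.re - p.re)) / (2 * D)⟩,
    (a * (q.re * r.im - q.im * r.re) + b * (r.re * p.im - r.im * p.re) +
      c * (p.re * q.im - p.im * q.re)) / D, ?_⟩
  intro z hz
  have hval : ∀ x : ℂ, Lf ⟨(a * (q.im - r.im) + b * (r.im - p.im) + c * (p.im - q.im)) / (2 * D),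
      (a * (r.re - q.re) + b * (p.re - r.re) + c * (q.re - p.re)) / (2 * D)⟩
      ((a * (q.re * r.im - q.im * r.re) + b * (r.re * p.im - r.im * p.re) +
      c * (p.re * q.im - p.im * q.re)) / D) x =
      (a * orient x q r + b * orient p x r + c * orient p q x) / D := by
    intro x
    unfold Lf
    simp only
    field_simp
    unfold orient
    ring
  rw [hval, div_eq_iff ho, hD]
  rcases (hT z).1 hz with rfl | rfl | rfl
  · rw [← ha]; unfold orient; ring
  · rw [← hb]; unfold orient; ring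
  · rw [← hc]; unfold orient; ring

/-- Strict convexity of `|x|²`. -/
theorem normSq_convex {T : Finset ℂ} {w : ℂ → ℝ} (h1 : ∑ y ∈ T, w y = 1) (x : ℂ) (hx : ∑ y ∈ T, w y • y = x) :
    ∑ y ∈ T, w y * Complex.normSq y = Complex.normSq x + ∑ y ∈ T, w y * Complex.normSq (y - x) := by
  have hre : ∑ y ∈ T, w y * y.re = x.re := by
    rw [← hx, Complex.re_sum]; simp
  have him : ∑ y ∈ T, w y * y.im = x.im := by
    rw [← hx, Complex.im_sum]; simp
  have : ∑ y ∈ T, w y * Complex.normSq (y - x) = ∑ y ∈ T, w y * Complex.normSq y -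
      2 * x.re * ∑ y ∈ T, w y * y.re - 2 * x.im * ∑ y ∈ T, w y * y.im +
      Complex.normSq x * ∑ y ∈ T, w y := by
    simp only [Finset.mul_sum, ← Finset.sum_add_distrib, ← Finset.sum_sub_distrib]
    refine Finset.sum_congr rfl fun y _ => ?_
    simp only [Complex.normSq_apply, Complex.sub_re, Complex.sub_im]
    ring
  rw [this, hre, him, h1]
  simp only [Complex.normSq_apply]
  ring

/-- The complex property: a point of a Delaunay triangle with positive weight at the vertex `z₀`
lies in no Delaunay triangle without this vertex. -/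
theorem del_mem {Z T T' : Finset ℂ} (hT : IsDel Z T) (hT' : IsDel Z T') {w : ℂ → ℝ}
    (h0 : ∀ y ∈ T, 0 ≤ w y) (h1 : ∑ y ∈ T, w y = 1) {x : ℂ} (hx : ∑ y ∈ T, w y • y = x)
    (hx' : x ∈ convexHull ℝ (T' : Set ℂ)) {z₀ : ℂ} (hz : z₀ ∈ T) (hpos : 0 < w z₀) : z₀ ∈ T' := by
  by_contra hne
  obtain ⟨hTZ, -, m, k, hm, hm'⟩ := hT
  obtain ⟨hTZ', -, m', k', hn, hn'⟩ := hT'
  obtain ⟨w', h0', h1', hx''⟩ := Finset.mem_convexHull'.1 hx'
  -- `L_T x ≤ L_T' x`
  have e1 : Lf m k x ≤ Lf m' k' x := by
    rw [← hx'', Lf_sum h1', Lf_sum h1']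
    apply Finset.sum_le_sum
    intro y hy
    apply mul_le_mul_of_nonneg_left _ (h0' y hy)
    rw [hn y hy]
    by_cases hyT : y ∈ T
    · exact (hm y hyT).le
    · exact (hm' y (hTZ' hy) hyT).le
  have e2 : Lf m' k' x < Lf m k x := by
    rw [← hx, Lf_sum h1, Lf_sum h1]
    apply Finset.sum_lt_sum
    · intro y hy
      apply mul_le_mul_of_nonneg_left _ (h0 y hy)
      rw [hm y hy]
      by_cases hyT : y ∈ T'
      · exact (hn y hyT).le
      · exact (hn' y (hTZ hy) hyT).le
    · refine ⟨z₀, hz, ?_⟩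
      apply mul_lt_mul_of_pos_left _ hpos
      rw [hm z₀ hz]
      exact hn' z₀ (hTZ hz) hne
  linarith

/-- A vertex set point in a Delaunay triangle is one of its vertices. -/
theorem del_vertex {Z T : Finset ℂ} (hT : IsDel Z T) {v : ℂ} (hv : v ∈ Z)
    (h : v ∈ convexHull ℝ (T : Set ℂ)) : v ∈ T := by
  by_contra hne
  obtain ⟨hTZ, -, m, k, hm, hm'⟩ := hT
  obtain ⟨w, h0, h1, hx⟩ := Finset.mem_convexHull'.1 h
  have e1 := hm' v hv hne
  have e2 : Lf m k v = ∑ y ∈ T, w y * Complex.normSq y := by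
    rw [← hx, Lf_sum h1]
    exact Finset.sum_congr rfl fun y hy => by rw [hm y hy]
  rw [normSq_convex h1 v hx] at e2
  have : 0 ≤ ∑ y ∈ T, w y * Complex.normSq (y - v) :=
    Finset.sum_nonneg fun y hy => mul_nonneg (h0 y hy) (Complex.normSq_nonneg _)
  linarith

end Pool.Agent.Lib.MP_b9d07b_gt
end

section
set_option autoImplicit false

/-!
# The Delaunay triangles cover the convex hull
-/

open MeasureTheory Set Filter Topology
open scoped ENNReal

namespace Pool.Agent.Lib.MP_b9d07b_gt

theorem hull_card_two {T : Finset ℂ} (hc : T.card = 2) {x : ℂ}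
    (hx : x ∈ convexHull ℝ (T : Set ℂ)) : ∃ p ∈ T, ∃ q ∈ T, x ∈ segment ℝ p q := by
  obtain ⟨p, q, hpq, rfl⟩ := Finset.card_eq_two.1 hc
  refine ⟨p, by simp, q, by simp, ?_⟩
  rwa [Finset.coe_pair, convexHull_pair] at hx

theorem exists_triple {Z : Finset ℂ} {x : ℂ} (hx : x ∈ convexHull ℝ (Z : Set ℂ))
    (hseg : ∀ p ∈ Z, ∀ q ∈ Z, x ∉ segment ℝ p q) :
    ∃ T ⊆ Z, T.card = 3 ∧ x ∈ convexHull ℝ (T : Set ℂ) := by
  rw [convexHull_eq_union] at hx
  simp only [mem_iUnion, exists_prop] at hx
  obtain ⟨t, htZ, hai, hxt⟩ := hx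
  have htZ' : t ⊆ Z := by exact_mod_cast htZ
  refine ⟨t, htZ', ?_, hxt⟩
  have hle : t.card ≤ 3 := by
    have h1 := hai.card_le_finrank_succ
    have h2 : Module.finrank ℝ (vectorSpan ℝ (Set.range ((↑) : t → ℂ))) ≤ 2 := by
      have := Submodule.finrank_le (vectorSpan ℝ (Set.range ((↑) : t → ℂ)))
      rwa [Complex.finrank_real_complex] at this
    rw [Fintype.card_coe] at h1
    omega
  have h0 : t.card ≠ 0 := by
    intro h0
    rw [Finset.card_eq_zero] at h0
    rw [h0] at hxt
    simp at hxt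
  have h1 : t.card ≠ 1 := by
    intro h1
    obtain ⟨p, hp⟩ := Finset.card_eq_one.1 h1
    rw [hp, Finset.coe_singleton, convexHull_singleton] at hxt
    have hpZ : p ∈ Z := htZ' (by rw [hp]; simp)
    apply hseg p hpZ p hpZ
    rw [mem_singleton_iff.1 hxt]
    exact left_mem_segment ℝ p p
  have h2 : t.card ≠ 2 := by
    intro h2
    obtain ⟨p, hp, q, hq, hpq⟩ := hull_card_two h2 hxt
    exact hseg p (htZ' hp) q (htZ' hq) hpq
  omega

theorem cover {Z : Finset ℂ} (hZ : GP Z) {x : ℂ} (hx : x ∈ convexHull ℝ (Z : Set ℂ))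
    (hseg : ∀ p ∈ Z, ∀ q ∈ Z, x ∉ segment ℝ p q) :
    ∃ T, IsDel Z T ∧ x ∈ convexHull ℝ (T : Set ℂ) := by
  classical
  -- the triangles containing `x`
  set 𝒯 : Finset (Finset ℂ) :=
    (Z.powersetCard 3).filter (fun T : Finset ℂ => x ∈ convexHull ℝ (T : Set ℂ)) with h𝒯
  have hne : 𝒯.Nonempty := by
    obtain ⟨T, h1, h2, h3⟩ := exists_triple hx hseg
    exact ⟨T, by rw [h𝒯, Finset.mem_filter, Finset.mem_powersetCard]; exact ⟨⟨h1, h2⟩, h3⟩⟩
  have hmk : ∀ T : Finset ℂ, ∃ (m : ℂ) (k : ℝ), T ∈ 𝒯 → ∀ z ∈ T, Lf m k z = Complex.normSq z := by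
    intro T
    by_cases hT : T ∈ 𝒯
    · rw [h𝒯, Finset.mem_filter, Finset.mem_powersetCard] at hT
      obtain ⟨m, k, h⟩ := exists_Lf (hZ.nc hT.1.1 hT.1.2)
      exact ⟨m, k, fun _ => h⟩
    · exact ⟨0, 0, fun h => absurd h hT⟩
  choose m k hmk using hmk
  obtain ⟨T, hT, hmin⟩ := Finset.exists_min_image 𝒯 (fun T => Lf (m T) (k T) x) hne
  have hT' := hT
  rw [h𝒯, Finset.mem_filter, Finset.mem_powersetCard] at hT'
  obtain ⟨⟨hTZ, hTc⟩, hxT⟩ := hT'
  refine ⟨T, ⟨hTZ, hTc, m T, k T, hmk T hT, ?_⟩, hxT⟩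
  intro z hzZ hzT
  by_contra hlt
  push Not at hlt
  have hgt : Complex.normSq z < Lf (m T) (k T) z :=
    lt_of_le_of_ne hlt (Ne.symm (hZ.cyc T hTZ hTc _ _ (hmk T hT) z hzZ hzT))
  have hNC := hZ.nc hTZ hTc
  obtain ⟨w, hw0, hw1, hwx⟩ := Finset.mem_convexHull'.1 hxT
  have hwpos : ∀ y ∈ T, 0 < w y := by
    intro y hy
    rcases (hw0 y hy).lt_or_eq with h | h
    · exact h
    · exfalso
      have hx2 : x ∈ convexHull ℝ ((T.erase y : Finset ℂ) : Set ℂ) := by
        rw [Finset.mem_convexHull']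
        refine ⟨w, fun u hu => hw0 u (Finset.mem_of_mem_erase hu), ?_, ?_⟩
        · rw [← hw1, ← Finset.add_sum_erase T w hy, ← h, zero_add]
        · rw [← hwx, ← Finset.add_sum_erase T (fun y => w y • y) hy, ← h, zero_smul, zero_add]
      obtain ⟨p, hp, q, hq, hpq⟩ := hull_card_two (by rw [Finset.card_erase_of_mem hy, hTc]) hx2
      exact hseg p (hTZ (Finset.mem_of_mem_erase hp)) q (hTZ (Finset.mem_of_mem_erase hq)) hpq
  obtain ⟨c, hc1, hcz⟩ := exists_coef hNC z
  have hTne : T.Nonempty := Finset.card_pos.1 (by omega)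
  obtain ⟨p, hp, hpmax⟩ := Finset.exists_max_image T (fun y => c y / w y) hTne
  have hcp : 0 < c p := by
    by_contra hcp
    push Not at hcp
    have h1 : ∀ y ∈ T, c y ≤ 0 := by
      intro y hy
      have h2 := hpmax y hy
      have h3 : c p / w p ≤ 0 := div_nonpos_of_nonpos_of_nonneg hcp (hw0 p hp)
      have h4 : c y / w y ≤ 0 := h2.trans h3
      rw [div_le_iff₀ (hwpos y hy), zero_mul] at h4
      exact h4
    have := Finset.sum_nonpos h1
    linarith
  set θ := w p / c p with hθ
  have hθ0 : 0 < θ := div_pos (hwpos p hp) hcp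
  have hcoef : ∀ y ∈ T, 0 ≤ w y - θ * c y := by
    intro y hy
    have h2 := hpmax y hy
    rw [div_le_div_iff₀ (hwpos y hy) (hwpos p hp)] at h2
    rw [hθ, sub_nonneg, div_mul_eq_mul_div, div_le_iff₀ hcp]
    linarith
  have hp0 : w p - θ * c p = 0 := by
    rw [hθ, div_mul_cancel₀ _ hcp.ne', sub_self]
  set T' := insert z (T.erase p) with hT'
  have hze : z ∉ T.erase p := fun h => hzT (Finset.mem_of_mem_erase h)
  have hT'c : T'.card = 3 := by
    rw [hT', Finset.card_insert_of_notMem hze, Finset.card_erase_of_mem hp, hTc]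
  have hT'Z : T' ⊆ Z := by
    rw [hT', Finset.insert_subset_iff]
    exact ⟨hzZ, (Finset.erase_subset _ _).trans hTZ⟩
  set w' : ℂ → ℝ := fun y => if y = z then θ else w y - θ * c y with hw'
  have hsumT' : ∀ {M : Type} [AddCommGroup M] [Module ℝ M] (f : ℂ → M), ∑ y ∈ T', w' y • f y =
      θ • f z + ∑ y ∈ T, w y • f y - θ • ∑ y ∈ T, c y • f y := by
    intro M _ _ f
    rw [hT', Finset.sum_insert hze]
    have h1 : ∑ y ∈ T.erase p, w' y • f y = ∑ y ∈ T.erase p, (w y - θ * c y) • f y := by
      refine Finset.sum_congr rfl fun y hy => ?_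
      have : y ≠ z := fun h => hze (h ▸ hy)
      simp only [hw', this, if_false]
    rw [h1]
    have h2 : ∑ y ∈ T.erase p, (w y - θ * c y) • f y = ∑ y ∈ T, (w y - θ * c y) • f y := by
      rw [← Finset.add_sum_erase T _ hp, hp0, zero_smul, zero_add]
    rw [h2]
    simp only [hw', if_true, sub_smul, Finset.sum_sub_distrib, Finset.smul_sum, smul_smul]
    abel
  have hw'1 : ∑ y ∈ T', w' y = 1 := by
    have := hsumT' (fun _ => (1 : ℝ))
    simp only [smul_eq_mul, mul_one] at this
    rw [this, hw1, hc1]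
    ring
  have hw'x : ∑ y ∈ T', w' y • y = x := by
    have := hsumT' (fun y => y)
    rw [this, hwx, hcz]
    abel
  have hxT' : x ∈ convexHull ℝ (T' : Set ℂ) := by
    rw [Finset.mem_convexHull']
    refine ⟨w', ?_, hw'1, hw'x⟩
    intro y hy
    rw [hT', Finset.mem_insert] at hy
    simp only [hw']
    split_ifs with h
    · exact hθ0.le
    · rcases hy with h' | h'
      · exact absurd h' h
      · exact hcoef y (Finset.mem_of_mem_erase h')
  have hT'𝒯 : T' ∈ 𝒯 := by
    rw [h𝒯, Finset.mem_filter, Finset.mem_powersetCard]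
    exact ⟨⟨hT'Z, hT'c⟩, hxT'⟩
  have h1 := hmin T' hT'𝒯
  have h2 : Lf (m T') (k T') x = ∑ y ∈ T', w' y • Complex.normSq y := by
    rw [← hw'x, Lf_sum hw'1]
    refine Finset.sum_congr rfl fun y hy => ?_
    rw [hmk T' hT'𝒯 y hy, smul_eq_mul]
  have h3 : Lf (m T) (k T) x = ∑ y ∈ T, w y • Complex.normSq y := by
    rw [← hwx, Lf_sum hw1]
    refine Finset.sum_congr rfl fun y hy => ?_
    rw [hmk T hT y hy, smul_eq_mul]
  have h4 : Lf (m T) (k T) z = ∑ y ∈ T, c y • Complex.normSq y := by
    rw [← hcz, Lf_sum hc1]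
    refine Finset.sum_congr rfl fun y hy => ?_
    rw [hmk T hT y hy, smul_eq_mul]
  rw [h2, hsumT', ← h3, ← h4, smul_eq_mul, smul_eq_mul] at h1
  nlinarith

end Pool.Agent.Lib.MP_b9d07b_gt
end

section
set_option autoImplicit false

/-!
# Delaunay triangles seen from a point in a generic direction
-/

open MeasureTheory Set Filter Topology
open scoped ENNReal

namespace Pool.Agent.Lib.MP_b9d07b_gt

/-- `d` is not parallel to a difference of two points of `Z`. -/
def Gen (Z : Finset ℂ) (d : ℂ) : Prop := d ≠ 0 ∧ ∀ p ∈ Z, ∀ q ∈ Z, p ≠ q → cr d (q - p) ≠ 0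

theorem Gen.neg {Z : Finset ℂ} {d : ℂ} (h : Gen Z d) : Gen Z (-d) :=
  ⟨neg_ne_zero.2 h.1, fun p hp q hq hpq h0 => h.2 p hp q hq hpq (by
    rw [cr_neg_left] at h0; linarith)⟩

theorem exists_gen (Z : Finset ℂ) : ∃ d, Gen Z d := by
  classical
  set B : Finset ℝ := (Z ×ˢ Z).image (fun p => (p.2 - p.1).im / (p.2 - p.1).re) with hB
  obtain ⟨s, hs⟩ := Infinite.exists_notMem_finset B
  refine ⟨⟨1, s⟩, ?_, ?_⟩
  · intro h
    have := congrArg Complex.re h
    simp at this
  · intro p hp q hq hpq h0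
    unfold cr at h0
    simp only [one_mul] at h0
    by_cases hre : (q - p).re = 0
    · rw [hre, mul_zero, sub_zero] at h0
      exact hpq (sub_eq_zero.1 (Complex.ext hre h0)).symm
    · apply hs
      rw [hB, Finset.mem_image]
      refine ⟨(p, q), Finset.mem_product.2 ⟨hp, hq⟩, ?_⟩
      simp only
      rw [div_eq_iff hre]
      linarith

theorem segment_param {p q x : ℂ} (h : x ∈ segment ℝ p q) : ∃ s : ℝ, x = p + s • (q - p) := by
  rw [segment_eq_image'] at h
  obtain ⟨s, -, rfl⟩ := h
  exact ⟨s, rfl⟩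

theorem bad_finite {Z : Finset ℂ} {d : ℂ} (hd : Gen Z d) (y : ℂ) :
    {ε : ℝ | ∃ p ∈ Z, ∃ q ∈ Z, y + ε • d ∈ segment ℝ p q}.Finite := by
  have : {ε : ℝ | ∃ p ∈ Z, ∃ q ∈ Z, y + ε • d ∈ segment ℝ p q} =
      ⋃ p ∈ Z, ⋃ q ∈ Z, {ε : ℝ | y + ε • d ∈ segment ℝ p q} := by
    ext ε; simp
  rw [this]
  apply Set.Finite.biUnion Z.finite_toSet
  intro p hp
  apply Set.Finite.biUnion Z.finite_toSet
  intro q hq
  apply Set.Subsingleton.finite
  intro ε1 h1 ε2 h2
  obtain ⟨s1, h1⟩ := segment_param h1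
  obtain ⟨s2, h2⟩ := segment_param h2
  have h3 : (ε1 - ε2) • d = (s1 - s2) • (q - p) := by
    rw [sub_smul, sub_smul]
    linear_combination (exp := 1) h1 - h2
  by_contra hne
  have hne' : ε1 - ε2 ≠ 0 := sub_ne_zero.2 hne
  have h4 : s1 - s2 = 0 ∨ p = q := by
    by_contra hcon
    push Not at hcon
    have h5 := congrArg (cr d) h3
    rw [cr_smul_right, cr_smul_right, cr_self, mul_zero] at h5
    exact (mul_ne_zero hcon.1 (hd.2 p hp q hq hcon.2)) h5.symm
  have h5 : (ε1 - ε2) • d = 0 := by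
    rcases h4 with h4 | h4
    · rw [h3, h4, zero_smul]
    · rw [h3, h4, sub_self, smul_zero]
  rcases smul_eq_zero.1 h5 with h6 | h6
  · exact hne' h6
  · exact hd.1 h6

theorem isClosed_hull (T : Finset ℂ) : IsClosed (convexHull ℝ (T : Set ℂ)) :=
  T.finite_toSet.isClosed_convexHull ℝ

theorem dir_small {C : Set ℂ} (hC : Convex ℝ C) {y d : ℂ} (hy : y ∈ C) {ε₀ : ℝ} (h : y + ε₀ • d ∈ C)
    {ε : ℝ} (h0 : 0 ≤ ε) (h1 : ε ≤ ε₀) : y + ε • d ∈ C := by
  rcases h0.eq_or_lt with h2 | h2
  · rw [← h2, zero_smul, add_zero]; exact hy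
  have hpos : 0 < ε₀ := lt_of_lt_of_le h2 h1
  have := hC hy h (a := 1 - ε / ε₀) (b := ε / ε₀) (by
    rw [sub_nonneg, div_le_one hpos]; exact h1) (by positivity) (by ring)
  convert! this using 1
  rw [sub_smul, one_smul, smul_add, smul_smul, div_mul_cancel₀ _ hpos.ne']
  abel

theorem dir_cover {Z : Finset ℂ} (hZ : GP Z) {d : ℂ} (hd : Gen Z d) {y : ℂ}
    (hy : y ∈ convexHull ℝ (Z : Set ℂ)) {ε₀ : ℝ} (hε₀ : 0 < ε₀)
    (h : y + ε₀ • d ∈ convexHull ℝ (Z : Set ℂ)) :
    ∃ T, IsDel Z T ∧ y ∈ convexHull ℝ (T : Set ℂ) ∧ ∃ ε : ℝ, 0 < ε ∧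
      y + ε • d ∈ convexHull ℝ (T : Set ℂ) := by
  classical
  have hconv := convex_convexHull ℝ (Z : Set ℂ)
  have e1 : ∀ᶠ ε in 𝓝[>] (0 : ℝ), y + ε • d ∈ convexHull ℝ (Z : Set ℂ) := by
    filter_upwards [Ioc_mem_nhdsGT hε₀] with ε hε
    exact dir_small hconv hy h hε.1.le hε.2
  have e2 : ∀ᶠ ε in 𝓝[>] (0 : ℝ), ε ∉ {ε : ℝ | ∃ p ∈ Z, ∃ q ∈ Z, y + ε • d ∈ segment ℝ p q} := by
    have hfin := (bad_finite hd y).subset (sdiff_subset (t := {(0 : ℝ)}))
    have h1 := hfin.isClosed.isOpen_compl.mem_nhds (show (0 : ℝ) ∈ _ᶜ from fun h => h.2 rfl)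
    have h2 : _ ∈ 𝓝[>] (0 : ℝ) := mem_nhdsWithin_of_mem_nhds h1
    filter_upwards [h2, self_mem_nhdsWithin] with ε hε hε0 hmem
    exact hε ⟨hmem, fun h => (ne_of_gt (show (0 : ℝ) < ε from hε0)) h⟩
  have e3 : ∀ᶠ ε in 𝓝[>] (0 : ℝ), ∃ T ∈ Z.powerset, IsDel Z T ∧ y + ε • d ∈ convexHull ℝ (T : Set ℂ) := by
    filter_upwards [e1, e2] with ε h1 h2
    obtain ⟨T, hT, hx⟩ := cover hZ h1 (fun p hp q hq hpq => h2 ⟨p, hp, q, hq, hpq⟩)
    exact ⟨T, Finset.mem_powerset.2 hT.1, hT, hx⟩
  have e4 : ∃ T ∈ Z.powerset, ∃ᶠ ε in 𝓝[>] (0 : ℝ), IsDel Z T ∧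
      y + ε • d ∈ convexHull ℝ (T : Set ℂ) := by
    by_contra hcon
    push Not at hcon
    have h1 : ∀ᶠ ε in 𝓝[>] (0 : ℝ), ∀ T ∈ Z.powerset, ¬ (IsDel Z T ∧
        y + ε • d ∈ convexHull ℝ (T : Set ℂ)) := by
      rw [Finset.eventually_all]
      intro T hT
      filter_upwards [hcon T hT] with ε h2 h3
      exact h2 h3.1 h3.2
    obtain ⟨ε, h2, T, hT, h3⟩ := (h1.and e3).exists
    exact h2 T hT h3
  obtain ⟨T, -, hT⟩ := e4
  obtain ⟨ε, hε, hε0⟩ := (hT.and_eventually self_mem_nhdsWithin).exists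
  refine ⟨T, hε.1, ?_, ε, hε0, hε.2⟩
  have hcl : y ∈ closure (convexHull ℝ (T : Set ℂ)) := by
    have hlim : Tendsto (fun ε : ℝ => y + ε • d) (𝓝[>] (0 : ℝ)) (𝓝 y) := by
      have : Continuous fun ε : ℝ => y + ε • d := by fun_prop
      have h2 := this.tendsto 0
      rw [zero_smul, add_zero] at h2
      exact h2.mono_left nhdsWithin_le_nhds
    exact mem_closure_of_frequently_of_tendsto (hT.mono fun _ h => h.2) hlim
  rwa [(isClosed_hull T).closure_eq] at hcl

end Pool.Agent.Lib.MP_b9d07b_gt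
end

section
set_option autoImplicit false

/-!
# Directions entering a convex hull from a vertex
-/

open MeasureTheory Set Filter Topology
open scoped ENNReal

namespace Pool.Agent.Lib.MP_b9d07b_gt

/-- The direction `d` enters the convex hull of `T` at `v`. -/
def Ent (d v : ℂ) (T : Finset ℂ) : Prop := ∃ ε : ℝ, 0 < ε ∧ v + ε • d ∈ convexHull ℝ (T : Set ℂ)

theorem Gen.mono {Z T : Finset ℂ} {d : ℂ} (h : Gen Z d) (hT : T ⊆ Z) : Gen T d :=
  ⟨h.1, fun p hp q hq hpq => h.2 p (hT hp) q (hT hq) hpq⟩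

theorem not_ent {T : Finset ℂ} {d v : ℂ} (hd : d ≠ 0) (hv : v ∈ T) (σ : ℝ)
    (h : ∀ y ∈ T, y ≠ v → 0 < σ * (cr d y - cr d v)) : ¬ Ent d v T := by
  classical
  rintro ⟨ε, hε, hx⟩
  obtain ⟨w, h0, h1, hw⟩ := Finset.mem_convexHull'.1 hx
  have h2 := congrArg (cr d) hw
  rw [cr_sum, cr_add_right, cr_smul_right, cr_self, mul_zero, add_zero] at h2
  have h3 : ∑ y ∈ T, w y * (σ * (cr d y - cr d v)) = 0 := by
    have : ∑ y ∈ T, w y * (σ * (cr d y - cr d v)) =
        σ * (∑ y ∈ T, w y * cr d y - (∑ y ∈ T, w y) * cr d v) := by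
      rw [Finset.sum_mul, ← Finset.sum_sub_distrib, Finset.mul_sum]
      exact Finset.sum_congr rfl fun y _ => by ring
    rw [this, h1, h2]
    ring
  have h4 := (Finset.sum_eq_zero_iff_of_nonneg (fun y hy => by
    by_cases hyv : y = v
    · rw [hyv, sub_self, mul_zero, mul_zero]
    · exact mul_nonneg (h0 y hy) (h y hy hyv).le)).1 h3
  have h5 : ∀ y ∈ T, y ≠ v → w y = 0 := by
    intro y hy hyv
    exact (mul_eq_zero.1 (h4 y hy)).resolve_right (h y hy hyv).ne'
  have h6 : w v = 1 := by
    rw [← h1]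
    exact (Finset.sum_eq_single_of_mem v hv h5).symm
  have h7 : ∑ y ∈ T, w y • y = v := by
    rw [Finset.sum_eq_single_of_mem v hv (fun y hy hyv => by rw [h5 y hy hyv, zero_smul]), h6,
      one_smul]
  rw [h7] at hw
  have h8 : ε • d = 0 := by
    have := congrArg (fun z => z - v) hw
    simpa using this
  rcases smul_eq_zero.1 h8 with h9 | h9
  · exact hε.ne' h9
  · exact hd h9

theorem parallel {d z : ℂ} (hd : d ≠ 0) (h : cr d z = 0) : ∃ τ : ℝ, z = τ • d := by
  have hn : Complex.normSq d ≠ 0 := (Complex.normSq_pos.2 hd).ne'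
  refine ⟨(d.re * z.re + d.im * z.im) / Complex.normSq d, ?_⟩
  unfold cr at h
  apply Complex.ext
  · simp only [Complex.smul_re, smul_eq_mul]
    rw [div_mul_eq_mul_div, eq_div_iff hn, Complex.normSq_apply]
    linear_combination (-d.im) * h
  · simp only [Complex.smul_im, smul_eq_mul]
    rw [div_mul_eq_mul_div, eq_div_iff hn, Complex.normSq_apply]
    linear_combination d.re * h

/-- The middle vertex is entered in the direction `d` or `-d`. -/
theorem ent_between {T : Finset ℂ} {d a v b : ℂ} (hd : d ≠ 0) (ha : a ∈ T) (hb : b ∈ T)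
    (h1 : cr d a < cr d v) (h2 : cr d v < cr d b) (ho : orient a b v ≠ 0) :
    Ent d v T ∨ Ent (-d) v T := by
  set s := (cr d v - cr d a) / (cr d b - cr d a) with hs
  have hpos : 0 < cr d b - cr d a := by linarith
  have hs0 : 0 ≤ s := div_nonneg (by linarith) hpos.le
  have hs1 : s ≤ 1 := by rw [hs, div_le_one hpos]; linarith
  set y₀ := a + s • (b - a) with hy₀
  have hmem : y₀ ∈ convexHull ℝ (T : Set ℂ) := by
    have := convex_convexHull ℝ (T : Set ℂ) (subset_convexHull ℝ _ ha) (subset_convexHull ℝ _ hb)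
      (sub_nonneg.2 hs1) hs0 (by ring)
    convert! this using 1
    rw [hy₀, smul_sub, sub_smul, one_smul]
    abel
  have hcr : cr d (y₀ - v) = 0 := by
    rw [cr_sub_right, hy₀, cr_add_right, cr_smul_right, cr_sub_right, hs, div_mul_cancel₀ _ hpos.ne']
    ring
  obtain ⟨τ, hτ⟩ := parallel hd hcr
  have hy : y₀ = v + τ • d := by rw [← hτ]; abel
  rcases lt_trichotomy τ 0 with h | h | h
  · right
    refine ⟨-τ, by linarith, ?_⟩
    rw [smul_neg, neg_smul, neg_neg, ← hy]
    exact hmem
  · exfalso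
    rw [h, zero_smul, add_zero] at hy
    apply ho
    rw [orient_eq]
    have : v - a = s • (b - a) := by rw [← hy, hy₀]; abel
    rw [this, cr_smul_right, cr_self, mul_zero]
  · left
    exact ⟨τ, h, by rw [← hy]; exact hmem⟩

theorem middle {T : Finset ℂ} (hT : NC T) {d : ℂ} (hd : Gen T d) : ∃ a w b : ℂ, a ∈ T ∧ w ∈ T ∧
    b ∈ T ∧ cr d a < cr d w ∧ cr d w < cr d b ∧ ∀ y ∈ T, y = a ∨ y = w ∨ y = b := by
  classical
  obtain ⟨p, q, r, hpq, hqr, hpr, hmem, -, -⟩ := nc_triple hT
  have hp : p ∈ T := (hmem p).2 (by simp)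
  have hq : q ∈ T := (hmem q).2 (by simp)
  have hr : r ∈ T := (hmem r).2 (by simp)
  have h1 : cr d p ≠ cr d q := fun h => hd.2 p hp q hq hpq (by rw [cr_sub_right, h, sub_self])
  have h2 : cr d q ≠ cr d r := fun h => hd.2 q hq r hr hqr (by rw [cr_sub_right, h, sub_self])
  have h3 : cr d p ≠ cr d r := fun h => hd.2 p hp r hr hpr (by rw [cr_sub_right, h, sub_self])
  rcases lt_or_gt_of_ne h1 with k1 | k1 <;> rcases lt_or_gt_of_ne h2 with k2 | k2 <;>
    rcases lt_or_gt_of_ne h3 with k3 | k3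
  · exact ⟨p, q, r, hp, hq, hr, k1, k2, fun y hy => (hmem y).1 hy⟩
  · exfalso; linarith
  · exact ⟨p, r, q, hp, hr, hq, k3, k2, fun y hy => by have := (hmem y).1 hy; tauto⟩
  · exact ⟨r, p, q, hr, hp, hq, k3, k1, fun y hy => by have := (hmem y).1 hy; tauto⟩
  · exact ⟨q, p, r, hq, hp, hr, k1, k3, fun y hy => by have := (hmem y).1 hy; tauto⟩
  · exact ⟨q, r, p, hq, hr, hp, k2, k3, fun y hy => by have := (hmem y).1 hy; tauto⟩
  · exfalso; linarith
  · exact ⟨r, q, p, hr, hq, hp, k2, k1, fun y hy => by have := (hmem y).1 hy; tauto⟩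

theorem not_ent_both {T : Finset ℂ} {d w : ℂ} (hT : NC T) (hd : Gen T d) (hw : w ∈ T) :
    ¬ (Ent d w T ∧ Ent (-d) w T) := by
  classical
  rintro ⟨⟨ε, hε, h1⟩, ε', hε', h2⟩
  -- the other two vertices
  obtain ⟨p, q, r, hpq, hqr, hpr, hmem, -, hsum⟩ := nc_triple hT
  have key : ∀ a b : ℂ, a ∈ T → b ∈ T → a ≠ b → a ≠ w → b ≠ w →
      (∀ f : ℂ → ℝ, ∑ y ∈ T, f y = f w + f a + f b) → False := by
    intro a b ha hb hab haw hbw hs
    have ho : orient a b w ≠ 0 := hT.2 a ha b hb w hw hab hbw haw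
    obtain ⟨l, l0, l1, hl⟩ := Finset.mem_convexHull'.1 h1
    obtain ⟨m, m0, m1, hm⟩ := Finset.mem_convexHull'.1 h2
    have f1 : ∀ c : ℂ → ℝ, ∑ y ∈ T, c y = 1 → ∀ x, ∑ y ∈ T, c y • y = x →
        orient a b x = c w * orient a b w := by
      intro c hc x hx
      have e1 : cr (b - a) x = ∑ y ∈ T, c y * cr (b - a) y := by rw [← hx, cr_sum]
      rw [orient_eq, orient_eq, cr_sub_right, cr_sub_right, e1, hs]
      rw [hs] at hc
      have e2 : cr (b - a) b = cr (b - a) a := by
        have := cr_self (b - a)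
        rw [cr_sub_right] at this
        linarith
      rw [e2]
      linear_combination (cr (b - a) a) * hc
    have g1 := f1 l l1 _ hl
    have g2 := f1 m m1 _ hm
    have g3 : orient a b (w + ε • d) = orient a b w + ε * cr (b - a) d := by
      rw [orient_eq, orient_eq, cr_sub_right, cr_sub_right, cr_add_right, cr_smul_right]; ring
    have g4 : orient a b (w + ε' • -d) = orient a b w - ε' * cr (b - a) d := by
      rw [orient_eq, orient_eq, cr_sub_right, cr_sub_right, cr_add_right, cr_smul_right,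
        cr_neg_right]; ring
    rw [g3] at g1
    rw [g4] at g2
    have l2 : l w ≤ 1 := by rw [hs] at l1; linarith [l0 a ha, l0 b hb]
    have m2 : m w ≤ 1 := by rw [hs] at m1; linarith [m0 a ha, m0 b hb]
    have hcr : cr (b - a) d ≠ 0 := by
      have := hd.2 a ha b hb hab
      rw [cr_comm] at this
      exact fun h => this (by rw [h, neg_zero])
    have e3 : ε * cr (b - a) d * orient a b w = (l w - 1) * orient a b w ^ 2 := by
      linear_combination orient a b w * g1
    have e4 : ε' * cr (b - a) d * orient a b w = (1 - m w) * orient a b w ^ 2 := by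
      linear_combination (-orient a b w) * g2
    have e5 : 0 < orient a b w ^ 2 := by positivity
    have e6 : cr (b - a) d * orient a b w ≤ 0 := by
      by_contra hc
      push Not at hc
      nlinarith [mul_pos hε hc, mul_nonneg (sub_nonneg.2 l2) e5.le]
    have e7 : 0 ≤ cr (b - a) d * orient a b w := by
      by_contra hc
      push Not at hc
      nlinarith [mul_pos hε' (neg_pos.2 hc), mul_nonneg (sub_nonneg.2 m2) e5.le]
    have e8 : cr (b - a) d * orient a b w = 0 := le_antisymm e6 e7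
    exact (mul_ne_zero hcr ho) e8
  have hp : p ∈ T := (hmem p).2 (by simp)
  have hq : q ∈ T := (hmem q).2 (by simp)
  have hr : r ∈ T := (hmem r).2 (by simp)
  rcases (hmem w).1 hw with rfl | rfl | rfl
  · exact key q r hq hr hqr hpq.symm hpr.symm (fun f => by rw [hsum])
  · exact key p r hp hr hpr hpq hqr.symm (fun f => by rw [hsum]; ring)
  · exact key p q hp hq hpq hpr hqr (fun f => by rw [hsum]; ring)

open Classical in
/-- Exactly one pair (vertex, sign) is entered. -/
theorem ent_count {T : Finset ℂ} (hT : NC T) {d : ℂ} (hd : Gen T d) :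
    ∑ v ∈ T, ((if Ent d v T then 1 else 0) + if Ent (-d) v T then 1 else 0) = 1 := by
  obtain ⟨a, w, b, ha, hw, hb, h1, h2, hall⟩ := middle hT hd
  have haw : a ≠ w := fun h => by rw [h] at h1; exact lt_irrefl _ h1
  have hbw : b ≠ w := fun h => by rw [h] at h2; exact lt_irrefl _ h2
  have hab : a ≠ b := fun h => by rw [h] at h1; linarith
  have hT3 := hT
  rw [Finset.sum_eq_single_of_mem w hw]
  · have ho : orient a b w ≠ 0 := hT.2 a ha b hb w hw hab hbw haw
    have h3 := ent_between hd.1 ha hb h1 h2 ho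
    have h4 := not_ent_both hT hd hw
    by_cases h5 : Ent d w T
    · have h6 : ¬ Ent (-d) w T := fun h => h4 ⟨h5, h⟩
      rw [if_pos h5, if_neg h6]
    · have h6 : Ent (-d) w T := h3.resolve_left h5
      rw [if_neg h5, if_pos h6]
  · intro v hv hvw
    have hsign : ∃ σ : ℝ, ∀ y ∈ T, y ≠ v → 0 < σ * (cr d y - cr d v) := by
      rcases hall v hv with rfl | rfl | rfl
      · refine ⟨1, fun y hy hyv => ?_⟩
        rcases hall y hy with rfl | rfl | rfl
        · exact absurd rfl hyv
        · linarith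
        · linarith
      · exact absurd rfl hvw
      · refine ⟨-1, fun y hy hyv => ?_⟩
        rcases hall y hy with rfl | rfl | rfl
        · linarith
        · linarith
        · exact absurd rfl hyv
    obtain ⟨σ, hσ⟩ := hsign
    have h3 : ¬ Ent d v T := not_ent hd.1 hv σ hσ
    have h4 : ¬ Ent (-d) v T := by
      apply not_ent (neg_ne_zero.2 hd.1) hv (-σ)
      intro y hy hyv
      rw [cr_neg_left, cr_neg_left]
      have := hσ y hy hyv
      linarith
    rw [if_neg h3, if_neg h4, add_zero]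

/-- A direction enters at most one Delaunay triangle at a given vertex. -/
theorem ent_unique {Z T T' : Finset ℂ} (hZ : GP Z) (hT : IsDel Z T) (hT' : IsDel Z T') {d v : ℂ}
    (hd : Gen Z d) (hv : v ∈ T) (hv' : v ∈ T') (h : Ent d v T) (h' : Ent d v T') : T = T' := by
  classical
  obtain ⟨ε, hε, h1⟩ := h
  obtain ⟨ε', hε', h2⟩ := h'
  set t := min (ε / 2) ε' with ht
  have ht0 : 0 < t := lt_min (by positivity) hε'
  have htε : t ≤ ε / 2 := min_le_left _ _
  have hx' : v + t • d ∈ convexHull ℝ (T' : Set ℂ) :=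
    dir_small (convex_convexHull ℝ _) (subset_convexHull ℝ _ hv') h2 ht0.le (min_le_right _ _)
  obtain ⟨l, l0, l1, hl⟩ := Finset.mem_convexHull'.1 h1
  set u := t / ε with hu
  have hu0 : 0 < u := by positivity
  have hu1 : u ≤ 1 / 2 := by rw [hu, div_le_iff₀ hε]; linarith
  set w : ℂ → ℝ := fun y => u * l y + if y = v then 1 - u else 0 with hw
  have w0 : ∀ y ∈ T, 0 ≤ w y := by
    intro y hy
    simp only [hw]
    have := mul_nonneg hu0.le (l0 y hy)
    split_ifs
    · linarith
    · linarith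
  have w1 : ∑ y ∈ T, w y = 1 := by
    simp only [hw]
    rw [Finset.sum_add_distrib, ← Finset.mul_sum, l1, Finset.sum_ite_eq' T v, if_pos hv]
    ring
  have wx : ∑ y ∈ T, w y • y = v + t • d := by
    simp only [hw, add_smul, ite_smul, zero_smul]
    rw [Finset.sum_add_distrib, Finset.sum_ite_eq' T v, if_pos hv]
    have : ∑ y ∈ T, (u * l y) • y = u • ∑ y ∈ T, l y • y := by
      rw [Finset.smul_sum]
      exact Finset.sum_congr rfl fun y _ => by rw [smul_smul]
    rw [this, hl, smul_add, smul_smul, hu, div_mul_cancel₀ _ hε.ne', sub_smul, one_smul]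
    abel
  have wv : 0 < w v := by
    simp only [hw, if_true]
    have := mul_nonneg hu0.le (l0 v hv)
    linarith
  have hNC := hZ.nc hT.1 hT.2.1
  have hsub : T ⊆ T' := by
    intro y hy
    rcases (w0 y hy).lt_or_eq with h3 | h3
    · exact del_mem hT hT' w0 w1 wx hx' hy h3
    · exfalso
      -- the weight of `y` vanishes: `d` is parallel to an edge
      have hyv : y ≠ v := by rintro rfl; linarith
      obtain ⟨p, q, r, hpq, hqr, hpr, hmem, -, hsum⟩ := nc_triple hNC
      have key : ∀ z : ℂ, z ∈ T → z ≠ v → (∀ f : ℂ → ℝ, ∑ x ∈ T, f x = f v + f y + f z) →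
          (∀ f : ℂ → ℂ, ∑ x ∈ T, f x = f v + f y + f z) → False := by
        intro z hz hzv hs hsC
        rw [hs, ← h3] at w1
        rw [hsC, ← h3, zero_smul, add_zero] at wx
        have e1 : t • d = w z • (z - v) := by
          have : w v = 1 - w z := by linarith
          rw [this] at wx
          rw [smul_sub]
          rw [sub_smul, one_smul] at wx
          linear_combination (exp := 1) -wx
        have e2 := congrArg (cr d) e1
        rw [cr_smul_right, cr_self, mul_zero, cr_smul_right] at e2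
        have e3 := hd.2 v (hT.1 hv) z (hT.1 hz) hzv.symm
        have e4 : w z = 0 := by
          rcases mul_eq_zero.1 e2.symm with h | h
          · exact h
          · exact absurd h e3
        rw [e4, zero_smul] at e1
        rcases smul_eq_zero.1 e1 with h | h
        · exact ht0.ne' h
        · exact hd.1 h
      have hp : p ∈ T := (hmem p).2 (by simp)
      have hq : q ∈ T := (hmem q).2 (by simp)
      have hr : r ∈ T := (hmem r).2 (by simp)
      rcases (hmem v).1 hv with rfl | rfl | rfl <;> rcases (hmem y).1 hy with rfl | rfl | rfl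
      · exact hyv rfl
      · exact key r hr hpr.symm (fun f => by rw [hsum]) (fun f => by rw [hsum])
      · exact key q hq hpq.symm (fun f => by rw [hsum]; ring) (fun f => by rw [hsum]; ring)
      · exact key r hr hqr.symm (fun f => by rw [hsum]; ring) (fun f => by rw [hsum]; ring)
      · exact hyv rfl
      · exact key p hp hpq (fun f => by rw [hsum]; ring) (fun f => by rw [hsum]; ring)
      · exact key q hq hqr (fun f => by rw [hsum]; ring) (fun f => by rw [hsum]; ring)
      · exact key p hp hpr (fun f => by rw [hsum]; ring) (fun f => by rw [hsum]; ring)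
      · exact hyv rfl
  exact Finset.eq_of_subset_of_card_le hsub (by rw [hT.2.1, hT'.2.1])

theorem ent_exists {Z : Finset ℂ} (hZ : GP Z) {d v : ℂ} (hd : Gen Z d) (hv : v ∈ Z)
    (h : Ent d v Z) : ∃ T, IsDel Z T ∧ v ∈ T ∧ Ent d v T := by
  obtain ⟨ε₀, hε₀, h1⟩ := h
  obtain ⟨T, hT, h2, ε, hε, h3⟩ := dir_cover hZ hd (subset_convexHull ℝ _ hv) hε₀ h1
  exact ⟨T, hT, del_vertex hT hv h2, ε, hε, h3⟩

theorem ent_mono {T Z : Finset ℂ} (h : T ⊆ Z) {d v : ℂ} (he : Ent d v T) : Ent d v Z := by
  obtain ⟨ε, hε, h1⟩ := he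
  exact ⟨ε, hε, convexHull_mono (by exact_mod_cast h) h1⟩

end Pool.Agent.Lib.MP_b9d07b_gt
end

section
set_option autoImplicit false

/-!
# The number of Delaunay triangles
-/

open MeasureTheory Set Filter Topology
open scoped ENNReal

namespace Pool.Agent.Lib.MP_b9d07b_gt

open Classical in
/-- The set of the Delaunay triangles. -/
noncomputable def Del (Z : Finset ℂ) : Finset (Finset ℂ) := Z.powerset.filter (IsDel Z)

open Classical in
/-- The set of the vertices of the convex hull. -/
noncomputable def extr (Z : Finset ℂ) : Finset ℂ :=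
  Z.filter (fun v => v ∉ convexHull ℝ ((Z.erase v : Finset ℂ) : Set ℂ))

theorem mem_Del {Z T : Finset ℂ} : T ∈ Del Z ↔ IsDel Z T := by
  classical
  unfold Del
  rw [Finset.mem_filter, Finset.mem_powerset]
  exact ⟨fun h => h.2, fun h => ⟨h.1, h⟩⟩

theorem orient_of_segment {p q x : ℂ} (h : x ∈ segment ℝ p q) : orient p q x = 0 := by
  obtain ⟨s, rfl⟩ := segment_param h
  rw [orient_eq]
  have : p + s • (q - p) - p = s • (q - p) := by abel
  rw [this, cr_smul_right, cr_self, mul_zero]

theorem tri_set {T : Finset ℂ} {p q r : ℂ} (h : ∀ x, x ∈ T ↔ x = p ∨ x = q ∨ x = r) :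
    (T : Set ℂ) = {p, q, r} := by
  ext x
  simp [h]

/-- A point strictly inside a triangle. -/
theorem inside_tri {p q r v : ℂ} (ho : orient p q r ≠ 0) (hv : v ∈ convexHull ℝ {p, q, r})
    (h1 : v ∉ segment ℝ p q) (h2 : v ∉ segment ℝ q r) (h3 : v ∉ segment ℝ p r) :
    ∀ᶠ x in 𝓝 v, x ∈ convexHull ℝ ({p, q, r} : Set ℂ) := by
  obtain ⟨a, b, c, ha, hb, hc, hs, rfl⟩ := (mem_tri p q r v).1 hv
  set D := orient p q r with hD
  have hc' : c = 1 - a - b := by linarith
  have ha0 : 0 < a := by
    rcases ha.lt_or_eq with h | h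
    · exact h
    · exfalso; apply h2
      rw [← h, zero_smul, zero_add]
      exact ⟨b, c, hb, hc, by linarith, rfl⟩
  have hb0 : 0 < b := by
    rcases hb.lt_or_eq with h | h
    · exact h
    · exfalso; apply h3
      rw [← h, zero_smul, add_zero]
      exact ⟨a, c, ha, hc, by linarith, rfl⟩
  have hc0 : 0 < c := by
    rcases hc.lt_or_eq with h | h
    · exact h
    · exfalso; apply h1
      rw [← h, zero_smul, add_zero]
      exact ⟨a, b, ha, hb, by linarith, rfl⟩
  have e1 : orient (a • p + b • q + c • r) q r / D = a := by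
    rw [div_eq_iff ho, hD]
    simp only [orient, Complex.add_re, Complex.add_im, Complex.smul_re, Complex.smul_im,
      smul_eq_mul]
    rw [hc']; ring
  have e2 : orient p (a • p + b • q + c • r) r / D = b := by
    rw [div_eq_iff ho, hD]
    simp only [orient, Complex.add_re, Complex.add_im, Complex.smul_re, Complex.smul_im,
      smul_eq_mul]
    rw [hc']; ring
  have e3 : orient p q (a • p + b • q + c • r) / D = c := by
    rw [div_eq_iff ho, hD]
    simp only [orient, Complex.add_re, Complex.add_im, Complex.smul_re, Complex.smul_im,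
      smul_eq_mul]
    rw [hc']; ring
  have c1 : Continuous fun x : ℂ => orient x q r / D := by unfold orient; fun_prop
  have c2 : Continuous fun x : ℂ => orient p x r / D := by unfold orient; fun_prop
  have c3 : Continuous fun x : ℂ => orient p q x / D := by unfold orient; fun_prop
  have f1 : ∀ᶠ x in 𝓝 (a • p + b • q + c • r), 0 < orient x q r / D :=
    continuousAt_const.eventually_lt c1.continuousAt (by rw [e1]; exact ha0)
  have f2 : ∀ᶠ x in 𝓝 (a • p + b • q + c • r), 0 < orient p x r / D :=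
    continuousAt_const.eventually_lt c2.continuousAt (by rw [e2]; exact hb0)
  have f3 : ∀ᶠ x in 𝓝 (a • p + b • q + c • r), 0 < orient p q x / D :=
    continuousAt_const.eventually_lt c3.continuousAt (by rw [e3]; exact hc0)
  filter_upwards [f1, f2, f3] with x g1 g2 g3
  rw [mem_tri]
  refine ⟨_, _, _, g1.le, g2.le, g3.le, ?_, ?_⟩
  · rw [← add_div, ← add_div, div_eq_one_iff_eq ho, hD]
    unfold orient
    ring
  · apply Complex.ext
    · simp only [Complex.add_re, Complex.smul_re, smul_eq_mul]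
      field_simp
      rw [hD]
      unfold orient
      ring
    · simp only [Complex.add_im, Complex.smul_im, smul_eq_mul]
      field_simp
      rw [hD]
      unfold orient
      ring

/-- A point of `Z` which is not extreme is an interior point of the hull. -/
theorem int_hull {Z : Finset ℂ} (hZ : GP Z) {v : ℂ} (hv : v ∈ Z)
    (h : v ∈ convexHull ℝ ((Z.erase v : Finset ℂ) : Set ℂ)) :
    ∀ᶠ x in 𝓝 v, x ∈ convexHull ℝ (Z : Set ℂ) := by
  classical
  have hseg : ∀ p ∈ Z.erase v, ∀ q ∈ Z.erase v, v ∉ segment ℝ p q := by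
    intro p hp q hq hs
    have hp' := Finset.mem_erase.1 hp
    have hq' := Finset.mem_erase.1 hq
    by_cases hpq : p = q
    · rw [hpq, segment_same] at hs
      exact hq'.1 (mem_singleton_iff.1 hs).symm
    · exact hZ.col p hp'.2 q hq'.2 v hv hpq hq'.1 hp'.1 (orient_of_segment hs)
  obtain ⟨T, hT, hc, hvT⟩ := exists_triple h hseg
  have hTZ : T ⊆ Z := hT.trans (Finset.erase_subset _ _)
  obtain ⟨p, q, r, hpq, hqr, hpr, hmem, ho, -⟩ := nc_triple (hZ.nc hTZ hc)
  have hp : p ∈ T := (hmem p).2 (by simp)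
  have hq : q ∈ T := (hmem q).2 (by simp)
  have hr : r ∈ T := (hmem r).2 (by simp)
  have hset := tri_set hmem
  rw [hset] at hvT
  have := inside_tri ho hvT (hseg p (hT hp) q (hT hq)) (hseg q (hT hq) r (hT hr))
    (hseg p (hT hp) r (hT hr))
  filter_upwards [this] with x hx
  rw [← hset] at hx
  exact convexHull_mono (by exact_mod_cast hTZ) hx

theorem ent_of_int {Z : Finset ℂ} {v : ℂ} (h : ∀ᶠ x in 𝓝 v, x ∈ convexHull ℝ (Z : Set ℂ))
    (d : ℂ) : Ent d v Z := by
  have hlim : Tendsto (fun ε : ℝ => v + ε • d) (𝓝[>] (0 : ℝ)) (𝓝 v) := by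
    have : Continuous fun ε : ℝ => v + ε • d := by fun_prop
    have h2 := this.tendsto 0
    rw [zero_smul, add_zero] at h2
    exact h2.mono_left nhdsWithin_le_nhds
  obtain ⟨ε, h1, h2⟩ := ((hlim.eventually h).and self_mem_nhdsWithin).exists
  exact ⟨ε, h2, h1⟩

/-- At an extreme point, `d` and `-d` do not both enter. -/
theorem not_both_of_extr {Z : Finset ℂ} {d v : ℂ} (hd : d ≠ 0) (hv : v ∈ Z)
    (hext : v ∉ convexHull ℝ ((Z.erase v : Finset ℂ) : Set ℂ)) :
    ¬ (Ent d v Z ∧ Ent (-d) v Z) := by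
  classical
  rintro ⟨⟨ε, hε, h1⟩, ε', hε', h2⟩
  obtain ⟨l, l0, l1, hl⟩ := Finset.mem_convexHull'.1 h1
  obtain ⟨m, m0, m1, hm⟩ := Finset.mem_convexHull'.1 h2
  have hs : 0 < ε + ε' := by linarith
  set n : ℂ → ℝ := fun y => (ε' * l y + ε * m y) / (ε + ε') with hn
  have n0 : ∀ y ∈ Z, 0 ≤ n y := by
    intro y hy
    simp only [hn]
    have := l0 y hy
    have := m0 y hy
    positivity
  have n1 : ∑ y ∈ Z, n y = 1 := by
    simp only [hn]
    rw [← Finset.sum_div, Finset.sum_add_distrib, ← Finset.mul_sum, ← Finset.mul_sum, l1, m1]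
    rw [div_eq_one_iff_eq hs.ne']
    ring
  have nv : ∑ y ∈ Z, n y • y = v := by
    have e1 : (ε + ε') • ∑ y ∈ Z, n y • y = (ε + ε') • v := by
      rw [Finset.smul_sum]
      have : ∀ y ∈ Z, (ε + ε') • n y • y = ε' • (l y • y) + ε • (m y • y) := by
        intro y _
        simp only [hn]
        rw [smul_smul, mul_div_cancel₀ _ hs.ne', add_smul, smul_smul, smul_smul]
      rw [Finset.sum_congr rfl this, Finset.sum_add_distrib, ← Finset.smul_sum, ← Finset.smul_sum,
        hl, hm]
      simp only [smul_add, smul_neg, smul_smul, add_smul, mul_comm ε' ε]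
      abel
    exact smul_right_injective ℂ hs.ne' e1
  have hnv : n v < 1 := by
    by_contra hc
    push Not at hc
    have h3 : ∀ y ∈ Z, y ≠ v → n y = 0 := by
      intro y hy hyv
      have h4 : ∑ x ∈ Z.erase v, n x ≤ 0 := by
        have := Finset.add_sum_erase Z n hv
        linarith
      have h5 := Finset.single_le_sum (f := n) (fun x hx => n0 x (Finset.mem_of_mem_erase hx))
        (Finset.mem_erase.2 ⟨hyv, hy⟩)
      exact le_antisymm (h5.trans h4) (n0 y hy)
    have h4 : ∀ y ∈ Z, y ≠ v → l y = 0 := by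
      intro y hy hyv
      have h5 := h3 y hy hyv
      simp only [hn, div_eq_zero_iff] at h5
      rcases h5 with h5 | h5
      · have := mul_nonneg hε'.le (l0 y hy)
        have := mul_nonneg hε.le (m0 y hy)
        have h6 : ε' * l y = 0 := by linarith
        exact (mul_eq_zero.1 h6).resolve_left hε'.ne'
      · exact absurd h5 hs.ne'
    have h5 : l v = 1 := by
      rw [← l1]; exact (Finset.sum_eq_single_of_mem v hv h4).symm
    have h6 : ∑ y ∈ Z, l y • y = v := by
      rw [Finset.sum_eq_single_of_mem v hv (fun y hy hyv => by rw [h4 y hy hyv, zero_smul]), h5,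
        one_smul]
    rw [h6] at hl
    have h8 : ε • d = 0 := by
      have := congrArg (fun z => z - v) hl
      simpa using this.symm
    rcases smul_eq_zero.1 h8 with h9 | h9
    · exact hε.ne' h9
    · exact hd h9
  apply hext
  rw [Finset.mem_convexHull']
  have h1v : 0 < 1 - n v := by linarith
  refine ⟨fun y => n y / (1 - n v), ?_, ?_, ?_⟩
  · intro y hy
    exact div_nonneg (n0 y (Finset.mem_of_mem_erase hy)) h1v.le
  · rw [← Finset.sum_div, div_eq_one_iff_eq h1v.ne']
    have := Finset.add_sum_erase Z n hv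
    linarith
  · have e1 : (1 - n v) • ∑ y ∈ Z.erase v, (n y / (1 - n v)) • y = (1 - n v) • v := by
      rw [Finset.smul_sum]
      have : ∀ y ∈ Z.erase v, (1 - n v) • (n y / (1 - n v)) • y = n y • y := by
        intro y _
        rw [smul_smul, mul_div_cancel₀ _ h1v.ne']
      rw [Finset.sum_congr rfl this]
      have h2 := Finset.add_sum_erase Z (fun y => n y • y) hv
      rw [nv] at h2
      rw [sub_smul, one_smul]
      exact eq_sub_of_add_eq' h2
    exact smul_right_injective ℂ h1v.ne' e1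

open Classical in
/-- The number of Delaunay triangles with a given vertex entered in the direction `d`. -/
theorem sum_ent {Z : Finset ℂ} (hZ : GP Z) {d v : ℂ} (hd : Gen Z d) (hv : v ∈ Z) :
    ∑ T ∈ Del Z, (if v ∈ T then (if Ent d v T then 1 else 0) else 0) =
      if Ent d v Z then 1 else 0 := by
  split_ifs with h
  · obtain ⟨T, hT, hvT, hE⟩ := ent_exists hZ hd hv h
    rw [Finset.sum_eq_single_of_mem T (mem_Del.2 hT)]
    · rw [if_pos hvT, if_pos hE]
    · intro T' hT' hne
      by_cases h1 : v ∈ T'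
      · rw [if_pos h1, if_neg]
        intro h2
        exact hne (ent_unique hZ (mem_Del.1 hT') hT hd h1 hvT h2 hE)
      · rw [if_neg h1]
  · apply Finset.sum_eq_zero
    intro T hT
    split_ifs with h1 h2
    · exact absurd (ent_mono (mem_Del.1 hT).1 h2) h
    · rfl
    · rfl

theorem count {Z : Finset ℂ} (hZ : GP Z) (hc : 2 ≤ Z.card) :
    (Del Z).card + (extr Z).card + 2 = 2 * Z.card := by
  classical
  obtain ⟨d, hd⟩ := exists_gen Z
  have hne : Z.Nonempty := Finset.card_pos.1 (by omega)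
  obtain ⟨a, ha, hamin⟩ := Finset.exists_min_image Z (cr d) hne
  obtain ⟨b, hb, hbmax⟩ := Finset.exists_max_image Z (cr d) hne
  have hinj : ∀ x ∈ Z, ∀ y ∈ Z, x ≠ y → cr d x ≠ cr d y := by
    intro x hx y hy hxy h
    exact hd.2 x hx y hy hxy (by rw [cr_sub_right, h, sub_self])
  have hab : a ≠ b := by
    rintro rfl
    obtain ⟨x, hx, y, hy, hxy⟩ := Finset.one_lt_card.1 (show 1 < Z.card by omega)
    have h1 := hamin x hx
    have h2 := hbmax x hx
    have h3 := hamin y hy
    have h4 := hbmax y hy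
    exact hinj x hx y hy hxy (by linarith)
  have hamin' : ∀ y ∈ Z, y ≠ a → cr d a < cr d y := fun y hy hya =>
    lt_of_le_of_ne (hamin y hy) (hinj a ha y hy hya.symm)
  have hbmax' : ∀ y ∈ Z, y ≠ b → cr d y < cr d b := fun y hy hyb =>
    lt_of_le_of_ne (hbmax y hy) (hinj y hy b hb hyb)
  -- extreme points of the linear functional
  have hext : ∀ (v : ℂ) (σ : ℝ), v ∈ Z → (∀ y ∈ Z, y ≠ v → 0 < σ * (cr d y - cr d v)) →
      v ∉ convexHull ℝ ((Z.erase v : Finset ℂ) : Set ℂ) ∧ ¬ Ent d v Z ∧ ¬ Ent (-d) v Z := by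
    intro v σ hv hσ
    refine ⟨?_, not_ent hd.1 hv σ hσ, ?_⟩
    · intro hmem
      obtain ⟨w, w0, w1, hw⟩ := Finset.mem_convexHull'.1 hmem
      have h2 := congrArg (cr d) hw
      rw [cr_sum] at h2
      have h3 : ∑ y ∈ Z.erase v, w y * (σ * (cr d y - cr d v)) = 0 := by
        have : ∑ y ∈ Z.erase v, w y * (σ * (cr d y - cr d v)) =
            σ * (∑ y ∈ Z.erase v, w y * cr d y - (∑ y ∈ Z.erase v, w y) * cr d v) := by
          rw [Finset.sum_mul, ← Finset.sum_sub_distrib, Finset.mul_sum]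
          exact Finset.sum_congr rfl fun y _ => by ring
        rw [this, w1, h2]
        ring
      have hpos : ∀ y ∈ Z.erase v, 0 < σ * (cr d y - cr d v) := fun y hy =>
        hσ y (Finset.mem_of_mem_erase hy) (Finset.ne_of_mem_erase hy)
      have h4 := (Finset.sum_eq_zero_iff_of_nonneg (fun y hy =>
        mul_nonneg (w0 y hy) (hpos y hy).le)).1 h3
      have h5 : ∑ y ∈ Z.erase v, w y = 0 := Finset.sum_eq_zero fun y hy =>
        (mul_eq_zero.1 (h4 y hy)).resolve_right (hpos y hy).ne'
      rw [h5] at w1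
      exact zero_ne_one w1
    · apply not_ent (neg_ne_zero.2 hd.1) hv (-σ)
      intro y hy hyv
      rw [cr_neg_left, cr_neg_left]
      have := hσ y hy hyv
      linarith
  have hA := hext a 1 ha (fun y hy hya => by rw [one_mul]; linarith [hamin' y hy hya])
  have hB := hext b (-1) hb (fun y hy hyb => by linarith [hbmax' y hy hyb])
  -- double counting
  have e1 : (Del Z).card = ∑ v ∈ Z, ((if Ent d v Z then 1 else 0) + if Ent (-d) v Z then 1 else 0) := by
    have h1 : (Del Z).card = ∑ T ∈ Del Z, ∑ v ∈ Z, ((if v ∈ T then (if Ent d v T then 1 else 0) else 0) +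
        (if v ∈ T then (if Ent (-d) v T then 1 else 0) else 0)) := by
      rw [Finset.card_eq_sum_ones]
      apply Finset.sum_congr rfl
      intro T hT
      have hT' := mem_Del.1 hT
      have h2 := ent_count (hZ.nc hT'.1 hT'.2.1) (hd.mono hT'.1)
      have h3 : ∑ v ∈ Z, ((if v ∈ T then (if Ent d v T then 1 else 0) else 0) +
          (if v ∈ T then (if Ent (-d) v T then 1 else 0) else 0)) =
          ∑ v ∈ T, ((if Ent d v T then 1 else 0) + if Ent (-d) v T then 1 else 0) := by
        rw [← Finset.sum_subset hT'.1]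
        · exact Finset.sum_congr rfl fun v hv => by rw [if_pos hv, if_pos hv]
        · intro v _ hv
          rw [if_neg hv, if_neg hv, add_zero]
      rw [h3, h2]
    rw [h1, Finset.sum_comm]
    apply Finset.sum_congr rfl
    intro v hv
    rw [Finset.sum_add_distrib, sum_ent hZ hd hv, sum_ent hZ hd.neg hv]
  have e2 : ∀ v ∈ Z, ((if Ent d v Z then 1 else 0) + if Ent (-d) v Z then 1 else 0) +
      (if v ∉ convexHull ℝ ((Z.erase v : Finset ℂ) : Set ℂ) then 1 else 0) +
      ((if v = a then 1 else 0) + (if v = b then 1 else 0)) = 2 := by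
    intro v hv
    by_cases hva : v = a
    · rw [hva, if_neg hA.2.1, if_neg hA.2.2, if_pos hA.1, if_pos rfl, if_neg hab]
    by_cases hvb : v = b
    · rw [hvb, if_neg hB.2.1, if_neg hB.2.2, if_pos hB.1, if_neg hab.symm, if_pos rfl]
    rw [if_neg hva, if_neg hvb]
    by_cases hx : v ∈ convexHull ℝ ((Z.erase v : Finset ℂ) : Set ℂ)
    · have hint := int_hull hZ hv hx
      rw [if_pos (ent_of_int hint d), if_pos (ent_of_int hint (-d)), if_neg (not_not.2 hx)]
    · rw [if_pos hx]
      have h1 := ent_between hd.1 ha hb (hamin' v hv hva) (hbmax' v hv hvb)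
        (hZ.col a ha b hb v hv hab (Ne.symm hvb) (Ne.symm hva))
      have h2 := not_both_of_extr hd.1 hv hx
      by_cases h3 : Ent d v Z
      · rw [if_pos h3, if_neg (fun h => h2 ⟨h3, h⟩)]
      · rw [if_neg h3, if_pos (h1.resolve_left h3)]
  have e3 : (extr Z).card = ∑ v ∈ Z, (if v ∉ convexHull ℝ ((Z.erase v : Finset ℂ) : Set ℂ) then 1 else 0) := by
    unfold extr
    rw [Finset.card_filter]
  have e4 : ∑ v ∈ Z, ((if v = a then 1 else 0) + (if v = b then 1 else 0)) = 2 := by
    rw [Finset.sum_add_distrib, Finset.sum_ite_eq' Z a, Finset.sum_ite_eq' Z b, if_pos ha, if_pos hb]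
  have e5 := Finset.sum_congr rfl e2
  rw [Finset.sum_add_distrib, Finset.sum_add_distrib, e4, ← e1, ← e3, Finset.sum_const,
    smul_eq_mul] at e5
  omega

end Pool.Agent.Lib.MP_b9d07b_gt
end

section
set_option autoImplicit false

/-!
# Edges of Delaunay triangles and of the convex hull
-/

open MeasureTheory Set Filter Topology
open scoped ENNReal

namespace Pool.Agent.Lib.MP_b9d07b_gt

theorem third {T : Finset ℂ} (hT : T.card = 3) {u v : ℂ} (hu : u ∈ T) (hv : v ∈ T) (huv : u ≠ v) :
    ∃ w : ℂ, w ∈ T ∧ w ≠ u ∧ w ≠ v ∧ (∀ x, x ∈ T ↔ x = u ∨ x = v ∨ x = w) ∧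
      ∀ {M : Type} [AddCommMonoid M] (f : ℂ → M), ∑ y ∈ T, f y = f u + f v + f w := by
  classical
  have h1 : ((T.erase u).erase v).card = 1 := by
    rw [Finset.card_erase_of_mem (Finset.mem_erase.2 ⟨huv.symm, hv⟩), Finset.card_erase_of_mem hu, hT]
  obtain ⟨w, hw⟩ := Finset.card_eq_one.1 h1
  have hw' : w ∈ (T.erase u).erase v := by rw [hw]; simp
  have h2 := Finset.mem_erase.1 hw'
  have h3 := Finset.mem_erase.1 h2.2
  have hT3 : T = {u, v, w} := by
    have e1 : T = insert u (T.erase u) := (Finset.insert_erase hu).symm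
    have e2 : T.erase u = insert v ((T.erase u).erase v) :=
      (Finset.insert_erase (Finset.mem_erase.2 ⟨huv.symm, hv⟩)).symm
    rw [e1, e2, hw]
  refine ⟨w, h3.2, h3.1, h2.1, ?_, ?_⟩
  · intro x; rw [hT3]; simp
  · intro M _ f
    rw [hT3, Finset.sum_insert (by simp [huv, h3.1.symm]), Finset.sum_insert (by simp [h2.1.symm]),
      Finset.sum_singleton, add_assoc]

theorem same_side {Z T T' : Finset ℂ} (hZ : GP Z) (hT : IsDel Z T) (hT' : IsDel Z T') {u v w w' : ℂ}
    (huv : u ≠ v) (hu : u ∈ T) (hv : v ∈ T) (hu' : u ∈ T') (hv' : v ∈ T') (hw : w ∈ T)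
    (hwu : w ≠ u) (hwv : w ≠ v) (hw' : w' ∈ T') (hwu' : w' ≠ u) (hwv' : w' ≠ v)
    (h : 0 < orient u v w * orient u v w') : T = T' := by
  classical
  obtain ⟨x, hx, hxu, hxv, hmem, hsum⟩ := third hT.2.1 hu hv huv
  have hxw : x = w := by
    rcases (hmem w).1 hw with h1 | h1 | h1
    · exact absurd h1 hwu
    · exact absurd h1 hwv
    · exact h1.symm
  subst hxw
  obtain ⟨x', hx', hxu', hxv', hmem', hsum'⟩ := third hT'.2.1 hu' hv' huv
  have hxw' : x' = w' := by
    rcases (hmem' w').1 hw' with h1 | h1 | h1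
    · exact absurd h1 hwu'
    · exact absurd h1 hwv'
    · exact h1.symm
  subst hxw'
  obtain ⟨c, hc1, hc⟩ := exists_coef (hZ.nc hT'.1 hT'.2.1) x
  rw [hsum'] at hc1 hc
  have ho : orient u v x = c x' * orient u v x' := by
    rw [← hc, orient_eq, orient_eq]
    have e1 : c u • u + c v • v + c x' • x' - u = c v • (v - u) + c x' • (x' - u) := by
      have : c u = 1 - c v - c x' := by linarith
      rw [this, sub_smul, sub_smul, one_smul, smul_sub, smul_sub]
      abel
    rw [e1, cr_add_right, cr_smul_right, cr_smul_right, cr_self, mul_zero, zero_add]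
  have hcpos : 0 < c x' := by
    rw [ho] at h
    by_contra hneg
    push Not at hneg
    nlinarith [mul_self_nonneg (orient u v x')]
  set ε : ℝ := 1 / (2 * (1 + |c u| + |c v|)) with hε
  have hden : 0 < 1 + |c u| + |c v| := by positivity
  have hε0 : 0 < ε := by positivity
  have hε1 : ε * (1 + |c u| + |c v|) = 1 / 2 := by rw [hε]; field_simp
  have hε2 : ε ≤ 1 / 2 := by nlinarith [abs_nonneg (c u), abs_nonneg (c v)]
  have hεu : 0 ≤ (1 - ε) / 2 + ε * c u := by
    have := neg_abs_le (c u)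
    nlinarith [abs_nonneg (c u), abs_nonneg (c v), mul_nonneg hε0.le (abs_nonneg (c v))]
  have hεv : 0 ≤ (1 - ε) / 2 + ε * c v := by
    have := neg_abs_le (c v)
    nlinarith [abs_nonneg (c u), abs_nonneg (c v), mul_nonneg hε0.le (abs_nonneg (c u))]
  have hin : x ∈ T' := by
    refine del_mem hT hT' (w := fun y => if y = x then ε else (1 - ε) / 2)
      (x := ((1 - ε) / 2) • u + ((1 - ε) / 2) • v + ε • x) ?_ ?_ ?_ ?_ hx (by simpa using hε0)
    · intro y _
      split_ifs
      · exact hε0.le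
      · linarith
    · rw [hsum]
      simp only [hxu.symm, hxv.symm, if_false, if_true]
      ring
    · rw [hsum]
      simp only [hxu.symm, hxv.symm, if_false, if_true]
    · rw [Finset.mem_convexHull']
      refine ⟨fun y => if y = x' then ε * c x' else if y = u then (1 - ε) / 2 + ε * c u else
        (1 - ε) / 2 + ε * c v, ?_, ?_, ?_⟩
      · intro y _
        simp only
        split_ifs
        · positivity
        · exact hεu
        · exact hεv
      · rw [hsum']
        simp only [hxu'.symm, hxv'.symm, huv.symm, if_false, if_true]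
        linear_combination ε * hc1
      · rw [hsum']
        simp only [hxu'.symm, hxv'.symm, huv.symm, if_false, if_true]
        conv_rhs => rw [← hc]
        simp only [add_smul, smul_add, smul_smul]
        abel
  rcases (hmem' x).1 hin with h1 | h1 | h1
  · exact absurd h1 hxu
  · exact absurd h1 hxv
  · ext y
    rw [hmem, hmem', h1]

open Classical in
/-- The Delaunay triangles with the edge `u v`. -/
noncomputable def DelE (Z : Finset ℂ) (u v : ℂ) : Finset (Finset ℂ) :=
  (Del Z).filter (fun T => u ∈ T ∧ v ∈ T)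

theorem mem_DelE {Z T : Finset ℂ} {u v : ℂ} : T ∈ DelE Z u v ↔ IsDel Z T ∧ u ∈ T ∧ v ∈ T := by
  classical
  unfold DelE
  rw [Finset.mem_filter, mem_Del]

theorem DelE_card_le {Z : Finset ℂ} (hZ : GP Z) {u v : ℂ} (huv : u ≠ v) :
    (DelE Z u v).card ≤ 2 := by
  classical
  -- the side on which the triangle lies
  have hw : ∀ T ∈ DelE Z u v, ∃ w ∈ T, w ≠ u ∧ w ≠ v := by
    intro T hT
    obtain ⟨h1, h2, h3⟩ := mem_DelE.1 hT
    obtain ⟨w, hw, hwu, hwv, -⟩ := third h1.2.1 h2 h3 huv
    exact ⟨w, hw, hwu, hwv⟩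
  choose! f hf1 hf2 hf3 using hw
  have hinj : Set.InjOn (fun T => decide (0 < orient u v (f T))) (DelE Z u v : Set (Finset ℂ)) := by
    intro T hT T' hT' heq
    have heq' : (0 < orient u v (f T)) ↔ (0 < orient u v (f T')) := by simpa using heq
    obtain ⟨h1, h2, h3⟩ := mem_DelE.1 hT
    obtain ⟨h1', h2', h3'⟩ := mem_DelE.1 hT'
    apply same_side hZ h1 h1' huv h2 h3 h2' h3' (hf1 T hT) (hf2 T hT) (hf3 T hT) (hf1 T' hT')
      (hf2 T' hT') (hf3 T' hT')
    have ho : orient u v (f T) ≠ 0 := hZ.col u (h1.1 h2) v (h1.1 h3) _ (h1.1 (hf1 T hT)) huv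
      (hf3 T hT).symm (hf2 T hT).symm
    have ho' : orient u v (f T') ≠ 0 := hZ.col u (h1.1 h2) v (h1.1 h3) _ (h1'.1 (hf1 T' hT')) huv
      (hf3 T' hT').symm (hf2 T' hT').symm
    rcases lt_or_gt_of_ne ho with h | h
    · have h' : orient u v (f T') < 0 := by
        rcases lt_or_gt_of_ne ho' with h' | h'
        · exact h'
        · exact absurd (heq'.2 h') (not_lt.2 h.le)
      exact mul_pos_of_neg_of_neg h h'
    · exact mul_pos h (heq'.1 h)
  have := Finset.card_le_card_of_injOn (t := (Finset.univ : Finset Bool)) _ (fun _ _ => Finset.mem_univ _) hinj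
  simpa using this

theorem other_side {Z T : Finset ℂ} (hZ : GP Z) (hT : IsDel Z T) {u v : ℂ} (huv : u ≠ v)
    (hu : u ∈ T) (hv : v ∈ T) (hint : ∀ᶠ x in 𝓝 u, x ∈ convexHull ℝ (Z : Set ℂ)) :
    ∃ T', IsDel Z T' ∧ u ∈ T' ∧ v ∈ T' ∧ T' ≠ T := by
  classical
  obtain ⟨w, hw, hwu, hwv, hmem, hsum⟩ := third hT.2.1 hu hv huv
  have ho : orient u v w ≠ 0 := hZ.col u (hT.1 hu) v (hT.1 hv) w (hT.1 hw) huv hwv.symm hwu.symm
  -- a direction to the other side
  obtain ⟨d, hd, hside⟩ : ∃ d, Gen Z d ∧ cr (v - u) d * orient u v w < 0 := by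
    obtain ⟨d, hd⟩ := exists_gen Z
    have h1 : cr (v - u) d ≠ 0 := by
      have := hd.2 u (hT.1 hu) v (hT.1 hv) huv
      rw [cr_comm] at this
      exact fun h => this (by rw [h, neg_zero])
    rcases lt_or_gt_of_ne (mul_ne_zero h1 ho) with h2 | h2
    · exact ⟨d, hd, h2⟩
    · exact ⟨-d, hd.neg, by rw [cr_neg_right]; linarith⟩
  set m : ℂ := (1 / 2 : ℝ) • u + (1 / 2 : ℝ) • v with hm
  have hconv := convex_convexHull ℝ (Z : Set ℂ)
  have hvZ : v ∈ convexHull ℝ (Z : Set ℂ) := subset_convexHull ℝ _ (hT.1 hv)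
  have huZ : u ∈ convexHull ℝ (Z : Set ℂ) := subset_convexHull ℝ _ (hT.1 hu)
  have hmZ : m ∈ convexHull ℝ (Z : Set ℂ) :=
    hconv huZ hvZ (by norm_num) (by norm_num) (by norm_num)
  obtain ⟨ε₀, hε₀, h1⟩ := ent_of_int hint d
  have h2 : m + (ε₀ / 2) • d ∈ convexHull ℝ (Z : Set ℂ) := by
    have := hconv h1 hvZ (a := 1 / 2) (b := 1 / 2) (by norm_num) (by norm_num) (by norm_num)
    convert! this using 1
    rw [hm, smul_add, smul_smul, one_div_mul_eq_div]
    abel
  obtain ⟨T', hT', h3, ε, hε, h4⟩ := dir_cover hZ hd hmZ (half_pos hε₀) h2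
  have hwt : ∀ z₀ ∈ T, z₀ ≠ w → z₀ ∈ T' := by
    intro z₀ hz hzw
    refine del_mem hT hT' (w := fun y => if y = w then 0 else 1 / 2) (x := m) ?_ ?_ ?_ h3 hz ?_
    · intro y _
      split_ifs <;> norm_num
    · rw [hsum]
      simp only [hwu.symm, hwv.symm, if_false, if_true]
      norm_num
    · rw [hsum]
      simp only [hwu.symm, hwv.symm, if_false, if_true, zero_smul, add_zero]
      rfl
    · simp [hzw]
  refine ⟨T', hT', hwt u hu hwu.symm, hwt v hv hwv.symm, ?_⟩
  rintro rfl
  obtain ⟨l, l0, l1, hl⟩ := Finset.mem_convexHull'.1 h4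
  rw [hsum] at l1 hl
  have e1 : orient u v (m + ε • d) = ε * cr (v - u) d := by
    rw [orient_eq]
    have : m + ε • d - u = (1 / 2 : ℝ) • (v - u) + ε • d := by
      rw [hm, smul_sub]
      have : u = (1 / 2 : ℝ) • u + (1 / 2 : ℝ) • u := by rw [← add_smul]; norm_num
      nth_rewrite 2 [this]
      abel
    rw [this, cr_add_right, cr_smul_right, cr_smul_right, cr_self, mul_zero, zero_add]
  have e2 : orient u v (m + ε • d) = l w * orient u v w := by
    rw [← hl, orient_eq, orient_eq]
    have e1 : l u • u + l v • v + l w • w - u = l v • (v - u) + l w • (w - u) := by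
      have : l u = 1 - l v - l w := by linarith
      rw [this, sub_smul, sub_smul, one_smul, smul_sub, smul_sub]
      abel
    rw [e1, cr_add_right, cr_smul_right, cr_smul_right, cr_self, mul_zero, zero_add]
  have e3 : l w * orient u v w * orient u v w = ε * (cr (v - u) d * orient u v w) := by
    rw [← e2, e1]; ring
  have e4 : 0 ≤ l w * orient u v w * orient u v w := by
    have := l0 w hw
    rw [mul_assoc]
    exact mul_nonneg this (mul_self_nonneg _)
  nlinarith

/-- `E` is an edge of the convex hull of `Z`. -/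
def IsHullEdge (Z E : Finset ℂ) : Prop :=
  E ⊆ Z ∧ E.card = 2 ∧ ∃ (n : ℂ) (c : ℝ), (∀ z ∈ E, n.re * z.re + n.im * z.im = c) ∧
    ∀ z ∈ Z, z ∉ E → n.re * z.re + n.im * z.im < c

open Classical in
/-- The set of the edges of the convex hull. -/
noncomputable def HE (Z : Finset ℂ) : Finset (Finset ℂ) := Z.powerset.filter (IsHullEdge Z)

theorem mem_HE {Z E : Finset ℂ} : E ∈ HE Z ↔ IsHullEdge Z E := by
  classical
  unfold HE
  rw [Finset.mem_filter, Finset.mem_powerset]
  exact ⟨fun h => h.2, fun h => ⟨h.1, h⟩⟩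

theorem hullEdge_extr {Z E : Finset ℂ} (hE : IsHullEdge Z E) {v : ℂ} (hv : v ∈ E) :
    v ∈ extr Z := by
  classical
  unfold extr
  rw [Finset.mem_filter]
  refine ⟨hE.1 hv, ?_⟩
  intro hmem
  obtain ⟨hEZ, hc, n, c, h1, h2⟩ := hE
  obtain ⟨w, w0, w1, hw⟩ := Finset.mem_convexHull'.1 hmem
  have hle : ∀ y ∈ Z, n.re * y.re + n.im * y.im ≤ c := by
    intro y hy
    by_cases hyE : y ∈ E
    · exact (h1 y hyE).le
    · exact (h2 y hy hyE).le
  have hre : ∑ y ∈ Z.erase v, w y * y.re = v.re := by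
    have := congrArg Complex.re hw
    rw [Complex.re_sum] at this
    simpa using this
  have him : ∑ y ∈ Z.erase v, w y * y.im = v.im := by
    have := congrArg Complex.im hw
    rw [Complex.im_sum] at this
    simpa using this
  have e1 : ∑ y ∈ Z.erase v, w y * (c - (n.re * y.re + n.im * y.im)) = 0 := by
    have : ∑ y ∈ Z.erase v, w y * (c - (n.re * y.re + n.im * y.im)) =
        c * ∑ y ∈ Z.erase v, w y - (n.re * ∑ y ∈ Z.erase v, w y * y.re +
          n.im * ∑ y ∈ Z.erase v, w y * y.im) := by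
      simp only [Finset.mul_sum, ← Finset.sum_add_distrib, ← Finset.sum_sub_distrib]
      exact Finset.sum_congr rfl fun y _ => by ring
    rw [this, w1, hre, him, h1 v hv]
    ring
  have e2 := (Finset.sum_eq_zero_iff_of_nonneg (fun y hy => mul_nonneg (w0 y hy)
    (sub_nonneg.2 (hle y (Finset.mem_of_mem_erase hy))))).1 e1
  -- the weights are carried by the other endpoint
  obtain ⟨z, hz⟩ : ∃ z, E.erase v = {z} :=
    Finset.card_eq_one.1 (by rw [Finset.card_erase_of_mem hv, hc])
  have hzE : z ∈ E.erase v := by rw [hz]; simp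
  have hzv : z ≠ v := Finset.ne_of_mem_erase hzE
  have e3 : ∀ y ∈ Z.erase v, y ≠ z → w y = 0 := by
    intro y hy hyz
    have hyE : y ∉ E := by
      intro h
      have : y ∈ E.erase v := Finset.mem_erase.2 ⟨Finset.ne_of_mem_erase hy, h⟩
      rw [hz] at this
      exact hyz (Finset.mem_singleton.1 this)
    have := h2 y (Finset.mem_of_mem_erase hy) hyE
    exact (mul_eq_zero.1 (e2 y hy)).resolve_right (by linarith)
  have hzZ : z ∈ Z.erase v := Finset.mem_erase.2 ⟨hzv, hEZ (Finset.mem_of_mem_erase hzE)⟩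
  have e4 : w z = 1 := by
    rw [← w1]; exact (Finset.sum_eq_single_of_mem z hzZ e3).symm
  rw [Finset.sum_eq_single_of_mem z hzZ (fun y hy hyz => by rw [e3 y hy hyz, zero_smul]), e4,
    one_smul] at hw
  exact hzv hw

theorem hullEdge_sign {Z : Finset ℂ} {v p q r : ℂ} (h : IsHullEdge Z {v, p}) (hp : p ≠ v)
    (hq : q ∈ Z) (hr : r ∈ Z) (hqv : q ≠ v) (hqp : q ≠ p) (hrv : r ≠ v) (hrp : r ≠ p) :
    0 < cr (p - v) (q - v) * cr (p - v) (r - v) := by
  obtain ⟨hEZ, hc, n, c, h1, h2⟩ := h
  have hv := h1 v (by simp)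
  have hp' := h1 p (by simp)
  have hq' := h2 q hq (by simp [hqv, hqp])
  have hr' := h2 r hr (by simp [hrv, hrp])
  -- `n` is orthogonal to `p - v`
  have hpv : p - v ≠ 0 := sub_ne_zero.2 hp
  have hN : Complex.normSq (p - v) ≠ 0 := (Complex.normSq_pos.2 hpv).ne'
  set P := p - v with hP
  have hnP : n.re * P.re + n.im * P.im = 0 := by
    rw [hP, Complex.sub_re, Complex.sub_im]; linarith
  set lam := (n.im * P.re - n.re * P.im) / Complex.normSq P with hlam
  have hx : ∀ x : ℂ, n.re * x.re + n.im * x.im = lam * cr P x := by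
    intro x
    rw [hlam, div_mul_eq_mul_div, eq_div_iff hN, Complex.normSq_apply]
    unfold cr
    linear_combination (x.re * P.re + x.im * P.im) * hnP
  have h3 := hx (q - v)
  have h4 := hx (r - v)
  have h5 : lam * cr P (q - v) < 0 := by
    rw [← h3, Complex.sub_re, Complex.sub_im]; linarith
  have h6 : lam * cr P (r - v) < 0 := by
    rw [← h4, Complex.sub_re, Complex.sub_im]; linarith
  have h7 : 0 < lam ^ 2 * (cr P (q - v) * cr P (r - v)) := by
    have := mul_pos_of_neg_of_neg h5 h6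
    calc (0 : ℝ) < _ := this
      _ = _ := by ring
  by_contra hneg
  push Not at hneg
  nlinarith [sq_nonneg lam]

open Classical in
theorem HE_at_vertex (Z : Finset ℂ) (v : ℂ) : ((HE Z).filter (fun E => v ∈ E)).card ≤ 2 := by
  by_contra hlt
  push Not at hlt
  obtain ⟨E1, E2, E3, h1, h2, h3, h12, h13, h23⟩ := Finset.two_lt_card_iff.1 hlt
  rw [Finset.mem_filter, mem_HE] at h1 h2 h3
  have hother : ∀ E : Finset ℂ, IsHullEdge Z E ∧ v ∈ E → ∃ p, p ∈ Z ∧ p ≠ v ∧ E = {v, p} := by
    rintro E ⟨hE, hv⟩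
    obtain ⟨z, hz⟩ : ∃ z, E.erase v = {z} :=
      Finset.card_eq_one.1 (by rw [Finset.card_erase_of_mem hv, hE.2.1])
    have hzE : z ∈ E.erase v := by rw [hz]; simp
    refine ⟨z, hE.1 (Finset.mem_of_mem_erase hzE), Finset.ne_of_mem_erase hzE, ?_⟩
    rw [← Finset.insert_erase hv, hz]
  obtain ⟨p, hp, hpv, e1⟩ := hother E1 h1
  obtain ⟨q, hq, hqv, e2⟩ := hother E2 h2
  obtain ⟨r, hr, hrv, e3⟩ := hother E3 h3
  subst e1 e2 e3
  have hpq : p ≠ q := fun h => h12 (by rw [h])
  have hpr : p ≠ r := fun h => h13 (by rw [h])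
  have hqr : q ≠ r := fun h => h23 (by rw [h])
  have s1 := hullEdge_sign h1.1 hpv hq hr hqv hpq.symm hrv hpr.symm
  have s2 := hullEdge_sign h2.1 hqv hp hr hpv hpq hrv hqr.symm
  have s3 := hullEdge_sign h3.1 hrv hp hq hpv hpr hqv hqr
  have c1 := cr_comm (q - v) (p - v)
  have c2 := cr_comm (r - v) (p - v)
  have c3 := cr_comm (r - v) (q - v)
  rw [c1] at s2
  rw [c2, c3] at s3
  have h4 := mul_pos (mul_pos s1 s2) s3
  set a := cr (p - v) (q - v)
  set b := cr (p - v) (r - v)
  set c := cr (q - v) (r - v)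
  have : a * b * (-a * c) * (-b * -c) = -(a * b * c) ^ 2 := by ring
  rw [this] at h4
  linarith [sq_nonneg (a * b * c)]

/-- There are at most as many edges as extreme points. -/
theorem HE_card_le (Z : Finset ℂ) : (HE Z).card ≤ (extr Z).card := by
  classical
  have h1 : ∑ E ∈ HE Z, E.card = 2 * (HE Z).card := by
    rw [Finset.sum_const_nat (m := 2) (fun E hE => (mem_HE.1 hE).2.1), mul_comm]
  have h2 : ∑ E ∈ HE Z, E.card = ∑ v ∈ extr Z, ((HE Z).filter (fun E => v ∈ E)).card := by
    have e1 : ∀ E ∈ HE Z, E.card = ∑ v ∈ extr Z, if v ∈ E then 1 else 0 := by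
      intro E hE
      rw [← Finset.sum_filter, Finset.sum_const, smul_eq_mul, mul_one]
      congr 1
      ext v
      rw [Finset.mem_filter]
      exact ⟨fun h => ⟨hullEdge_extr (mem_HE.1 hE) h, h⟩, fun h => h.2⟩
    rw [Finset.sum_congr rfl e1, Finset.sum_comm]
    apply Finset.sum_congr rfl
    intro v _
    rw [Finset.card_filter]
  have h3 : ∑ v ∈ extr Z, ((HE Z).filter (fun E => v ∈ E)).card ≤ ∑ _v ∈ extr Z, 2 :=
    Finset.sum_le_sum fun v _ => HE_at_vertex Z v
  rw [Finset.sum_const, smul_eq_mul, ← h2, h1] at h3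
  omega

end Pool.Agent.Lib.MP_b9d07b_gt
end

section
set_option autoImplicit false

/-!
# The angles of the Delaunay triangles around an interior point
-/

open MeasureTheory Set Filter Topology Real
open scoped ENNReal

namespace Pool.Agent.Lib.MP_b9d07b_gt

theorem cr_mul (κ a b : ℂ) : cr (κ * a) (κ * b) = Complex.normSq κ * cr a b := by
  simp only [cr, Complex.mul_re, Complex.mul_im, Complex.normSq_apply]
  ring

theorem model_sector {A r : ℝ} (hA : 0 < A) (hAπ : A < π) (hr : 0 < r) :
    volume {y : ℂ | 0 ≤ y.im ∧ 0 ≤ y.re * sin A - y.im * cos A ∧ ‖y‖ ≤ r} =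
      ENNReal.ofReal (A * (r ^ 2 / 2)) := by
  set E : Set ℂ := {y : ℂ | 0 ≤ y.im ∧ 0 ≤ y.re * sin A - y.im * cos A ∧ ‖y‖ ≤ r} with hE
  have hmeas : MeasurableSet E := by
    have h1 : IsClosed {y : ℂ | 0 ≤ y.im} := isClosed_le continuous_const Complex.continuous_im
    have h2 : IsClosed {y : ℂ | 0 ≤ y.re * sin A - y.im * cos A} :=
      isClosed_le continuous_const (by fun_prop)
    have h3 : IsClosed {y : ℂ | ‖y‖ ≤ r} := isClosed_le continuous_norm continuous_const
    have : E = {y : ℂ | 0 ≤ y.im} ∩ ({y : ℂ | 0 ≤ y.re * sin A - y.im * cos A} ∩ {y : ℂ | ‖y‖ ≤ r}) := by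
      rw [hE]; ext y; simp
    rw [this]
    exact (h1.inter (h2.inter h3)).measurableSet
  have h := polar_lintegral (R := fun _ => r) hmeas (F := fun _ => 1) measurable_const hA hAπ ?_
  · rw [lintegral_one, Measure.restrict_apply_univ] at h
    rw [h]
    have e1 : ∫⁻ ρ in Ioc 0 r, ENNReal.ofReal ρ * 1 = ENNReal.ofReal (r ^ 2 / 2) := by
      simp_rw [mul_one]
      rw [← ofReal_integral_eq_lintegral_ofReal]
      · rw [← intervalIntegral.integral_of_le hr.le, integral_id]
        congr 1; ring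
      · have := (continuous_id (X := ℝ)).intervalIntegrable (μ := volume) 0 r
        rwa [intervalIntegrable_iff_integrableOn_Ioc_of_le hr.le] at this
      · rw [Filter.EventuallyLE, ae_restrict_iff' measurableSet_Ioc]
        filter_upwards with ρ hρ
        exact hρ.1.le
    rw [setLIntegral_congr_fun (g := fun _ => ENNReal.ofReal (r ^ 2 / 2)) measurableSet_Ioo
      (fun θ _ => e1), setLIntegral_const, Real.volume_Ioo, sub_zero,
      ENNReal.ofReal_mul hA.le, mul_comm]
  · intro ρ θ hρ h1 h2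
    have hn : ‖pol ρ θ‖ = ρ := by
      have h3 : ‖pol ρ θ‖ ^ 2 = ρ ^ 2 := by
        rw [← Complex.normSq_eq_norm_sq, pol, Complex.normSq_mk]
        linear_combination ρ ^ 2 * (Real.sin_sq_add_cos_sq θ)
      exact (pow_left_inj₀ (norm_nonneg _) hρ.le (by norm_num)).1 h3
    show (0 ≤ (pol ρ θ).im ∧ 0 ≤ (pol ρ θ).re * sin A - (pol ρ θ).im * cos A ∧ ‖pol ρ θ‖ ≤ r) ↔ _
    rw [hn]
    have e1 : (pol ρ θ).re * sin A - (pol ρ θ).im * cos A = ρ * sin (A - θ) := by
      rw [Real.sin_sub]; simp only [pol]; ring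
    rw [e1]
    simp only [pol]
    constructor
    · rintro ⟨h3, h4, h5⟩
      refine ⟨⟨?_, ?_⟩, h5⟩
      · by_contra hneg
        push Not at hneg
        have := Real.sin_neg_of_neg_of_neg_pi_lt hneg h1
        nlinarith
      · by_contra hneg
        push Not at hneg
        have := Real.sin_neg_of_neg_of_neg_pi_lt (x := A - θ) (by linarith) (by linarith)
        nlinarith
    · rintro ⟨⟨h3, h4⟩, h5⟩
      exact ⟨mul_nonneg hρ.le (Real.sin_nonneg_of_nonneg_of_le_pi h3 h2.le),
        mul_nonneg hρ.le (Real.sin_nonneg_of_nonneg_of_le_pi (by linarith) (by linarith)), h5⟩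

theorem angle_arg {u p q : ℂ} (ho : 0 < orient u p q) :
    EuclideanGeometry.angle p u q = ((q - u) / (p - u)).arg ∧
      0 < EuclideanGeometry.angle p u q ∧ EuclideanGeometry.angle p u q < π := by
  have hpu : p - u ≠ 0 := by
    intro h0
    have : p = u := sub_eq_zero.1 h0
    rw [this] at ho
    simp [orient] at ho
  have hqu : q - u ≠ 0 := by
    intro h0
    have : q = u := sub_eq_zero.1 h0
    rw [this] at ho
    simp [orient] at ho
  have him : 0 < ((q - u) / (p - u)).im := by
    have : ((q - u) / (p - u)).im = orient u p q / Complex.normSq (p - u) := by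
      rw [Complex.div_im]
      simp only [Complex.sub_re, Complex.sub_im, orient]
      ring
    rw [this]
    exact div_pos ho (Complex.normSq_pos.2 hpu)
  have h1 : EuclideanGeometry.angle p u q = ((q - u) / (p - u)).arg := by
    have h1 : EuclideanGeometry.angle p u q = InnerProductGeometry.angle (q - u) (p - u) := by
      rw [EuclideanGeometry.angle_comm]; rfl
    rw [h1, Complex.angle_eq_abs_arg hqu hpu, abs_of_nonneg]
    exact Complex.arg_nonneg_iff.2 him.le
  refine ⟨h1, ?_, ?_⟩
  · rw [h1]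
    rcases (Complex.arg_nonneg_iff.2 him.le).lt_or_eq with h | h
    · exact h
    · exfalso
      have := Complex.arg_eq_zero_iff.1 h.symm
      linarith [this.2]
  · rw [h1]
    exact Complex.arg_lt_pi_iff.2 (Or.inr him.ne')

theorem sector_area {u p q : ℂ} (ho : 0 < orient u p q) {r : ℝ} (hr : 0 < r) :
    volume {x : ℂ | 0 ≤ cr (p - u) (x - u) ∧ 0 ≤ cr (x - u) (q - u) ∧ ‖x - u‖ ≤ r} =
      ENNReal.ofReal (EuclideanGeometry.angle p u q * (r ^ 2 / 2)) := by
  obtain ⟨harg, hA0, hAπ⟩ := angle_arg ho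
  set A := EuclideanGeometry.angle p u q with hA
  have hpu : p - u ≠ 0 := by
    intro h0
    have : p = u := sub_eq_zero.1 h0
    rw [this] at ho
    simp [orient] at ho
  have hqu : q - u ≠ 0 := by
    intro h0
    have : q = u := sub_eq_zero.1 h0
    rw [this] at ho
    simp [orient] at ho
  have hnp : 0 < ‖p - u‖ := norm_pos_iff.2 hpu
  have hnq : 0 < ‖q - u‖ := norm_pos_iff.2 hqu
  set κ : ℂ := (p - u) / (‖p - u‖ : ℝ) with hκ
  have hnp' : ((‖p - u‖ : ℝ) : ℂ) ≠ 0 := by exact_mod_cast hnp.ne'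
  have hκp : p - u = (‖p - u‖ : ℝ) * κ := by rw [hκ, mul_div_cancel₀ _ hnp']
  have hκn : ‖κ‖ = 1 := by
    rw [hκ, norm_div, Complex.norm_real, Real.norm_eq_abs, abs_of_pos hnp, div_self hnp.ne']
  have hκ0 : κ ≠ 0 := by
    intro h; rw [h, norm_zero] at hκn; exact zero_ne_one hκn
  have hκN : Complex.normSq κ = 1 := by rw [Complex.normSq_eq_norm_sq, hκn]; norm_num
  have hκq : q - u = (‖q - u‖ : ℝ) * (κ * pol 1 A) := by
    have h1 := Complex.norm_mul_cos_add_sin_mul_I ((q - u) / (p - u))
    rw [← harg] at h1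
    have h2 : pol 1 A = Complex.cos A + Complex.sin A * Complex.I := by
      apply Complex.ext <;>
        simp [pol, ← Complex.ofReal_cos, ← Complex.ofReal_sin]
    rw [h2]
    have h3 : q - u = (p - u) * ((q - u) / (p - u)) := by rw [mul_div_cancel₀ _ hpu]
    conv_lhs => rw [h3, ← h1, norm_div]
    rw [hκ]
    push_cast
    field_simp
  have himg : {x : ℂ | 0 ≤ cr (p - u) (x - u) ∧ 0 ≤ cr (x - u) (q - u) ∧ ‖x - u‖ ≤ r} =
      (fun y => u + κ * y) '' {y : ℂ | 0 ≤ y.im ∧ 0 ≤ y.re * sin A - y.im * cos A ∧ ‖y‖ ≤ r} := by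
    have key : ∀ y : ℂ, (0 ≤ cr (p - u) (u + κ * y - u) ∧ 0 ≤ cr (u + κ * y - u) (q - u) ∧
        ‖u + κ * y - u‖ ≤ r) ↔ (0 ≤ y.im ∧ 0 ≤ y.re * sin A - y.im * cos A ∧ ‖y‖ ≤ r) := by
      intro y
      have e0 : u + κ * y - u = κ * y := by ring
      have e1 : cr (p - u) (κ * y) = ‖p - u‖ * y.im := by
        have h5 : cr (p - u) (κ * y) = cr (κ * ((‖p - u‖ : ℝ) : ℂ)) (κ * y) := by
          congr 1; rw [mul_comm]; exact hκp
        rw [h5, cr_mul, hκN]
        simp [cr]
      have e2 : cr (κ * y) (q - u) = ‖q - u‖ * (y.re * sin A - y.im * cos A) := by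
        have h5 : cr (κ * y) (q - u) = cr (κ * y) (κ * ((‖q - u‖ : ℝ) * pol 1 A)) := by
          congr 1
          have h6 : κ * (((‖q - u‖ : ℝ) : ℂ) * pol 1 A) = ((‖q - u‖ : ℝ) : ℂ) * (κ * pol 1 A) := by
            ring
          rw [h6]
          exact hκq
        rw [h5, cr_mul, hκN]
        simp [cr, pol]
        ring
      rw [e0, e1, e2, norm_mul, hκn, one_mul, mul_nonneg_iff_of_pos_left hnp,
        mul_nonneg_iff_of_pos_left hnq]
    ext x
    constructor
    · intro hx
      refine ⟨(x - u) / κ, ?_, ?_⟩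
      · have h1 : u + κ * ((x - u) / κ) = x := by rw [mul_div_cancel₀ _ hκ0]; ring
        have h2 := (key ((x - u) / κ)).1
        rw [h1] at h2
        exact h2 hx
      · show u + κ * ((x - u) / κ) = x
        rw [mul_div_cancel₀ _ hκ0]; ring
    · rintro ⟨y, hy, rfl⟩
      exact (key y).2 hy
  have hmeas : MeasurableSet {y : ℂ | 0 ≤ y.im ∧ 0 ≤ y.re * sin A - y.im * cos A ∧ ‖y‖ ≤ r} := by
    have h1 : IsClosed {y : ℂ | 0 ≤ y.im} := isClosed_le continuous_const Complex.continuous_im
    have h2 : IsClosed {y : ℂ | 0 ≤ y.re * sin A - y.im * cos A} :=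
      isClosed_le continuous_const (by fun_prop)
    have h3 : IsClosed {y : ℂ | ‖y‖ ≤ r} := isClosed_le continuous_norm continuous_const
    exact (h1.inter (h2.inter h3)).measurableSet
  have h := lintegral_affine hκ0 u hmeas (fun _ => 1)
  rw [lintegral_one, Measure.restrict_apply_univ, lintegral_one, Measure.restrict_apply_univ,
    hκN, ENNReal.ofReal_one, one_mul] at h
  rw [himg, h, model_sector hA0 hAπ hr]

/-- The angle of the triangle `T` at the vertex `u`. -/
noncomputable def angT (T : Finset ℂ) (u : ℂ) : ℝ :=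
  (1 / 2) * ∑ p ∈ T.erase u, ∑ q ∈ T.erase u, EuclideanGeometry.angle p u q

theorem angT_eq {T : Finset ℂ} {u p q : ℂ} (hup : u ≠ p) (huq : u ≠ q) (hpq : p ≠ q)
    (hT : ∀ x, x ∈ T ↔ x = u ∨ x = p ∨ x = q) : angT T u = EuclideanGeometry.angle p u q := by
  have : T.erase u = {p, q} := by
    ext x
    rw [Finset.mem_erase, hT, Finset.mem_insert, Finset.mem_singleton]
    constructor
    · rintro ⟨h1, h2 | h2⟩
      · exact absurd h2 h1
      · exact h2
    · rintro (rfl | rfl)
      · exact ⟨hup.symm, Or.inr (Or.inl rfl)⟩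
      · exact ⟨huq.symm, Or.inr (Or.inr rfl)⟩
  unfold angT
  rw [this]
  rw [Finset.sum_pair hpq, Finset.sum_pair hpq, Finset.sum_pair hpq,
    EuclideanGeometry.angle_self_of_ne hup.symm, EuclideanGeometry.angle_self_of_ne huq.symm,
    EuclideanGeometry.angle_comm q u p]
  ring

theorem hull_ball_le {T : Finset ℂ} (hT : NC T) {u : ℂ} (hu : u ∈ T) {r : ℝ} (hr : 0 < r) :
    volume (convexHull ℝ (T : Set ℂ) ∩ Metric.closedBall u r) ≤
      ENNReal.ofReal (angT T u * (r ^ 2 / 2)) := by
  classical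
  -- write `T = {u, p, q}` with positive orientation
  obtain ⟨p, q, hup, huq, hpq, hmem, ho⟩ : ∃ p q : ℂ, u ≠ p ∧ u ≠ q ∧ p ≠ q ∧
      (∀ x, x ∈ T ↔ x = u ∨ x = p ∨ x = q) ∧ 0 < orient u p q := by
    obtain ⟨x, hx⟩ : ∃ x, x ∈ T.erase u := by
      apply Finset.card_pos.1
      rw [Finset.card_erase_of_mem hu, hT.1]; norm_num
    obtain ⟨hxu, hxT⟩ := Finset.mem_erase.1 hx
    obtain ⟨y, hy, hyu, hyx, hmem, -⟩ := third hT.1 hu hxT hxu.symm
    have ho := hT.2 u hu x hxT y hy hxu.symm hyx.symm hyu.symm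
    rcases lt_or_gt_of_ne ho with h | h
    · exact ⟨y, x, hyu.symm, hxu.symm, hyx, fun z => by rw [hmem]; tauto, by
        unfold orient at h ⊢; linarith⟩
    · exact ⟨x, y, hxu.symm, hyu.symm, hyx.symm, hmem, h⟩
  rw [angT_eq hup huq hpq hmem, ← sector_area ho hr]
  apply measure_mono
  rintro x ⟨hx, hxr⟩
  rw [tri_set hmem, mem_tri] at hx
  obtain ⟨a, b, c, ha, hb, hc, hs, rfl⟩ := hx
  rw [Metric.mem_closedBall, dist_eq_norm] at hxr
  have e1 : a • u + b • p + c • q - u = b • (p - u) + c • (q - u) := by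
    have : a = 1 - b - c := by linarith
    rw [this, sub_smul, sub_smul, one_smul, smul_sub, smul_sub]
    abel
  refine ⟨?_, ?_, hxr⟩
  · rw [e1, cr_add_right, cr_smul_right, cr_smul_right, cr_self, mul_zero, zero_add, ← orient_eq]
    exact mul_nonneg hc ho.le
  · rw [e1, cr_comm, cr_add_right, cr_smul_right, cr_smul_right, cr_self, mul_zero, add_zero,
      cr_comm, ← orient_eq]
    have := mul_nonneg hb ho.le
    linarith

theorem ae_not_segment (Z : Finset ℂ) :
    ∀ᵐ x : ℂ, ∀ p ∈ Z, ∀ q ∈ Z, x ∉ segment ℝ p q := by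
  have hseg : ∀ p q : ℂ, volume (segment ℝ p q) = 0 := by
    intro p q
    have h1 : (segment ℝ p q) ⊆ (affineSpan ℝ ({p, q} : Set ℂ) : Set ℂ) := by
      rw [← convexHull_pair]
      exact convexHull_subset_affineSpan _
    apply measure_mono_null h1
    apply Measure.addHaar_affineSubspace
    intro htop
    have h2 : vectorSpan ℝ ({p, q} : Set ℂ) = ⊤ := by
      rw [← direction_affineSpan, htop, AffineSubspace.direction_top]
    have h3 := collinear_iff_finrank_le_one.1 (collinear_pair ℝ p q)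
    rw [h2, finrank_top, Complex.finrank_real_complex] at h3
    omega
  rw [Finset.eventually_all]
  intro p _
  rw [Finset.eventually_all]
  intro q _
  exact measure_eq_zero_iff_ae_notMem.1 (hseg p q)

theorem angT_nonneg (T : Finset ℂ) (u : ℂ) : 0 ≤ angT T u := by
  unfold angT
  have : 0 ≤ ∑ p ∈ T.erase u, ∑ q ∈ T.erase u, EuclideanGeometry.angle p u q :=
    Finset.sum_nonneg fun p _ => Finset.sum_nonneg fun q _ => EuclideanGeometry.angle_nonneg _ _ _
  positivity

/-- The angles of the Delaunay triangles around an interior point add up to at least `2π`. -/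
theorem angle_sum {Z : Finset ℂ} (hZ : GP Z) {u : ℂ} (hu : u ∈ Z)
    (hint : ∀ᶠ x in 𝓝 u, x ∈ convexHull ℝ (Z : Set ℂ)) :
    2 * π ≤ ∑ T ∈ (Del Z).filter (fun T => u ∈ T), angT T u := by
  classical
  have h1 : ∀ᶠ x in 𝓝 u, ∀ T ∈ Del Z, u ∉ convexHull ℝ (T : Set ℂ) →
      x ∉ convexHull ℝ (T : Set ℂ) := by
    rw [Finset.eventually_all]
    intro T _
    by_cases h : u ∈ convexHull ℝ (T : Set ℂ)
    · exact Eventually.of_forall fun x hx => absurd h hx
    · have := (isClosed_hull T).isOpen_compl.mem_nhds h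
      filter_upwards [this] with x hx _
      exact hx
  obtain ⟨r, hr, hball⟩ := Metric.nhds_basis_closedBall.mem_iff.1 (hint.and h1)
  have hball1 : ∀ x ∈ Metric.closedBall u r, x ∈ convexHull ℝ (Z : Set ℂ) := fun x hx => (hball hx).1
  have hball2 : ∀ x ∈ Metric.closedBall u r, ∀ T ∈ Del Z, x ∈ convexHull ℝ (T : Set ℂ) →
      u ∈ T := by
    intro x hx T hT hxT
    by_cases h : u ∈ convexHull ℝ (T : Set ℂ)
    · exact del_vertex (mem_Del.1 hT) hu h
    · exact absurd hxT ((hball hx).2 T hT h)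
  set D := (Del Z).filter (fun T => u ∈ T) with hD
  have h2 : volume (Metric.closedBall u r) ≤
      volume (⋃ T ∈ D, (convexHull ℝ (T : Set ℂ) ∩ Metric.closedBall u r)) := by
    apply measure_mono_ae
    filter_upwards [ae_not_segment Z] with x hx hxr
    obtain ⟨T, hT, hxT⟩ := cover hZ (hball1 x hxr) hx
    have hT' := mem_Del.2 hT
    refine mem_biUnion (show T ∈ D from ?_) ⟨hxT, hxr⟩
    rw [hD, Finset.mem_filter]
    exact ⟨hT', hball2 x hxr T hT' hxT⟩
  have h3 : volume (⋃ T ∈ D, (convexHull ℝ (T : Set ℂ) ∩ Metric.closedBall u r)) ≤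
      ∑ T ∈ D, volume (convexHull ℝ (T : Set ℂ) ∩ Metric.closedBall u r) :=
    measure_biUnion_finset_le _ _
  have h4 : ∑ T ∈ D, volume (convexHull ℝ (T : Set ℂ) ∩ Metric.closedBall u r) ≤
      ∑ T ∈ D, ENNReal.ofReal (angT T u * (r ^ 2 / 2)) := by
    apply Finset.sum_le_sum
    intro T hT
    rw [hD, Finset.mem_filter] at hT
    have hT' := mem_Del.1 hT.1
    exact hull_ball_le (hZ.nc hT'.1 hT'.2.1) hT.2 hr
  have h5 := (h2.trans h3).trans h4
  rw [← ENNReal.ofReal_sum_of_nonneg (fun T _ => mul_nonneg (angT_nonneg T u) (by positivity)),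
    ← Finset.sum_mul] at h5
  have h6 : volume (Metric.closedBall u r) = ENNReal.ofReal (π * r ^ 2) := by
    rw [Complex.volume_closedBall]
    rw [ENNReal.ofReal_mul Real.pi_pos.le, ENNReal.ofReal_pow hr.le, mul_comm]
    congr 1
    rw [← NNReal.coe_real_pi, ENNReal.ofReal_coe_nnreal]
  rw [h6] at h5
  have h7 : 0 ≤ (∑ T ∈ D, angT T u) * (r ^ 2 / 2) :=
    mul_nonneg (Finset.sum_nonneg fun T _ => angT_nonneg T u) (by positivity)
  have h8 := (ENNReal.ofReal_le_ofReal_iff h7).1 h5
  have h9 : 0 < r ^ 2 / 2 := by positivity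
  have h10 : 2 * π * (r ^ 2 / 2) ≤ (∑ T ∈ D, angT T u) * (r ^ 2 / 2) := by linarith
  exact le_of_mul_le_mul_right h10 h9

end Pool.Agent.Lib.MP_b9d07b_gt
end

section
set_option autoImplicit false

/-!
# The volume in the Klein model, integrated along the lines through the north pole
-/

open MeasureTheory Set Filter Topology Real
open scoped ENNReal RealInnerProductSpace

namespace Pool.Agent.Lib.MP_b9d07b_gt

/-- The point of Euclidean 3-space with coordinates `(z, t)`. -/
noncomputable def mk3 (p : ℂ × ℝ) : E3 := !₂[p.1.re, p.1.im, p.2]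

theorem mk3_measurePreserving : MeasurePreserving mk3 (volume.prod volume) volume := by
  have h1 : MeasurePreserving (Prod.map Complex.measurableEquivPi (id : ℝ → ℝ))
      (volume.prod volume) (volume.prod volume) :=
    Complex.volume_preserving_equiv_pi.prod (MeasurePreserving.id _)
  have h2 : MeasurePreserving (Prod.swap : (Fin 2 → ℝ) × ℝ → ℝ × (Fin 2 → ℝ))
      (volume.prod volume) (volume.prod volume) := Measure.measurePreserving_swap
  have h3 : MeasurePreserving (MeasurableEquiv.piFinSuccAbove (fun _ : Fin 3 => ℝ) 2).symm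
      (volume.prod volume) volume :=
    (volume_preserving_piFinSuccAbove (fun _ : Fin 3 => ℝ) 2).symm _
  have h4 := PiLp.volume_preserving_toLp (Fin 3)
  have h := h4.comp (h3.comp (h2.comp h1))
  convert! h using 1
  funext p
  ext i
  fin_cases i <;> rfl

theorem measurable_mk3 : Measurable mk3 := mk3_measurePreserving.measurable

/-- The point of the line through the north pole and `(x, 0)` at height `t`. -/
noncomputable def pt (x : ℂ) (t : ℝ) : E3 := mk3 (((1 - t : ℝ) : ℂ) * x, t)

theorem norm_mk3 (p : ℂ × ℝ) : ‖mk3 p‖ ^ 2 = Complex.normSq p.1 + p.2 ^ 2 := by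
  rw [EuclideanSpace.norm_sq_eq, Fin.sum_univ_three]
  simp [mk3, Complex.normSq_apply]
  ring

theorem norm_pt (x : ℂ) (t : ℝ) : 1 - ‖pt x t‖ ^ 2 =
    (1 - t) * ((1 + Complex.normSq x) * t + (1 - Complex.normSq x)) := by
  rw [pt, norm_mk3]
  simp only [map_mul, Complex.normSq_ofReal]
  ring

theorem pt_mem_ball (x : ℂ) {t : ℝ} (ht : t < 1) : pt x t ∈ Metric.ball (0 : E3) 1 ↔
    0 < (1 + Complex.normSq x) * t + (1 - Complex.normSq x) := by
  rw [mem_ball_zero_iff]
  have h := norm_pt x t
  have h1 : 0 < 1 - t := by linarith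
  constructor
  · intro h2
    have h3 : 0 < 1 - ‖pt x t‖ ^ 2 := by nlinarith [norm_nonneg (pt x t)]
    rw [h] at h3
    exact pos_of_mul_pos_left (by rwa [mul_comm] at h3) h1.le
  · intro h2
    have h3 : 0 < 1 - ‖pt x t‖ ^ 2 := by rw [h]; positivity
    nlinarith [norm_nonneg (pt x t)]

/-- The hyperbolic volume, integrated along the lines through the north pole. -/
theorem hypVol_eq {A : Set E3} (hA : MeasurableSet A) :
    hypVol A = ∫⁻ x : ℂ, ∫⁻ t in Iio (1 : ℝ), (A ∩ Metric.ball 0 1).indicator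
      (fun _ => ENNReal.ofReal
        (1 / ((1 + Complex.normSq x) * t + (1 - Complex.normSq x)) ^ 2)) (pt x t) := by
  set F : E3 → ℝ≥0∞ := (A ∩ Metric.ball 0 1).indicator
    (fun x => ENNReal.ofReal (1 / (1 - ‖x‖ ^ 2) ^ 2)) with hF
  have hAB : MeasurableSet (A ∩ Metric.ball (0 : E3) 1) := hA.inter Metric.isOpen_ball.measurableSet
  have hFm : Measurable F := by
    apply Measurable.indicator _ hAB
    fun_prop
  have e1 : hypVol A = ∫⁻ p : ℂ × ℝ, F (mk3 p) ∂(volume.prod volume) := by
    unfold hypVol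
    rw [← lintegral_indicator hAB, mk3_measurePreserving.lintegral_comp hFm]
  have e1' : ∫⁻ p : ℂ × ℝ, F (mk3 p) ∂(volume.prod volume) =
      ∫⁻ t : ℝ, ∫⁻ z : ℂ, F (mk3 (z, t)) :=
    lintegral_prod_symm (fun p => F (mk3 p)) ((hFm.comp measurable_mk3).aemeasurable)
  rw [e1, e1']
  -- points above the ball do not contribute
  have e2 : ∫⁻ t : ℝ, ∫⁻ z : ℂ, F (mk3 (z, t)) = ∫⁻ t in Iio (1 : ℝ), ∫⁻ z : ℂ, F (mk3 (z, t)) := by
    rw [← lintegral_indicator measurableSet_Iio]
    apply lintegral_congr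
    intro t
    by_cases ht : t < 1
    · rw [indicator_of_mem (show t ∈ Iio (1 : ℝ) from ht)]
    · rw [indicator_of_notMem (show t ∉ Iio (1 : ℝ) from ht)]
      rw [← lintegral_zero (μ := (volume : Measure ℂ))]
      apply lintegral_congr
      intro z
      simp only [hF]
      apply indicator_of_notMem
      rintro ⟨-, hb⟩
      rw [mem_ball_zero_iff] at hb
      have h1 := norm_mk3 (z, t)
      have h2 := Complex.normSq_nonneg z
      push Not at ht
      simp only at h1
      nlinarith [norm_nonneg (mk3 (z, t))]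
  rw [e2]
  have e3 : ∀ t ∈ Iio (1 : ℝ), ∫⁻ z : ℂ, F (mk3 (z, t)) =
      ∫⁻ x : ℂ, ENNReal.ofReal ((1 - t) ^ 2) * F (pt x t) := by
    intro t ht
    have ht : t < 1 := ht
    have hκ : ((1 - t : ℝ) : ℂ) ≠ 0 := by
      have : (1 - t : ℝ) ≠ 0 := by linarith
      exact_mod_cast this
    have h := lintegral_affine hκ 0 (MeasurableSet.univ) (fun z => F (mk3 (z, t)))
    have himg : (fun y : ℂ => 0 + ((1 - t : ℝ) : ℂ) * y) '' univ = univ := by
      rw [image_univ]
      apply range_eq_univ.2
      intro y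
      exact ⟨y / ((1 - t : ℝ) : ℂ), by simp only [zero_add]; rw [mul_div_cancel₀ _ hκ]⟩
    rw [himg, setLIntegral_univ, setLIntegral_univ] at h
    rw [h, ← lintegral_const_mul' _ _ ENNReal.ofReal_ne_top]
    apply lintegral_congr
    intro x
    simp only [zero_add, Complex.normSq_ofReal, pt]
    rw [← pow_two]
  rw [setLIntegral_congr_fun measurableSet_Iio e3, lintegral_lintegral_swap]
  · apply lintegral_congr
    intro x
    apply setLIntegral_congr_fun measurableSet_Iio
    intro t ht
    have ht : t < 1 := ht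
    show ENNReal.ofReal ((1 - t) ^ 2) * F (pt x t) = (A ∩ Metric.ball 0 1).indicator
      (fun _ => ENNReal.ofReal
        (1 / ((1 + Complex.normSq x) * t + (1 - Complex.normSq x)) ^ 2)) (pt x t)
    by_cases hm : pt x t ∈ A ∩ Metric.ball 0 1
    · rw [hF, indicator_of_mem hm, indicator_of_mem hm, ← ENNReal.ofReal_mul (by positivity)]
      congr 1
      have h1 := (pt_mem_ball x ht).1 hm.2
      have h2 : (1 - t) ≠ 0 := by linarith
      rw [norm_pt]
      field_simp
    · rw [hF, indicator_of_notMem hm, indicator_of_notMem hm, mul_zero]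
  · apply Measurable.aemeasurable
    apply Measurable.mul
    · fun_prop
    · apply hFm.comp
      apply measurable_mk3.comp
      fun_prop

/-- The integral along one line. -/
theorem line_integral {n g : ℝ} (hn : 0 ≤ n) (hg : n < g) :
    ∫⁻ t in Ico ((g - 1) / (g + 1)) 1, ENNReal.ofReal (1 / ((1 + n) * t + (1 - n)) ^ 2) =
      ENNReal.ofReal (1 / (2 * (g - n))) := by
  set a := (g - 1) / (g + 1) with ha
  have hg1 : 0 < g + 1 := by linarith
  have ha1 : a < 1 := by rw [ha, div_lt_one hg1]; linarith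
  have hval : (1 + n) * a + (1 - n) = 2 * (g - n) / (g + 1) := by
    rw [ha]; field_simp; ring
  have hpos : ∀ t, a ≤ t → 0 < (1 + n) * t + (1 - n) := by
    intro t ht
    have : 0 < (1 + n) * a + (1 - n) := by
      rw [hval]; apply div_pos _ hg1; linarith
    nlinarith
  have hder : ∀ t ∈ uIcc a 1, HasDerivAt (fun t => -(1 / ((1 + n) * ((1 + n) * t + (1 - n)))))
      (1 / ((1 + n) * t + (1 - n)) ^ 2) t := by
    intro t ht
    rw [uIcc_of_le ha1.le] at ht
    have hp := hpos t ht.1
    have h1 : HasDerivAt (fun t => (1 + n) * ((1 + n) * t + (1 - n))) ((1 + n) * (1 + n)) t := by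
      simpa using (((hasDerivAt_id t).const_mul (1 + n)).add_const (1 - n)).const_mul (1 + n)
    have h2 := (h1.inv (by positivity)).neg
    have h3 : (fun t => -(1 / ((1 + n) * ((1 + n) * t + (1 - n))))) =
        fun t => -((1 + n) * ((1 + n) * t + (1 - n)))⁻¹ := by
      funext t; rw [one_div]
    rw [h3]
    convert! h2 using 1
    field_simp
  have hcont : ContinuousOn (fun t => 1 / ((1 + n) * t + (1 - n)) ^ 2) (uIcc a 1) := by
    intro t ht
    rw [uIcc_of_le ha1.le] at ht
    have hp := hpos t ht.1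
    apply ContinuousAt.continuousWithinAt
    apply ContinuousAt.div continuousAt_const (by fun_prop) (by positivity)
  have hint := intervalIntegral.integral_eq_sub_of_hasDerivAt hder hcont.intervalIntegrable
  have hii : IntegrableOn (fun t => 1 / ((1 + n) * t + (1 - n)) ^ 2) (Ico a 1) := by
    have := hcont.intervalIntegrable (μ := volume)
    rw [intervalIntegrable_iff_integrableOn_Icc_of_le ha1.le] at this
    exact this.mono_set Ico_subset_Icc_self
  rw [← ofReal_integral_eq_lintegral_ofReal hii]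
  · rw [integral_Ico_eq_integral_Ioo, ← integral_Ioc_eq_integral_Ioo,
      ← intervalIntegral.integral_of_le ha1.le, hint]
    congr 1
    rw [hval]
    have : g - n ≠ 0 := by linarith
    field_simp
    ring
  · rw [Filter.EventuallyLE, ae_restrict_iff' measurableSet_Ico]
    filter_upwards with t ht
    have := hpos t ht.1
    simp only [Pi.zero_apply]
    positivity

end Pool.Agent.Lib.MP_b9d07b_gt
end

section
set_option autoImplicit false

/-!
# The convex hull of the north pole and of lifted points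
-/

open MeasureTheory Set Filter Topology Real
open scoped ENNReal RealInnerProductSpace

namespace Pool.Agent.Lib.MP_b9d07b_gt

/-- The coordinate functionals. -/
noncomputable def co (i : Fin 3) : E3 →L[ℝ] ℝ := EuclideanSpace.proj i

theorem co_apply (i : Fin 3) (x : E3) : co i x = x i := rfl

theorem ext_co {x y : E3} (h0 : co 0 x = co 0 y) (h1 : co 1 x = co 1 y) (h2 : co 2 x = co 2 y) :
    x = y := by
  ext i
  fin_cases i
  · exact h0
  · exact h1
  · exact h2

@[simp] theorem co_north0 : co 0 north = 0 := rfl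
@[simp] theorem co_north1 : co 1 north = 0 := rfl
@[simp] theorem co_north2 : co 2 north = 1 := rfl
@[simp] theorem co_lift0 (z : ℂ) : co 0 (lift z) = 2 * z.re / (Complex.normSq z + 1) := rfl
@[simp] theorem co_lift1 (z : ℂ) : co 1 (lift z) = 2 * z.im / (Complex.normSq z + 1) := rfl
@[simp] theorem co_lift2 (z : ℂ) :
    co 2 (lift z) = (Complex.normSq z - 1) / (Complex.normSq z + 1) := rfl
theorem co_pt0 (x : ℂ) (t : ℝ) : co 0 (pt x t) = (1 - t) * x.re := by
  show ((((1 - t : ℝ) : ℂ) * x)).re = _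
  simp
theorem co_pt1 (x : ℂ) (t : ℝ) : co 1 (pt x t) = (1 - t) * x.im := by
  show ((((1 - t : ℝ) : ℂ) * x)).im = _
  simp
theorem co_pt2 (x : ℂ) (t : ℝ) : co 2 (pt x t) = t := rfl

theorem normSq_add_one_pos (z : ℂ) : 0 < Complex.normSq z + 1 := by
  linarith [Complex.normSq_nonneg z]

theorem lift_ne_north (z : ℂ) : lift z ≠ north := by
  intro h
  have := congrArg (co 2) h
  rw [co_lift2, co_north2, div_eq_one_iff_eq (normSq_add_one_pos z).ne'] at this
  linarith

theorem lift_injective : Function.Injective lift := by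
  intro z z' h
  have h2 := congrArg (co 2) h
  have h0 := congrArg (co 0) h
  have h1 := congrArg (co 1) h
  rw [co_lift2, co_lift2, div_eq_div_iff (normSq_add_one_pos z).ne' (normSq_add_one_pos z').ne'] at h2
  have hn : Complex.normSq z = Complex.normSq z' := by linarith
  rw [co_lift0, co_lift0, hn, div_left_inj' (normSq_add_one_pos z').ne'] at h0
  rw [co_lift1, co_lift1, hn, div_left_inj' (normSq_add_one_pos z').ne'] at h1
  exact Complex.ext (by linarith) (by linarith)

theorem norm_sq_co (x : E3) : ‖x‖ ^ 2 = co 0 x ^ 2 + co 1 x ^ 2 + co 2 x ^ 2 := by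
  rw [EuclideanSpace.norm_sq_eq, Fin.sum_univ_three]
  simp [co_apply]

theorem norm_lift (z : ℂ) : ‖lift z‖ = 1 := by
  have h : ‖lift z‖ ^ 2 = 1 := by
    rw [norm_sq_co, co_lift0, co_lift1, co_lift2]
    have := (normSq_add_one_pos z).ne'
    field_simp
    rw [Complex.normSq_apply]
    ring
  nlinarith [norm_nonneg (lift z)]

theorem norm_north : ‖north‖ = 1 := by
  have h : ‖north‖ ^ 2 = 1 := by
    rw [norm_sq_co]; simp
  nlinarith [norm_nonneg north]

/-- The vertex set with the north pole and the lifts of `Z`. -/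
noncomputable def SZ (Z : Finset ℂ) : Finset E3 :=
  open Classical in insert north (Z.image lift)

theorem mem_SZ {Z : Finset ℂ} {y : E3} : y ∈ SZ Z ↔ y = north ∨ ∃ z ∈ Z, lift z = y := by
  classical
  unfold SZ
  rw [Finset.mem_insert, Finset.mem_image]

theorem sum_SZ (Z : Finset ℂ) {M : Type} [AddCommMonoid M] (f : E3 → M) :
    ∑ y ∈ SZ Z, f y = f north + ∑ z ∈ Z, f (lift z) := by
  classical
  unfold SZ
  rw [Finset.sum_insert, Finset.sum_image (fun x _ y _ h => lift_injective h)]
  rw [Finset.mem_image]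
  rintro ⟨z, -, hz⟩
  exact lift_ne_north z hz

/-- The points of the hull on the line over `x`. -/
theorem hull_line {Z : Finset ℂ} {x : ℂ} {t : ℝ} (ht : t < 1)
    (h : pt x t ∈ convexHull ℝ (SZ Z : Set E3)) :
    ∃ w : ℂ → ℝ, (∀ z ∈ Z, 0 ≤ w z) ∧ ∑ z ∈ Z, w z = 1 ∧ ∑ z ∈ Z, w z • z = x ∧
      (1 - t) * ∑ z ∈ Z, w z * Complex.normSq z ≤ 1 + t := by
  obtain ⟨w, w0, w1, hw⟩ := Finset.mem_convexHull'.1 h
  rw [sum_SZ] at w1 hw
  have h1t : 0 < 1 - t := by linarith
  have hn : 0 ≤ w north := w0 north (mem_SZ.2 (Or.inl rfl))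
  have hz : ∀ z ∈ Z, 0 ≤ w (lift z) := fun z hz => w0 _ (mem_SZ.2 (Or.inr ⟨z, hz, rfl⟩))
  have c0 := congrArg (co 0) hw
  have c1 := congrArg (co 1) hw
  have c2 := congrArg (co 2) hw
  rw [map_add, map_smul, map_sum, co_north0, co_pt0, smul_zero, zero_add] at c0
  rw [map_add, map_smul, map_sum, co_north1, co_pt1, smul_zero, zero_add] at c1
  rw [map_add, map_smul, map_sum, co_north2, co_pt2, smul_eq_mul, mul_one] at c2
  simp only [map_smul, smul_eq_mul, co_lift0, co_lift1, co_lift2] at c0 c1 c2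
  set ν : ℂ → ℝ := fun z => w (lift z) * 2 / (Complex.normSq z + 1) with hν
  have s1 : ∑ z ∈ Z, ν z = 1 - t := by
    have : ∑ z ∈ Z, ν z = ∑ z ∈ Z, w (lift z) -
        ∑ z ∈ Z, w (lift z) * ((Complex.normSq z - 1) / (Complex.normSq z + 1)) := by
      rw [← Finset.sum_sub_distrib]
      apply Finset.sum_congr rfl
      intro z _
      have := (normSq_add_one_pos z).ne'
      simp only [hν]
      field_simp
      ring
    rw [this]
    linarith
  have s2 : ∑ z ∈ Z, ν z * z.re = (1 - t) * x.re := by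
    rw [← c0]
    apply Finset.sum_congr rfl
    intro z _
    simp only [hν]
    ring
  have s3 : ∑ z ∈ Z, ν z * z.im = (1 - t) * x.im := by
    rw [← c1]
    apply Finset.sum_congr rfl
    intro z _
    simp only [hν]
    ring
  have s4 : ∑ z ∈ Z, ν z * Complex.normSq z = 1 + t - 2 * w north := by
    have : ∑ z ∈ Z, ν z * Complex.normSq z = ∑ z ∈ Z, w (lift z) +
        ∑ z ∈ Z, w (lift z) * ((Complex.normSq z - 1) / (Complex.normSq z + 1)) := by
      rw [← Finset.sum_add_distrib]
      apply Finset.sum_congr rfl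
      intro z _
      have := (normSq_add_one_pos z).ne'
      simp only [hν]
      field_simp
      ring
    rw [this]
    linarith
  refine ⟨fun z => ν z / (1 - t), ?_, ?_, ?_, ?_⟩
  · intro z hzZ
    have := hz z hzZ
    have := normSq_add_one_pos z
    simp only [hν]
    positivity
  · rw [← Finset.sum_div, s1, div_self h1t.ne']
  · apply Complex.ext
    · rw [Complex.re_sum]
      simp only [Complex.smul_re, smul_eq_mul]
      have : ∀ z, ν z / (1 - t) * z.re = (ν z * z.re) / (1 - t) := fun z => by ring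
      simp_rw [this]
      rw [← Finset.sum_div, s2, mul_div_cancel_left₀ _ h1t.ne']
    · rw [Complex.im_sum]
      simp only [Complex.smul_im, smul_eq_mul]
      have : ∀ z, ν z / (1 - t) * z.im = (ν z * z.im) / (1 - t) := fun z => by ring
      simp_rw [this]
      rw [← Finset.sum_div, s3, mul_div_cancel_left₀ _ h1t.ne']
  · have : ∀ z, ν z / (1 - t) * Complex.normSq z = (ν z * Complex.normSq z) / (1 - t) :=
      fun z => by ring
    simp_rw [this]
    rw [← Finset.sum_div, s4, mul_div_cancel₀ _ h1t.ne']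
    linarith

/-- Conversely, points on the line over `x` in the hull. -/
theorem line_hull {Z : Finset ℂ} {x : ℂ} {t : ℝ} (ht : t < 1) {w : ℂ → ℝ}
    (w0 : ∀ z ∈ Z, 0 ≤ w z) (w1 : ∑ z ∈ Z, w z = 1) (hw : ∑ z ∈ Z, w z • z = x)
    (h : (1 - t) * ∑ z ∈ Z, w z * Complex.normSq z ≤ 1 + t) :
    pt x t ∈ convexHull ℝ (SZ Z : Set E3) := by
  classical
  have h1t : 0 < 1 - t := by linarith
  set μ : ℂ → ℝ := fun z => w z * (1 - t) * (Complex.normSq z + 1) / 2 with hμ
  set a : ℝ := ((1 + t) - (1 - t) * ∑ z ∈ Z, w z * Complex.normSq z) / 2 with ha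
  have ha0 : 0 ≤ a := by rw [ha]; linarith
  have hsum : a + ∑ z ∈ Z, μ z = 1 := by
    have : ∑ z ∈ Z, μ z = (1 - t) / 2 * (∑ z ∈ Z, w z * Complex.normSq z + ∑ z ∈ Z, w z) := by
      rw [← Finset.sum_add_distrib, Finset.mul_sum]
      exact Finset.sum_congr rfl fun z _ => by simp only [hμ]; ring
    rw [this, w1, ha]
    ring
  have hre : ∑ z ∈ Z, w z * z.re = x.re := by
    have := congrArg Complex.re hw
    rw [Complex.re_sum] at this
    simpa using this
  have him : ∑ z ∈ Z, w z * z.im = x.im := by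
    have := congrArg Complex.im hw
    rw [Complex.im_sum] at this
    simpa using this
  have hconv := convex_convexHull ℝ (SZ Z : Set E3)
  have hpt : pt x t = a • north + ∑ z ∈ Z, μ z • lift z := by
    apply ext_co
    · rw [map_add, map_smul, map_sum, co_north0, co_pt0, smul_zero, zero_add, ← hre,
        Finset.mul_sum]
      apply Finset.sum_congr rfl
      intro z _
      have := (normSq_add_one_pos z).ne'
      simp only [map_smul, co_lift0, smul_eq_mul, hμ]
      field_simp
    · rw [map_add, map_smul, map_sum, co_north1, co_pt1, smul_zero, zero_add, ← him,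
        Finset.mul_sum]
      apply Finset.sum_congr rfl
      intro z _
      have := (normSq_add_one_pos z).ne'
      simp only [map_smul, co_lift1, smul_eq_mul, hμ]
      field_simp
    · rw [map_add, map_smul, map_sum, co_north2, co_pt2, smul_eq_mul, mul_one]
      have : ∑ z ∈ Z, co 2 (μ z • lift z) = (1 - t) / 2 * (∑ z ∈ Z, w z * Complex.normSq z -
          ∑ z ∈ Z, w z) := by
        rw [← Finset.sum_sub_distrib, Finset.mul_sum]
        apply Finset.sum_congr rfl
        intro z _
        have := (normSq_add_one_pos z).ne'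
        simp only [map_smul, co_lift2, smul_eq_mul, hμ]
        field_simp
      rw [this, w1, ha]
      ring
  rw [Finset.mem_convexHull']
  refine ⟨fun y => if y = north then a else ∑ z ∈ Z, if lift z = y then μ z else 0, ?_, ?_, ?_⟩
  · intro y _
    simp only
    split_ifs
    · exact ha0
    · apply Finset.sum_nonneg
      intro z hz
      split_ifs
      · have := w0 z hz
        have := normSq_add_one_pos z
        simp only [hμ]
        positivity
      · exact le_rfl
  · rw [sum_SZ, if_pos rfl, ← hsum]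
    congr 1
    apply Finset.sum_congr rfl
    intro z hz
    rw [if_neg (lift_ne_north z), Finset.sum_eq_single_of_mem z hz, if_pos rfl]
    intro z' _ hne
    rw [if_neg (fun h => hne (lift_injective h))]
  · rw [sum_SZ]
    beta_reduce
    rw [if_pos rfl, hpt]
    congr 1
    apply Finset.sum_congr rfl
    intro z hz
    rw [if_neg (lift_ne_north z), Finset.sum_eq_single_of_mem z hz, if_pos rfl]
    intro z' _ hne
    rw [if_neg (fun h => hne (lift_injective h))]

end Pool.Agent.Lib.MP_b9d07b_gt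
end

section
set_option autoImplicit false

/-!
# Volume bounds by decomposition into ideal tetrahedra
-/

open MeasureTheory Set Filter Topology Real
open scoped ENNReal RealInnerProductSpace

namespace Pool.Agent.Lib.MP_b9d07b_gt

/-- The volume of the ideal tetrahedron over the triangle `T`. -/
noncomputable def volT (T : Finset ℂ) : ℝ := ∑ v ∈ T, Lob (angT T v)

theorem triangle_angles {u p q : ℂ} (ho : orient u p q ≠ 0) :
    0 < EuclideanGeometry.angle p u q ∧ 0 < EuclideanGeometry.angle u p q ∧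
    0 < EuclideanGeometry.angle u q p ∧ EuclideanGeometry.angle p u q +
      EuclideanGeometry.angle u p q + EuclideanGeometry.angle u q p = π := by
  have key : ∀ {u p q : ℂ}, orient u p q ≠ 0 → 0 < EuclideanGeometry.angle p u q := by
    intro u p q ho
    rcases lt_or_gt_of_ne ho with h | h
    · have h1 : 0 < orient u q p := by unfold orient at h ⊢; linarith
      rw [EuclideanGeometry.angle_comm]
      exact (angle_arg h1).2.1
    · exact (angle_arg h).2.1
  have hpu : p ≠ u := by
    rintro rfl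
    exact ho (by unfold orient; ring)
  refine ⟨key ho, key (u := p) (p := u) (q := q) ?_, key (u := q) (p := u) (q := p) ?_, ?_⟩
  · intro h; apply ho; unfold orient at h ⊢; linarith
  · intro h; apply ho; unfold orient at h ⊢; linarith
  · have := EuclideanGeometry.angle_add_angle_add_angle_eq_pi (p₁ := p) (p₂ := u) q hpu.symm
    rw [EuclideanGeometry.angle_comm u p q, EuclideanGeometry.angle_comm q p u]
    rw [EuclideanGeometry.angle_comm u p q] 
    linarith [EuclideanGeometry.angle_comm q p u]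

theorem tet_integral {T : Finset ℂ} (hT : NC T) {m : ℂ} {k : ℝ}
    (hm : ∀ z ∈ T, Lf m k z = Complex.normSq z) :
    ∫⁻ x in convexHull ℝ (T : Set ℂ), ENNReal.ofReal (1 / (2 * pw m k x)) =
      ENNReal.ofReal (volT T) := by
  obtain ⟨p, q, r, hpq, hqr, hpr, hmem, ho, hsum⟩ := nc_triple hT
  have hz : ∀ z ∈ T, pw m k z = 0 := fun z hz => by rw [pw_eq, hm z hz, sub_self]
  rw [tri_set hmem, tri_general ho (hz p ((hmem p).2 (by simp))) (hz q ((hmem q).2 (by simp)))
    (hz r ((hmem r).2 (by simp)))]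
  unfold volT
  rw [hsum, angT_eq hpq hpr hqr hmem,
    angT_eq (u := q) hpq.symm hqr hpr (fun x => by rw [hmem]; tauto),
    angT_eq (u := r) hpr.symm hqr.symm hpq (fun x => by rw [hmem]; tauto)]

theorem pw_pos {T : Finset ℂ} {m : ℂ} {k : ℝ} (hm : ∀ z ∈ T, Lf m k z = Complex.normSq z)
    {x : ℂ} (hx : x ∈ convexHull ℝ (T : Set ℂ)) (hxT : x ∉ T) : 0 < pw m k x := by
  obtain ⟨w, w0, w1, hw⟩ := Finset.mem_convexHull'.1 hx
  have h1 : Lf m k x = ∑ y ∈ T, w y * Complex.normSq y := by
    rw [← hw, Lf_sum w1]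
    exact Finset.sum_congr rfl fun y hy => by rw [hm y hy]
  rw [pw_eq, h1, normSq_convex w1 x hw, add_sub_cancel_left]
  obtain ⟨y, hy, hpos⟩ : ∃ y ∈ T, 0 < w y := by
    by_contra hcon
    push Not at hcon
    have := Finset.sum_nonpos hcon
    linarith
  apply Finset.sum_pos' (fun y hy => mul_nonneg (w0 y hy) (Complex.normSq_nonneg _))
  refine ⟨y, hy, mul_pos hpos (Complex.normSq_pos.2 ?_)⟩
  rw [sub_ne_zero]
  rintro rfl
  exact hxT hy

theorem exists_mk (T : Finset ℂ) : ∃ p : ℂ × ℝ, NC T → ∀ z ∈ T, Lf p.1 p.2 z = Complex.normSq z := by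
  by_cases h : NC T
  · obtain ⟨m, k, hm⟩ := exists_Lf h
    exact ⟨(m, k), fun _ => hm⟩
  · exact ⟨0, fun h' => absurd h' h⟩

/-- The centre and constant of the circumscribed circle of `T`. -/
noncomputable def mkT (T : Finset ℂ) : ℂ × ℝ := (exists_mk T).choose

theorem mkT_spec {T : Finset ℂ} (h : NC T) : ∀ z ∈ T, Lf (mkT T).1 (mkT T).2 z = Complex.normSq z :=
  (exists_mk T).choose_spec h

theorem Lf_unique {T : Finset ℂ} (h : NC T) {m m' : ℂ} {k k' : ℝ}
    (h1 : ∀ z ∈ T, Lf m k z = Complex.normSq z) (h2 : ∀ z ∈ T, Lf m' k' z = Complex.normSq z)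
    (x : ℂ) : Lf m k x = Lf m' k' x := by
  obtain ⟨c, c1, hc⟩ := exists_coef h x
  rw [← hc, Lf_sum c1, Lf_sum c1]
  exact Finset.sum_congr rfl fun y hy => by rw [h1 y hy, h2 y hy]

theorem measurable_hull3 (S : Finset E3) : MeasurableSet (convexHull ℝ (S : Set E3)) :=
  (S.finite_toSet.isClosed_convexHull ℝ).measurableSet

theorem vol_le {Z : Finset ℂ} (hZ : GP Z) :
    vol (SZ Z) ≤ ∑ T ∈ Del Z, ENNReal.ofReal (volT T) := by
  classical
  unfold vol
  rw [hypVol_eq (measurable_hull3 _)]
  have hmeas : ∀ T : Finset ℂ, Measurable fun x =>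
      ENNReal.ofReal (1 / (2 * pw (mkT T).1 (mkT T).2 x)) := by
    intro T
    unfold pw
    fun_prop
  have e1 : ∑ T ∈ Del Z, ENNReal.ofReal (volT T) = ∫⁻ x, ∑ T ∈ Del Z,
      (convexHull ℝ (T : Set ℂ)).indicator
        (fun x => ENNReal.ofReal (1 / (2 * pw (mkT T).1 (mkT T).2 x))) x := by
    rw [lintegral_finsetSum]
    · apply Finset.sum_congr rfl
      intro T hT
      have hT' := mem_Del.1 hT
      rw [lintegral_indicator (isClosed_hull T).measurableSet,
        tet_integral (hZ.nc hT'.1 hT'.2.1) (mkT_spec (hZ.nc hT'.1 hT'.2.1))]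
    · intro T _
      exact (hmeas T).indicator (isClosed_hull T).measurableSet
  rw [e1]
  apply lintegral_mono_ae
  filter_upwards [ae_not_segment Z] with x hx
  by_cases hex : ∃ t < 1, pt x t ∈ convexHull ℝ (SZ Z : Set E3)
  · obtain ⟨t₀, ht₀, hmem₀⟩ := hex
    obtain ⟨w, w0, w1, hw, -⟩ := hull_line ht₀ hmem₀
    have hxZ : x ∈ convexHull ℝ (Z : Set ℂ) := Finset.mem_convexHull'.2 ⟨w, w0, w1, hw⟩
    obtain ⟨T, hT, hxT⟩ := cover hZ hxZ hx
    have hTD := mem_Del.2 hT
    have hNC := hZ.nc hT.1 hT.2.1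
    obtain ⟨-, -, m, k, hm, hm'⟩ := hT
    set g := Lf m k x with hg
    have hxnT : x ∉ T := fun h => hx x ((mem_Del.1 hTD).1 h) x ((mem_Del.1 hTD).1 h)
      (left_mem_segment ℝ x x)
    have hpos : 0 < pw m k x := pw_pos hm hxT hxnT
    have hgn : Complex.normSq x < g := by rw [pw_eq] at hpos; linarith
    have hpweq : pw (mkT T).1 (mkT T).2 x = g - Complex.normSq x := by
      rw [pw_eq, Lf_unique hNC (mkT_spec hNC) hm x]
    calc ∫⁻ t in Iio (1 : ℝ), (convexHull ℝ (SZ Z : Set E3) ∩ Metric.ball 0 1).indicator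
          (fun _ => ENNReal.ofReal
            (1 / ((1 + Complex.normSq x) * t + (1 - Complex.normSq x)) ^ 2)) (pt x t)
        ≤ ∫⁻ t in Iio (1 : ℝ), (Ici ((g - 1) / (g + 1))).indicator (fun t => ENNReal.ofReal
            (1 / ((1 + Complex.normSq x) * t + (1 - Complex.normSq x)) ^ 2)) t := by
          apply setLIntegral_mono' measurableSet_Iio
          intro t ht
          by_cases hmem : pt x t ∈ convexHull ℝ (SZ Z : Set E3) ∩ Metric.ball 0 1
          · rw [indicator_of_mem hmem]
            have ht' : t ∈ Ici ((g - 1) / (g + 1)) := by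
              obtain ⟨w', w0', w1', hw', hle⟩ := hull_line ht hmem.1
              have h1 : g ≤ ∑ z ∈ Z, w' z * Complex.normSq z := by
                rw [hg, ← hw', Lf_sum w1']
                apply Finset.sum_le_sum
                intro z hz
                apply mul_le_mul_of_nonneg_left _ (w0' z hz)
                by_cases hzT : z ∈ T
                · exact (hm z hzT).le
                · exact (hm' z hz hzT).le
              have ht1 : 0 < 1 - t := by have : t < 1 := ht; linarith
              have h2 : (1 - t) * g ≤ 1 + t := by nlinarith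
              have h3 : 0 < g + 1 := by linarith [Complex.normSq_nonneg x]
              show (g - 1) / (g + 1) ≤ t
              rw [div_le_iff₀ h3]
              linarith
            rw [indicator_of_mem ht']
          · rw [indicator_of_notMem hmem]
            exact zero_le
      _ = ENNReal.ofReal (1 / (2 * (g - Complex.normSq x))) := by
          rw [setLIntegral_indicator measurableSet_Ici, Ici_inter_Iio,
            line_integral (Complex.normSq_nonneg x) hgn]
      _ = (convexHull ℝ (T : Set ℂ)).indicator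
        (fun x => ENNReal.ofReal (1 / (2 * pw (mkT T).1 (mkT T).2 x))) x := by
          rw [indicator_of_mem hxT, hpweq]
      _ ≤ _ := Finset.single_le_sum (f := fun T : Finset ℂ => (convexHull ℝ (T : Set ℂ)).indicator
        (fun x => ENNReal.ofReal (1 / (2 * pw (mkT T).1 (mkT T).2 x))) x)
          (fun _ _ => zero_le) hTD
  · have h0 : ∫⁻ t in Iio (1 : ℝ), (convexHull ℝ (SZ Z : Set E3) ∩ Metric.ball 0 1).indicator
        (fun _ => ENNReal.ofReal
          (1 / ((1 + Complex.normSq x) * t + (1 - Complex.normSq x)) ^ 2)) (pt x t) = 0 := by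
      rw [setLIntegral_congr_fun (g := fun _ => 0) measurableSet_Iio, lintegral_zero]
      intro t ht
      apply indicator_of_notMem
      exact fun h => hex ⟨t, ht, h.1⟩
    rw [h0]
    exact zero_le

/-- A lower bound of the volume by disjoint tetrahedra. -/
theorem le_vol {Z : Finset ℂ} {ι : Type} [Fintype ι] (τ : ι → Finset ℂ) (hτ : ∀ i, τ i ⊆ Z)
    (hNC : ∀ i, NC (τ i)) (hdisj : Pairwise fun i j =>
      AEDisjoint volume (convexHull ℝ (τ i : Set ℂ)) (convexHull ℝ (τ j : Set ℂ))) :
    ∑ i, ENNReal.ofReal (volT (τ i)) ≤ vol (SZ Z) := by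
  classical
  unfold vol
  rw [hypVol_eq (measurable_hull3 _)]
  set G : ℂ → ℝ≥0∞ := fun x => ∫⁻ t in Iio (1 : ℝ),
    (convexHull ℝ (SZ Z : Set E3) ∩ Metric.ball 0 1).indicator
      (fun _ => ENNReal.ofReal
        (1 / ((1 + Complex.normSq x) * t + (1 - Complex.normSq x)) ^ 2)) (pt x t) with hG
  have e1 : ∀ i, ENNReal.ofReal (volT (τ i)) ≤ ∫⁻ x in convexHull ℝ (τ i : Set ℂ), G x := by
    intro i
    have hm := mkT_spec (hNC i)
    set m := (mkT (τ i)).1
    set k := (mkT (τ i)).2
    rw [← tet_integral (hNC i) hm]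
    apply setLIntegral_mono_ae' (isClosed_hull _).measurableSet
    filter_upwards [ae_not_segment Z] with x hx hxT
    have hxnT : x ∉ τ i := fun h => hx x (hτ i h) x (hτ i h) (left_mem_segment ℝ x x)
    have hpos : 0 < pw m k x := pw_pos hm hxT hxnT
    set g := Lf m k x with hg
    have hgn : Complex.normSq x < g := by rw [pw_eq] at hpos; linarith
    have hpweq : pw m k x = g - Complex.normSq x := rfl
    obtain ⟨w, w0, w1, hw⟩ := Finset.mem_convexHull'.1 hxT
    have hgw : g = ∑ y ∈ τ i, w y * Complex.normSq y := by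
      rw [hg, ← hw, Lf_sum w1]
      exact Finset.sum_congr rfl fun y hy => by rw [hm y hy]
    rw [hpweq, ← line_integral (Complex.normSq_nonneg x) hgn]
    calc ∫⁻ t in Ico ((g - 1) / (g + 1)) 1, ENNReal.ofReal
          (1 / ((1 + Complex.normSq x) * t + (1 - Complex.normSq x)) ^ 2)
        = ∫⁻ t in Iio (1 : ℝ), (Ici ((g - 1) / (g + 1))).indicator (fun t => ENNReal.ofReal
            (1 / ((1 + Complex.normSq x) * t + (1 - Complex.normSq x)) ^ 2)) t := by
          rw [setLIntegral_indicator measurableSet_Ici, Ici_inter_Iio]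
      _ ≤ G x := by
          apply setLIntegral_mono' measurableSet_Iio
          intro t ht
          by_cases htg : t ∈ Ici ((g - 1) / (g + 1))
          · rw [indicator_of_mem htg]
            have h3 : 0 < g + 1 := by linarith [Complex.normSq_nonneg x]
            have htg' : (g - 1) / (g + 1) ≤ t := htg
            have htg2 := (div_le_iff₀ h3).1 htg'
            have hmem : pt x t ∈ convexHull ℝ (SZ Z : Set E3) ∩ Metric.ball 0 1 := by
              constructor
              · have h4 : pt x t ∈ convexHull ℝ (SZ (τ i) : Set E3) := by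
                  apply line_hull ht w0 w1 hw
                  rw [← hgw]
                  linarith
                refine convexHull_mono ?_ h4
                intro y hy
                have hy' : y ∈ SZ (τ i) := hy
                rcases mem_SZ.1 hy' with h | ⟨z, hz, h⟩
                · exact mem_SZ.2 (Or.inl h)
                · exact mem_SZ.2 (Or.inr ⟨z, hτ i hz, h⟩)
              · rw [pt_mem_ball x ht]
                have h5 : (g - 1) ≤ t * (g + 1) := htg2
                have ht1 : 0 < 1 - t := by have : t < 1 := ht; linarith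
                nlinarith
            rw [indicator_of_mem hmem]
          · rw [indicator_of_notMem htg]
            exact zero_le
  calc ∑ i, ENNReal.ofReal (volT (τ i)) ≤ ∑ i, ∫⁻ x in convexHull ℝ (τ i : Set ℂ), G x :=
        Finset.sum_le_sum fun i _ => e1 i
    _ = ∫⁻ x in ⋃ i, convexHull ℝ (τ i : Set ℂ), G x := by
        rw [lintegral_iUnion₀ (fun i => (isClosed_hull _).measurableSet.nullMeasurableSet) hdisj,
          tsum_fintype]
    _ ≤ ∫⁻ x, G x := setLIntegral_le_lintegral _ _

end Pool.Agent.Lib.MP_b9d07b_gt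
end
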